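import Pool.Agent.Ind3.Final

set_option autoImplicit false

/-!
# CRk: multiple recurrence when the three maps share only finitely many independent generalised
eigenvalues (MP_cfac66_an).

Roles and times as in Ind3: role `0` is `R`, role `1` is `S`, role `2` is `T`; the time of role `l`
is `tm l y`: `tm 2 y = 2 y 0 + y 1` (T), `tm 0 y = 2 y 2 - y 1` (R), `tm 1 y = y 0 + y 2` (S).
-/

open MeasureTheory Filter Topology Finset

namespace Pool.Agent.CRk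

open Pool.Agent.FSP Pool.Agent.Ind3

universe u

/-- Complex window mean. -/
noncomputable def cmean (N s : ℕ) (f : ℕ → ℂ) : ℂ := (N : ℂ)⁻¹ * ∑ n ∈ range N, f (s + n)

/-- Complex triple mean over the windows of `Ind3.avg3`. -/
noncomputable def cavg3 (N : ℕ) (F : (Fin 3 → ℕ) → ℂ) : ℂ :=
  cmean N N fun a => cmean N 0 fun b => cmean N (3 * N) fun c => F ![a, b, c]

section

variable {Ω : Type u} [MeasurableSpace Ω]

/-- `v` is a generalised eigenfunction of `Q` with the invariant eigenvalue `lam`. -/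
def GEig (μ : Measure Ω) (Q : Ω → Ω) (v : Ω → ℂ) (lam : Ω → Circle) : Prop :=
  Measurable v ∧ Measurable lam ∧ (∀ x, lam (Q x) = lam x) ∧
    ∀ᵐ x ∂μ, v (Q x) = (lam x : ℂ) * v x

/-- All measurable invariant functions. -/
def FA (Q : Ω → Ω) : Set (Ω → Circle) := {φ | Measurable φ ∧ ∀ x, φ (Q x) = φ x}

/-- `c` is approximated in `L¹` by functions with values in `[0,1]` which are almost periodic with
frequencies from `F` for every error. (`Ind3.APL μ Q θ` is `APF μ Q (FF θ)`.) -/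
def APF (μ : Measure Ω) (Q : Ω → Ω) (F : Set (Ω → Circle)) (c : Ω → ℝ) : Prop :=
  ∀ ε : ℝ, 0 < ε → ∃ p : Ω → ℝ, Measurable p ∧ (∀ x, 0 ≤ p x) ∧ (∀ x, p x ≤ 1) ∧
    ∫ x, |c x - p x| ∂μ ≤ ε ∧ ∀ ε' : ℝ, 0 < ε' → AP μ Q F ε' p

/-- `f` is a limit in `L²` of finite sums of bounded generalised eigenfunctions with property
`P`. -/
def InS (μ : Measure Ω) (Q : Ω → Ω) (P : (Ω → ℂ) → (Ω → Circle) → Prop) (f : Ω → ℝ) : Prop :=
  ∀ ε : ℝ, 0 < ε → ∃ (ι : Type) (_ : Fintype ι) (v : ι → Ω → ℂ) (lam : ι → Ω → Circle) (K : ℝ),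
    (∀ i, GEig μ Q (v i) (lam i)) ∧ (∀ i x, ‖v i x‖ ≤ K) ∧ (∀ i, P (v i) (lam i)) ∧
    ∫ x, ‖(f x : ℂ) - ∑ i, v i x‖ ^ 2 ∂μ ≤ ε

/-- The eigenvalue is not commensurable with the list `θ` where `v` does not vanish. -/
def NR (μ : Measure Ω) (θ : ℕ → Ω → Circle) (v : Ω → ℂ) (lam : Ω → Circle) : Prop :=
  ∀ᵐ x ∂μ, v x ≠ 0 → ¬ RelN θ lam x

/-- No condition. -/
def Any (_ : Ω → ℂ) (_ : Ω → Circle) : Prop := True

/-- The weights: normalised Fejer kernels in the first `K` functions of the list. -/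
noncomputable def wt (q m K : ℕ) (θ : ℕ → Ω → Circle) (x : Ω) (n : ℕ) : ℝ :=
  nw q m (fun i : Fin K => θ i) x n

/-- The weight of a triple. -/
noncomputable def w3 (q m K : ℕ) (θ : ℕ → Ω → Circle) (x : Ω) (y : Fin 3 → ℕ) : ℝ :=
  wt q m K θ x (y 0) * wt q m K θ x (y 1) * wt q m K θ x (y 2)

/-- Admissible data: the lists of the three roles agree on `X`. -/
def Adm (μ : Measure Ω) (Q : Fin 3 → Ω → Ω) (θ : Fin 3 → ℕ → Ω → Circle) (X : Set Ω) : Prop :=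
  (∀ l, MeasurePreserving (Q l) μ μ) ∧ (∀ l j, Measurable (θ l j)) ∧
  (∀ l j x, θ l j (Q l x) = θ l j x) ∧ MeasurableSet X ∧ ∀ l j, ∀ x ∈ X, θ l j x = θ 0 j x

/-- The weighted trilinear form. -/
noncomputable def TF (μ : Measure Ω) (X : Set Ω) (N q m K : ℕ) (θ : ℕ → Ω → Circle)
    (Q : Fin 3 → Ω → Ω) (f : Fin 3 → Ω → ℝ) : ℝ :=
  ∫ x in X, avg3 N (fun y => w3 q m K θ x y * ∏ l, f l ((Q l)^[tm l y] x)) ∂μ

/-- Resonance of three eigenvalues at `x`, modulo the list `θ`. -/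
def Res (θ : ℕ → Ω → Circle) (lam : Fin 3 → Ω → Circle) (x : Ω) : Prop :=
  RelN θ (fun x => lam 2 x ^ 2 * lam 1 x) x ∧ RelN θ (fun x => lam 2 x * (lam 0 x)⁻¹) x ∧
    RelN θ (fun x => lam 1 x * lam 0 x ^ 2) x

/-- Every resonant triple is commensurable with the list on `X`. -/
def MaxR (μ : Measure Ω) (Q : Fin 3 → Ω → Ω) (θ : ℕ → Ω → Circle) (X : Set Ω) : Prop :=
  ∀ (v : Fin 3 → Ω → ℂ) (lam : Fin 3 → Ω → Circle), (∀ l, GEig μ (Q l) (v l) (lam l)) →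
    ∀ᵐ x ∂μ, x ∈ X → (∀ l, v l x ≠ 0) → Res θ lam x → ∀ l, RelN θ (lam l) x

/-- The list consisting of the `ω i` and of the constants `e j`. -/
noncomputable def lst (r : ℕ) (ω : Fin r → Ω → Circle) (e : ℕ → Circle) : ℕ → Ω → Circle :=
  fun j x => if h : j < r then ω ⟨j, h⟩ x else e (j - r)

/-- `Λ` is a countable group. -/
def CGrp (Λ : Set Circle) : Prop :=
  Λ.Countable ∧ (1 : Circle) ∈ Λ ∧ (∀ a ∈ Λ, ∀ b ∈ Λ, a * b ∈ Λ) ∧ ∀ a ∈ Λ, a⁻¹ ∈ Λ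

/-- The common generalised eigenvalues of the three maps have rank at most `k` modulo `Λ` on
`Z`. -/
def Rk (μ : Measure Ω) (Q : Fin 3 → Ω → Ω) (Λ : Set Circle) (Z : Set Ω) (k : ℕ) : Prop :=
  ∀ (V : Fin 3 → Fin (k + 1) → Ω → ℂ) (L : Fin 3 → Fin (k + 1) → Ω → Circle),
    (∀ l i, GEig μ (Q l) (V l i) (L l i)) →
    ∀ᵐ x ∂μ, x ∈ Z → (∀ l i, V l i x ≠ 0) → (∀ l i, L 2 i x * (L l i x)⁻¹ ∈ Λ) →
      ∃ a : Fin (k + 1) → ℤ, a ≠ 0 ∧ ∏ i, L 2 i x ^ a i ∈ Λ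

/-- `V`, `L` is a family of `r` common generalised eigenvalues (modulo `Λ`), independent modulo `Λ`
at every point of `X`. -/
def IFam (μ : Measure Ω) (Q : Fin 3 → Ω → Ω) (Λ : Set Circle) (X : Set Ω) (r : ℕ)
    (V : Fin 3 → Fin r → Ω → ℂ) (L : Fin 3 → Fin r → Ω → Circle) : Prop :=
  (∀ l i, GEig μ (Q l) (V l i) (L l i)) ∧
    ∀ x ∈ X, (∀ l i, V l i x ≠ 0) ∧ (∀ l i, L 2 i x * (L l i x)⁻¹ ∈ Λ) ∧
      ∀ a : Fin r → ℤ, ∏ i, L 2 i x ^ a i ∈ Λ → a = 0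

/-- Averages of `g (Q^(tm l y) x)` over the triples against products of bounded functions of
` (y l, y i)` and of ` (y l, y j)` tend to `0`. -/
def GW (μ : Measure Ω) (Q : Ω → Ω) (l i j : Fin 3) (g : Ω → ℝ) : Prop :=
  ∀ W ε : ℝ, 0 < ε → ∃ H : ℕ, 0 < H ∧ ∃ L₀ : ℕ, ∀ L ≥ L₀, ∀ u v : ℕ → ℕ → Ω → ℝ,
    (∀ a b, Measurable (u a b)) → (∀ a b, Measurable (v a b)) → (∀ a b x, |u a b x| ≤ W) →
    (∀ a b x, |v a b x| ≤ W) →
    ∫ x, |avg3 (H * L) fun y =>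
      u (y l) (y i) x * v (y l) (y j) x * g (Q^[tm l y] x)| ∂μ ≤ ε

end

end Pool.Agent.CRk
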