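import Pool.Agent.CRk.Targets

set_option autoImplicit false

open MeasureTheory Filter Topology Finset

namespace Pool.Agent.CRk

open Pool.Agent.FSP Pool.Agent.Ind3

universe u

/-- CON. Constant quotients. -/
theorem p_CON : T_CON.{u} := by
  intro Ω _ μ Q Λ X r V L hΛ hX hμ hF
  obtain ⟨hG, hI⟩ := hF
  have hc : Countable Λ := hΛ.1.to_subtype
  set Y : (Fin 3 → Fin r → Λ) → Set Ω := fun z =>
    {x | x ∈ X ∧ ∀ l i, (z l i : Circle) * L l i x = L 2 i x} with hY
  have hL : ∀ l i, Measurable (L l i) := fun l i => (hG l i).2.1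
  have hm : ∀ z, MeasurableSet (Y z) := by
    intro z
    have e : Y z = X ∩ ⋂ l, ⋂ i, {x | (((z l i : Circle) * L l i x : Circle) : ℂ) =
        ((L 2 i x : Circle) : ℂ)} := by
      ext x
      simp only [hY, Set.mem_ofPred_eq, Set.mem_inter_iff, Set.mem_iInter]
      refine and_congr Iff.rfl (forall_congr' fun l => forall_congr' fun i => ?_)
      exact Circle.coe_inj.symm
    rw [e]
    refine hX.inter (MeasurableSet.iInter fun l => MeasurableSet.iInter fun i => ?_)
    have hcc : Continuous (fun w : Circle => (w : ℂ)) := by fun_prop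
    have hcoe : Measurable (fun w : Circle => (w : ℂ)) := hcc.measurable
    refine measurableSet_eq_fun ?_ (hcoe.comp (hL 2 i))
    simp only [Circle.coe_mul]
    exact (hcoe.comp (hL l i)).const_mul _
  have hU : X ⊆ ⋃ z, Y z := by
    intro x hx
    rw [Set.mem_iUnion]
    refine ⟨fun l i => ⟨L 2 i x * (L l i x)⁻¹, (hI x hx).2.1 l i⟩, hx, fun l i => ?_⟩
    show L 2 i x * (L l i x)⁻¹ * L l i x = L 2 i x
    rw [inv_mul_cancel_right]
  by_contra hcon
  push Not at hcon
  apply hμ
  have h0 : ∀ z, μ (Y z) = 0 := by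
    intro z
    by_contra hz
    obtain ⟨x, hx, l, i, hne⟩ := hcon (Y z) (fun l i => (z l i : Circle)) (fun x hx => hx.1)
      (hm z) hz (fun l i => (z l i).2)
    exact hne (hx.2 l i)
  exact measure_mono_null hU (measure_iUnion_null h0)

end Pool.Agent.CRk
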