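import Pool.Agent.CRk.Targets

set_option autoImplicit false

/-! Target CRG of the project CRk: the theorem for a list. -/

open MeasureTheory Filter Topology Finset

namespace Pool.Agent.CRk

open Pool.Agent.FSP Pool.Agent.Ind3

universe u

namespace CRG_

theorem inS_any {Ω : Type u} [MeasurableSpace Ω] {μ : Measure Ω} {Q : Ω → Ω}
    {P : (Ω → ℂ) → (Ω → Circle) → Prop} {f : Ω → ℝ} (h : InS μ Q P f) : InS μ Q Any f := by
  intro ε hε
  obtain ⟨ι, hι, v, lam, K, h1, h2, _, h4⟩ := h ε hε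
  exact ⟨ι, hι, v, lam, K, h1, h2, fun _ => trivial, h4⟩

theorem relN_congr {Ω : Type u} {θ θ' : ℕ → Ω → Circle} {lam : Ω → Circle} {x : Ω}
    (h : ∀ j, θ j x = θ' j x) (hR : RelN θ lam x) : RelN θ' lam x := by
  obtain ⟨n, hn, k, a, ha⟩ := hR
  refine ⟨n, hn, k, a, ?_⟩
  rw [ha]
  exact Finset.prod_congr rfl fun j _ => by rw [h]

theorem exists_gamma {Ω : Type u} [MeasurableSpace Ω] (μ : Measure Ω) (X : Set Ω)
    (b : Fin 3 → Ω → ℝ) (hX : μ X ≠ 0) (hpos : ∀ l, ∀ᵐ x ∂μ, x ∈ X → 0 < b l x) :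
    ∃ γ : ℝ, 0 < γ ∧ μ {x | x ∈ X ∧ ∀ l, γ ≤ b l x} ≠ 0 := by
  by_contra hcon
  push Not at hcon
  apply hX
  have hU : μ (⋃ k : ℕ, {x | x ∈ X ∧ ∀ l, (1 / ((k : ℝ) + 1)) ≤ b l x}) = 0 := by
    rw [measure_iUnion_null_iff]
    intro k
    exact hcon _ (by positivity)
  have hall : ∀ᵐ x ∂μ, ∀ l, x ∈ X → 0 < b l x := ae_all_iff.2 hpos
  have hae : ∀ᵐ x ∂μ, x ∉ X := by
    have hU' : ∀ᵐ x ∂μ, x ∉ ⋃ k : ℕ, {x | x ∈ X ∧ ∀ l, (1 / ((k : ℝ) + 1)) ≤ b l x} :=
      measure_eq_zero_iff_ae_notMem.1 hU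
    filter_upwards [hall, hU'] with x hx hxU hxX
    apply hxU
    have hm : ∀ l, ∃ k : ℕ, 1 / ((k : ℝ) + 1) < b l x := fun l =>
      exists_nat_one_div_lt (hx l hxX)
    choose k hk using hm
    rw [Set.mem_iUnion]
    refine ⟨∑ l, k l, hxX, fun l => ?_⟩
    refine le_trans ?_ (hk l).le
    apply one_div_le_one_div_of_le (by positivity)
    have : k l ≤ ∑ l, k l := Finset.single_le_sum (fun _ _ => Nat.zero_le _) (Finset.mem_univ l)
    have h' : (k l : ℝ) ≤ ((∑ l, k l : ℕ) : ℝ) := by exact_mod_cast this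
    linarith
  exact measure_eq_zero_iff_ae_notMem.2 hae

theorem exists_m (K : ℕ) (ρ ε : ℝ) (hρ : 0 < ρ) (hε : 0 < ε) :
    ∃ m : ℕ, 1 ≤ m ∧ (K : ℝ) * (4 / (m * ρ ^ 2)) ≤ ε := by
  obtain ⟨m, hm⟩ := exists_nat_ge (K * 4 / (ρ ^ 2 * ε) : ℝ)
  refine ⟨m + 1, by omega, ?_⟩
  have hm' : K * 4 / (ρ ^ 2 * ε) ≤ ((m + 1 : ℕ) : ℝ) := by push_cast; linarith
  rw [div_le_iff₀ (by positivity)] at hm'
  have hmp : (0 : ℝ) < ((m + 1 : ℕ) : ℝ) := by positivity
  rw [mul_div_assoc', div_le_iff₀ (by positivity)]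
  nlinarith

end CRG_

theorem p_CRG (hDCL : T_DCL.{u}) (hUNI : T_UNI.{u}) (hCTX : T_CTX.{u}) (hWAV : T_WAV.{u})
    (hGTF : T_GTF.{u}) (hRTM : T_RTM.{u}) (hMA3 : T_MA3.{u}) : T_CRG.{u} := by
  classical
  intro Ω _ μ _ Q Q' θ X hAdm hQ' hl hr hMax hX0 A hA hXA
  obtain ⟨hQ, hθ, inv, hXm, hagree⟩ := hAdm
  choose b r g hbm hrm hgm hb hbr hr1 hg1 hone hAPL hIb hIbr hIr hRWM hpos using
    fun l => hDCL Ω μ (Q l) (hQ l) (θ l) (hθ l) (inv l) A hA
  obtain ⟨γ, hγ, hγX⟩ := CRG_.exists_gamma μ X b hX0 fun l => by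
    filter_upwards [hpos l] with x hx hxX
    exact hx (hXA hxX)
  set X' : Set Ω := {x | x ∈ X ∧ ∀ l, γ ≤ b l x} with hX'
  have hX'm : MeasurableSet X' := by
    have : X' = X ∩ ⋂ l, {x | γ ≤ b l x} := by
      ext x; simp [hX']
    rw [this]
    exact hXm.inter (MeasurableSet.iInter fun l => measurableSet_le measurable_const (hbm l))
  have hX'X : ∀ x ∈ X', x ∈ X := fun x hx => hx.1
  have hAdm' : Adm μ Q θ X' := ⟨hQ, hθ, inv, hX'm, fun l j x hx => hagree l j x hx.1⟩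
  have hμ : 0 < μ.real X' := by
    rw [measureReal_def]
    exact ENNReal.toReal_pos hγX (measure_ne_top _ _)
  set ε : ℝ := γ ^ 3 * μ.real X' / 45 with hε
  have hε0 : 0 < ε := by positivity
  have hε1 : 44 * ε < γ ^ 3 * μ.real X' := by
    have : 0 < γ ^ 3 * μ.real X' := by positivity
    rw [hε]; linarith
  choose p hpm hp0 hp1 hpb hpAP using fun l => hAPL l ε hε0
  obtain ⟨q, K, ρ, hq, hρ, hU⟩ := hUNI Ω μ Q θ p ε fun l =>
    f_APX Ω μ (Q l) (hQ l) (θ l) (hθ l) (inv l) ε (p l) (hpAP l ε hε0)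
  obtain ⟨m, hm, hmε⟩ := CRG_.exists_m K ρ ε hρ hε0
  have hmain := hMA3 Ω μ Q θ X' hAdm' A hA (fun x hx => hXA hx.1) b r g hbm hrm hgm hb hbr hr1
    hg1 hone γ hγ (fun x hx l => hx.2 l) q m K ε hq hm hε0
    (fun l => hCTX Ω μ Q Q' θ X' hAdm' hQ' hl hr l q m K ρ ε hq hm hρ hε0 hmε (b l) (p l)
      (hbm l) (fun x => (hb l x).1) (fun x => (hb l x).2) (hpm l) (hp0 l) (hp1 l) (hpb l) (hU l))
    (hWAV Ω μ Q θ X' hAdm' q m K hq hm ε hε0)
    (fun f hf hf1 l hfl => hGTF Ω μ Q Q' θ X' hAdm' hQ' hl hr q m K hq hm f hf hf1 l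
      (by rw [hfl]; exact hRWM l) ε hε0)
    ?_ hε1
  · obtain ⟨N, hN, a, ha, b', hb', c, hc, hne⟩ := hmain
    set y : Fin 3 → ℕ := ![N + a, b', 3 * N + c] with hy
    have t0 : tm 0 y = 2 * (3 * N + c) - b' := rfl
    have t1 : tm 1 y = (N + a) + (3 * N + c) := rfl
    have t2 : tm 2 y = 2 * (N + a) + b' := rfl
    refine ⟨tm 2 y, 2 * N + c - a - b', by omega, by omega, fun hz => hne ?_⟩
    refine measure_mono_null ?_ hz
    have e1 : tm 2 y + (2 * N + c - a - b') = tm 1 y := by omega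
    have e2 : tm 2 y + 2 * (2 * N + c - a - b') = tm 0 y := by omega
    rw [e1, e2]
    rintro x ⟨hxA, hx⟩
    exact ⟨hxA, hx 2, hx 1, hx 0⟩
  · intro f hf l hfl
    have hfm : ∀ l', Measurable (f l') := by
      intro l'
      rcases hf l' with h | h | h
      · rw [h]; exact hbm l'
      · rw [h]; exact hrm l'
      · rw [h]; exact (hbm l').add (hrm l')
    have hf1 : ∀ l' x, |f l' x| ≤ 1 := by
      intro l' x
      rcases hf l' with h | h | h
      · rw [h, abs_le]; exact ⟨by linarith [(hb l' x).1], (hb l' x).2⟩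
      · rw [h]; exact hr1 l' x
      · rw [h, abs_le]; exact ⟨by linarith [(hbr l' x).1], (hbr l' x).2⟩
    have hAny : ∀ l', InS μ (Q l') Any (f l') := by
      intro l'
      rcases hf l' with h | h | h
      · rw [h]; exact hIb l'
      · rw [h]; exact CRG_.inS_any (hIr l')
      · rw [h]; exact hIbr l'
    let P : Fin 3 → (Ω → ℂ) → (Ω → Circle) → Prop :=
      fun l' => if l' = l then NR μ (θ l) else Any
    refine hRTM Ω μ Q θ X' hAdm' q m K hq hm P f hfm hf1 ?_ ?_ ε hε0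
    · intro l'
      by_cases h : l' = l
      · subst h
        have hP : P l' = NR μ (θ l') := if_pos rfl
        rw [hP, hfl]
        exact hIr l'
      · have hP : P l' = Any := if_neg h
        rw [hP]
        exact hAny l'
    · intro v lam hG hPl
      have hN : NR μ (θ l) (v l) (lam l) := by
        have h := hPl l
        have hP : P l = NR μ (θ l) := if_pos rfl
        rw [hP] at h
        exact h
      filter_upwards [hMax v lam hG, hN] with x hx hxN hxX hv hres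
      exact hxN (hv l) (CRG_.relN_congr (fun j => (hagree l j x hxX.1).symm)
        (hx hxX.1 hv hres l))

end Pool.Agent.CRk
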