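import Pool.Agent.CRk.Targets

set_option autoImplicit false

/-!
# CRk: CTM, the variation for a pair of variables
-/

open MeasureTheory Filter Topology Finset

namespace Pool.Agent.CRk

open Pool.Agent.FSP Pool.Agent.Ind3

universe u

namespace CTM_

variable {Ω : Type u}

theorem inv_of_right {Q Q' : Ω → Ω} (h : ∀ x, Q (Q' x) = x) {θ : ℕ → Ω → Circle}
    (hθ : ∀ j x, θ j (Q x) = θ j x) (j : ℕ) (x : Ω) : θ j (Q' x) = θ j x := by
  have := hθ j (Q' x)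
  rw [h] at this
  exact this.symm

theorem iter_inv {Q : Ω → Ω} {θ : ℕ → Ω → Circle}
    (hθ : ∀ j x, θ j (Q x) = θ j x) (j : ℕ) (n : ℕ) (x : Ω) : θ j (Q^[n] x) = θ j x := by
  induction n generalizing x with
  | zero => rfl
  | succ n ih => rw [Function.iterate_succ_apply, ih, hθ]

theorem two_iter (Q : Ω → Ω) (n : ℕ) (x : Ω) : (Q ∘ Q)^[n] x = Q^[n + n] x := by
  induction n generalizing x with
  | zero => rfl
  | succ n ih =>
    rw [Function.iterate_succ_apply, ih, show n + 1 + (n + 1) = (n + n) + 1 + 1 by ring,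
      Function.iterate_succ_apply, Function.iterate_succ_apply]
    rfl

/-- the sets of good times -/
def EE (q K : ℕ) (θ : ℕ → Ω → Circle) (ρ : ℝ) (n : ℕ) : Set Ω :=
  {x | q ∣ n ∧ x ∈ bohr (fun i : Fin K => θ i) ρ (n / q)}

theorem EE_inv {q K : ℕ} {θ : ℕ → Ω → Circle} {ρ : ℝ} {P : Ω → Ω}
    (hP : ∀ j x, θ j (P x) = θ j x) (n : ℕ) (x : Ω) :
    P x ∈ EE q K θ ρ n ↔ x ∈ EE q K θ ρ n := by
  simp only [EE, bohr, Set.mem_ofPred_eq, hP]

theorem EE_small {q K : ℕ} {θ : ℕ → Ω → Circle} {ρ : ℝ} {n : ℕ} {x : Ω}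
    (h : x ∈ EE q K θ ρ n) : n = q * (n / q) ∧ ∀ j < K, ‖(θ j x : ℂ) ^ (n / q) - 1‖ ≤ ρ := by
  obtain ⟨h1, h2⟩ := h
  refine ⟨(Nat.mul_div_cancel' h1).symm, ?_⟩
  intro j hj
  exact h2 ⟨j, hj⟩

variable [MeasurableSpace Ω]

theorem meas_EE {q K : ℕ} {θ : ℕ → Ω → Circle} (hθ : ∀ j, Measurable (θ j)) (ρ : ℝ) (n : ℕ) :
    MeasurableSet (EE q K θ ρ n) := by
  by_cases hq : q ∣ n
  · have e : EE q K θ ρ n =
        ⋂ l : Fin K, {x | ‖(θ l x : ℂ) ^ (n / q) - 1‖ ≤ ρ} := by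
      ext x
      simp only [EE, bohr, Set.mem_ofPred_eq, Set.mem_iInter]
      exact ⟨fun h => h.2, fun h => ⟨hq, h⟩⟩
    rw [e]
    refine MeasurableSet.iInter fun l => ?_
    refine measurableSet_le ?_ measurable_const
    have h0 : Continuous (fun z : Circle => (z : ℂ)) := continuous_induced_dom
    have h1 : Measurable (fun x => ((θ l x : Circle) : ℂ)) := h0.measurable.comp (hθ l)
    exact ((h1.pow_const _).sub_const _).norm
  · have e : EE q K θ ρ n = ∅ := by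
      ext x
      simp only [EE, Set.mem_ofPred_eq, Set.mem_empty_iff_false, iff_false]
      exact fun h => hq h.1
    rw [e]
    exact MeasurableSet.empty

omit [MeasurableSpace Ω] in
theorem w_off {q m K : ℕ} {θ : ℕ → Ω → Circle} {ρ : ℝ} (x : Ω) (n : ℕ) :
    wt q m K θ x n * one (EE q K θ ρ n)ᶜ x =
      nw q m (fun i : Fin K => θ i) x n *
        one {y | y ∉ bohr (fun i : Fin K => θ i) ρ (n / q)} x := by
  unfold wt
  by_cases hq : q ∣ n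
  · congr 2
    ext y
    simp only [EE, Set.mem_compl_iff, Set.mem_ofPred_eq, hq, true_and]
  · have h0 : nw q m (fun i : Fin K => θ i) x n = 0 := by
      unfold nw
      rw [if_neg hq]
    rw [h0, zero_mul, zero_mul]

end CTM_

open CTM_ in
/-- CTM -/
theorem p_CTM : T_CTM.{u} := by
  intro Ω _ μ _ Q Q' B P hQ hQ' hl hr hBP θ hθm hθ q m K ρ ε hq hm hρ hε hK c p hc hc0 hc1 hp
    hp0 hp1 hcp hae
  have hθ' : ∀ j x, θ j (Q' x) = θ j x := inv_of_right hr hθ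
  have hQQ : MeasurePreserving (Q ∘ Q) μ μ := hQ.comp hQ
  have hθQQ : ∀ j x, θ j ((Q ∘ Q) x) = θ j x := fun j x => by
    rw [Function.comp_apply, hθ, hθ]
  -- the properties of `B` and `P`
  have hB : MeasurePreserving B μ μ ∧ ∀ j x, θ j (B x) = θ j x := by
    rcases hBP with ⟨h1, -⟩ | ⟨h1, -⟩ | ⟨h1, -⟩
    · rw [h1]; exact ⟨hQ, hθ⟩
    · rw [h1]; exact ⟨hQQ, hθQQ⟩
    · rw [h1]; exact ⟨hQQ, hθQQ⟩
  have hP : MeasurePreserving P μ μ ∧ ∀ j x, θ j (P x) = θ j x := by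
    rcases hBP with ⟨-, h1⟩ | ⟨-, h1⟩ | ⟨-, h1⟩
    · rw [h1]; exact ⟨hQ, hθ⟩
    · rw [h1]; exact ⟨hQ', hθ'⟩
    · rw [h1]; exact ⟨hQ, hθ⟩
  have hcomm : ∀ x, B (P x) = P (B x) := by
    intro x
    rcases hBP with ⟨h1, h2⟩ | ⟨h1, h2⟩ | ⟨h1, h2⟩
    · rw [h1, h2]
    · rw [h1, h2]
      simp only [Function.comp_apply, hl, hr]
    · rw [h1, h2]; rfl
  -- variation of `p`
  have v1 : ∀ n, ∀ᵐ x ∂μ, x ∈ EE q K θ ρ n → |p (Q^[n] x) - p x| ≤ ε := by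
    intro n
    filter_upwards [hae] with x hx hE
    obtain ⟨h1, h2⟩ := EE_small hE
    have h3 := hx 0 (n / q) h2
    rw [← h1, zero_add] at h3
    exact h3
  have v2 : ∀ n, ∀ᵐ x ∂μ, x ∈ EE q K θ ρ n → |p ((Q ∘ Q)^[n] x) - p x| ≤ 2 * ε := by
    intro n
    filter_upwards [hae, v1 n] with x hx h0 hE
    obtain ⟨h1, h2⟩ := EE_small hE
    have h3 := hx n (n / q) h2
    rw [← h1] at h3
    rw [two_iter]
    have h4 := h0 hE
    calc |p (Q^[n + n] x) - p x| = |(p (Q^[n + n] x) - p (Q^[n] x)) + (p (Q^[n] x) - p x)| := by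
          congr 1; ring
      _ ≤ |p (Q^[n + n] x) - p (Q^[n] x)| + |p (Q^[n] x) - p x| := abs_add_le _ _
      _ ≤ ε + ε := add_le_add h3 h4
      _ = 2 * ε := by ring
  have v3 : ∀ n, ∀ᵐ x ∂μ, x ∈ EE q K θ ρ n → |p (Q'^[n] x) - p x| ≤ ε := by
    intro n
    have h0 := (hQ'.iterate n).quasiMeasurePreserving.ae (v1 n)
    filter_upwards [h0] with x hx hE
    have h1 : Q'^[n] x ∈ EE q K θ ρ n := by
      have h2 : ∀ j x, θ j (Q'^[n] x) = θ j x := fun j x => iter_inv hθ' j n x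
      exact (EE_inv h2 n x).2 hE
    have h3 := hx h1
    have h4 : Q^[n] (Q'^[n] x) = x := by
      have : Function.LeftInverse Q Q' := hr
      exact (this.iterate n) x
    rw [h4, abs_sub_comm] at h3
    exact h3
  have v4 : ∀ n, ∀ᵐ x ∂μ, x ∈ EE q K θ ρ n →
      |p (B^[n] x) - p x| ≤ 2 * ε ∧ |p (P^[n] x) - p x| ≤ 2 * ε := by
    intro n
    filter_upwards [v1 n, v2 n, v3 n] with x h1 h2 h3 hE
    have h1' := h1 hE
    have h2' := h2 hE
    have h3' := h3 hE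
    rcases hBP with ⟨g1, g2⟩ | ⟨g1, g2⟩ | ⟨g1, g2⟩
    · rw [g1, g2]; exact ⟨by linarith, by linarith⟩
    · rw [g1, g2]; exact ⟨by linarith, by linarith⟩
    · rw [g1, g2]; exact ⟨by linarith, by linarith⟩
  -- the weights
  obtain ⟨n1, n2, -, -, -, n6⟩ := f_NWA Ω q m K (fun i : Fin K => θ i) hq hm (fun l => hθm l)
  have hmono : ∀ ε' : ℝ, 0 < ε' → ∃ N₀ : ℕ, ∀ N ≥ N₀, q ∣ N → ∀ s : ℕ,
      ∫ x, |wm (wt q m K θ) N s x - 1| ∂μ ≤ ε' :=
    f_NWB Ω μ q m K (fun i : Fin K => θ i) hq hm (fun l => hθm l)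
  obtain ⟨N₀, hN₀⟩ := f_NWC Ω μ q m K (fun i : Fin K => θ i) hq hm (fun l => hθm l) ρ hρ ε hε
  have hoff : ∃ N₀ : ℕ, ∀ N ≥ N₀, q ∣ N → ∀ s : ℕ,
      ∫ x, wm (fun x n => wt q m K θ x n * one (EE q K θ ρ n)ᶜ x) N s x ∂μ ≤ 2 * ε := by
    refine ⟨N₀, fun N hN hqN s => ?_⟩
    have h1 := hN₀ N hN hqN s
    have e : (fun x n => wt q m K θ x n * one (EE q K θ ρ n)ᶜ x) =
        fun x n => nw q m (fun i : Fin K => θ i) x n *
          one {y | y ∉ bohr (fun i : Fin K => θ i) ρ (n / q)} x := by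
      funext x n
      exact w_off x n
    rw [e]
    linarith
  exact p_CTH Ω μ B P hB.1 hP.1 hcomm c p hc hc0 hc1 hp hp0 hp1 (wt q m K θ)
    (q * (m : ℝ) ^ K) (fun n => n2 n) (fun x n => (n1 x n).1) (fun x n => (n1 x n).2)
    (fun x n => n6 B x n (fun l => hB.2 l x)) (fun x n => n6 P x n (fun l => hP.2 l x))
    (EE q K θ ρ) (fun n => meas_EE hθm ρ n) (fun n x => EE_inv hP.2 n x) q ε hq hε hcp v4 hmono
    hoff

end Pool.Agent.CRk
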