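import Pool.Agent.CRk.Targets

/-!
# CRk: the variation of `c` for the triples (CTX)
-/

set_option autoImplicit false

open MeasureTheory Filter Topology Finset

namespace Pool.Agent.CRk

open Pool.Agent.FSP Pool.Agent.Ind3

universe u

namespace CTX_

open Pool.Agent.Ind3.GTW_

theorem wt_congr {Ω : Type u} [MeasurableSpace Ω] (q m K : ℕ) (θ θ' : ℕ → Ω → Circle) (x : Ω)
    (n : ℕ) (h : ∀ j, θ j x = θ' j x) : wt q m K θ x n = wt q m K θ' x n := by
  unfold wt nw
  have hk : kw m (fun i : Fin K => θ i) x (n / q) = kw m (fun i : Fin K => θ' i) x (n / q) := by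
    unfold kw
    exact prod_congr rfl fun l _ => by simp only [h]
  have hu : ku m (fun i : Fin K => θ i) x = ku m (fun i : Fin K => θ' i) x := by
    unfold ku tu
    refine sum_congr rfl fun p _ => ?_
    congr 1
    have hc : chr (fun i : Fin K => θ i) p x = chr (fun i : Fin K => θ' i) p x := by
      simp only [chr, h]
    unfold one
    by_cases h1 : chr (fun i : Fin K => θ i) p x = 1
    · rw [Set.indicator_of_mem (show x ∈ {y | chr (fun i : Fin K => θ i) p y = 1} from h1),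
        Set.indicator_of_mem (show x ∈ {y | chr (fun i : Fin K => θ' i) p y = 1} from
          hc.symm.trans h1)]
    · rw [Set.indicator_of_notMem (show x ∉ {y | chr (fun i : Fin K => θ i) p y = 1} from h1),
        Set.indicator_of_notMem (show x ∉ {y | chr (fun i : Fin K => θ' i) p y = 1} from
          fun h2 => h1 (hc.trans h2))]
  rw [hk, hu]

theorem avg3_congr {N : ℕ} {F G : (Fin 3 → ℕ) → ℝ}
    (h : ∀ y : Fin 3 → ℕ, y 1 ≤ 2 * y 2 → F y = G y) : avg3 N F = avg3 N G := by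
  unfold avg3
  refine mean_congr fun a _ _ => mean_congr fun b hb hb' => mean_congr fun c hc hc' => h _ ?_
  simp only [Matrix.cons_val_one, Matrix.cons_val_zero, Matrix.cons_val]
  omega

theorem avg3_nonneg {N : ℕ} {F : (Fin 3 → ℕ) → ℝ} (h : ∀ y : Fin 3 → ℕ, 0 ≤ F y) :
    0 ≤ avg3 N F := by
  unfold avg3 mean
  refine mul_nonneg (by positivity) (sum_nonneg fun a _ => mul_nonneg (by positivity)
    (sum_nonneg fun b _ => mul_nonneg (by positivity) (sum_nonneg fun c _ => h _)))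

theorem core {Ω : Type u} [MeasurableSpace Ω] (μ : Measure Ω) [IsProbabilityMeasure μ]
    (Q B P : Ω → Ω) (hB : Measurable B) (hP : Measurable P) (θ : ℕ → Ω → Circle)
    (hθ : ∀ j, Measurable (θ j)) (l i j : Fin 3) (h1 : l ≠ j) (h2 : l ≠ i) (h3 : j ≠ i)
    (hid : ∀ y : Fin 3 → ℕ, y 1 ≤ 2 * y 2 → ∀ x, Q^[tm l y] x = B^[y i] (P^[y j] x))
    (q m K : ℕ) (ε : ℝ) (hq : 1 ≤ q) (hm : 1 ≤ m) (hε : 0 < ε) (c : Ω → ℝ)
    (hc : Measurable c) (hc0 : ∀ x, 0 ≤ c x) (hc1 : ∀ x, c x ≤ 1)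
    (hD : ∃ N₀ : ℕ, ∀ N ≥ N₀, q ∣ N → ∀ s s' : ℕ,
      ∫ x, mean N s' (fun j => mean N s fun i => (wt q m K θ x i * wt q m K θ x j) *
        |c (B^[i] (P^[j] x)) - c x|) ∂μ ≤ 11 * ε) :
    ∃ N₀ : ℕ, ∀ N ≥ N₀, q ∣ N →
      Integrable (fun x => avg3 N (fun y => w3 q m K θ x y * |c (Q^[tm l y] x) - c x|)) μ ∧
      ∫ x, avg3 N (fun y => w3 q m K θ x y * |c (Q^[tm l y] x) - c x|) ∂μ ≤ 12 * ε := by
  obtain ⟨hw, hwm, -⟩ := f_NWA Ω q m K (fun i : Fin K => θ i) hq hm (fun i => hθ i)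
  set W : ℝ := q * (m : ℝ) ^ K with hW
  have hW0 : 0 ≤ W := by positivity
  have hw0 : ∀ x n, 0 ≤ wt q m K θ x n := fun x n => (hw x n).1
  have hw1 : ∀ x n, wt q m K θ x n ≤ W := fun x n => (hw x n).2
  have hwt : ∀ n, Measurable fun x => wt q m K θ x n := fun n => hwm n
  obtain ⟨N₁, hN₁⟩ := hD
  obtain ⟨N₂, hN₂⟩ := f_NWB Ω μ q m K (fun i : Fin K => θ i) hq hm (fun i => hθ i)
    (ε / (W ^ 2 + 1)) (by positivity)
  refine ⟨max N₁ N₂, fun N hN hqN => ?_⟩
  set D : Ω → ℝ := fun x => mean N (off j * N) (fun b => mean N (off i * N) fun a =>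
    (wt q m K θ x a * wt q m K θ x b) * |c (B^[a] (P^[b] x)) - c x|) with hDdef
  set A : Ω → ℝ := fun x => wm (fun x n => wt q m K θ x n) N (off l * N) x with hA
  have key : ∀ x, avg3 N (fun y => w3 q m K θ x y * |c (Q^[tm l y] x) - c x|) = A x * D x := by
    intro x
    have e1 : avg3 N (fun y => w3 q m K θ x y * |c (Q^[tm l y] x) - c x|) =
        avg3 N (fun y => wt q m K θ x (y l) * ((wt q m K θ x (y i) * wt q m K θ x (y j)) *
          |c (B^[y i] (P^[y j] x)) - c x|)) := by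
      refine avg3_congr fun y hy => ?_
      rw [hid y hy x]
      have e := prod_three l j i h1 h2 h3 (fun r => wt q m K θ x (y r))
      rw [Fin.prod_univ_three] at e
      unfold w3
      rw [e]
      ring
    rw [e1, f_ORD N _ l j i h1 h2 h3]
    have e2 : (mean N (off l * N) fun a => mean N (off j * N) fun b =>
        mean N (off i * N) fun c' => wt q m K θ x a * ((wt q m K θ x c' * wt q m K θ x b) *
          |c (B^[c'] (P^[b] x)) - c x|)) = A x * D x := by
      simp only [mean_mul]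
      have e3 : (mean N (off l * N) fun a => wt q m K θ x a * D x) = A x * D x := by
        have e4 : (mean N (off l * N) fun a => wt q m K θ x a * D x) =
            mean N (off l * N) fun a => D x * wt q m K θ x a := by
          exact mean_congr fun a _ _ => mul_comm _ _
        rw [e4, mean_mul, mul_comm]
        rfl
      exact e3
    rw [← e2]
    simp only [if_true, if_neg h1.symm, if_neg h2.symm, if_neg h3.symm]
  have hDm : Measurable D := by
    refine mean_meas fun b => mean_meas fun a => ?_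
    refine ((hwt a).mul (hwt b)).mul ?_
    exact ((hc.comp ((hB.iterate a).comp (hP.iterate b))).sub hc).abs
  have hAm : Measurable A := by
    refine Measurable.const_mul ?_ _
    exact Finset.measurable_sum _ fun n _ => hwt _
  have hD0 : ∀ x, 0 ≤ D x := fun x => by
    simp only [hDdef, mean]
    refine mul_nonneg (by positivity) (sum_nonneg fun b _ => mul_nonneg (by positivity)
      (sum_nonneg fun a _ => mul_nonneg (mul_nonneg (hw0 _ _) (hw0 _ _)) (abs_nonneg _)))
  have hD1 : ∀ x, D x ≤ W ^ 2 := fun x => by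
    refine mean_le (by positivity) fun b => mean_le (by positivity) fun a => ?_
    have hcc : |c (B^[a] (P^[b] x)) - c x| ≤ 1 := by
      rw [abs_le]
      constructor
      · linarith [hc0 (B^[a] (P^[b] x)), hc1 x]
      · linarith [hc1 (B^[a] (P^[b] x)), hc0 x]
    calc (wt q m K θ x a * wt q m K θ x b) * |c (B^[a] (P^[b] x)) - c x| ≤ (W * W) * 1 :=
          mul_le_mul (mul_le_mul (hw1 _ _) (hw1 _ _) (hw0 _ _) hW0) hcc (abs_nonneg _)
            (mul_nonneg hW0 hW0)
      _ = W ^ 2 := by ring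
  have hA0 : ∀ x, 0 ≤ A x := fun x => by
    simp only [hA, wm]
    exact mul_nonneg (by positivity) (sum_nonneg fun n _ => hw0 _ _)
  have hA1 : ∀ x, A x ≤ W := fun x => by
    have e : A x = mean N (off l * N) fun n => wt q m K θ x n := rfl
    rw [e]
    exact mean_le hW0 fun n => hw1 _ _
  have hDi : Integrable D μ := by
    refine Integrable.of_bound hDm.aestronglyMeasurable (W ^ 2) (Eventually.of_forall fun x => ?_)
    rw [Real.norm_eq_abs, abs_of_nonneg (hD0 x)]
    exact hD1 x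
  have hAi : Integrable (fun x => |A x - 1|) μ := by
    refine Integrable.of_bound (hAm.sub_const 1).abs.aestronglyMeasurable (W + 1)
      (Eventually.of_forall fun x => ?_)
    rw [Real.norm_eq_abs, abs_abs, abs_le]
    constructor
    · linarith [hA0 x]
    · linarith [hA1 x]
  have hADi : Integrable (fun x => A x * D x) μ := by
    refine Integrable.of_bound (hAm.mul hDm).aestronglyMeasurable (W * W ^ 2)
      (Eventually.of_forall fun x => ?_)
    rw [Real.norm_eq_abs, abs_of_nonneg (mul_nonneg (hA0 x) (hD0 x))]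
    exact mul_le_mul (hA1 x) (hD1 x) (hD0 x) hW0
  have hfun : (fun x => avg3 N (fun y => w3 q m K θ x y * |c (Q^[tm l y] x) - c x|)) =
      fun x => A x * D x := funext key
  rw [hfun]
  refine ⟨hADi, ?_⟩
  have hb1 : ∫ x, D x ∂μ ≤ 11 * ε := hN₁ N (le_trans (le_max_left _ _) hN) hqN _ _
  have hb2 : ∫ x, |A x - 1| ∂μ ≤ ε / (W ^ 2 + 1) :=
    hN₂ N (le_trans (le_max_right _ _) hN) hqN _
  have hle : ∫ x, A x * D x ∂μ ≤ ∫ x, (D x + W ^ 2 * |A x - 1|) ∂μ := by
    refine integral_mono hADi (hDi.add (hAi.const_mul _)) fun x => ?_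
    have t1 : (A x - 1) * D x ≤ |A x - 1| * W ^ 2 :=
      (mul_le_mul_of_nonneg_right (le_abs_self _) (hD0 x)).trans
        (mul_le_mul_of_nonneg_left (hD1 x) (abs_nonneg _))
    have t2 : A x * D x = D x + (A x - 1) * D x := by ring
    simp only
    rw [t2]
    linarith
  have hint : ∫ x, (D x + W ^ 2 * |A x - 1|) ∂μ = ∫ x, D x ∂μ + W ^ 2 * ∫ x, |A x - 1| ∂μ := by
    rw [integral_add hDi (hAi.const_mul _), integral_const_mul]
  have hlast : W ^ 2 * (ε / (W ^ 2 + 1)) ≤ ε := by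
    rw [mul_div_assoc', div_le_iff₀ (by positivity)]
    nlinarith [sq_nonneg W]
  have h5 : W ^ 2 * ∫ x, |A x - 1| ∂μ ≤ W ^ 2 * (ε / (W ^ 2 + 1)) :=
    mul_le_mul_of_nonneg_left hb2 (by positivity)
  linarith

end CTX_

open CTX_ in
theorem p_CTX : T_CTM.{u} → T_CTX.{u} := by
  intro hCTM Ω _ μ _ Q Q' θ X hAdm hQ' hQ'Q hQQ' l q m K ρ ε hq hm hρ hε hK c p hc hc0 hc1 hp hp0
    hp1 hcp hap
  obtain ⟨hQ, hθ, hθQ, hX, hθX⟩ := hAdm
  have main : ∃ N₀ : ℕ, ∀ N ≥ N₀, q ∣ N →
      Integrable (fun x => avg3 N (fun y => w3 q m K (θ l) x y *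
        |c ((Q l)^[tm l y] x) - c x|)) μ ∧
      ∫ x, avg3 N (fun y => w3 q m K (θ l) x y * |c ((Q l)^[tm l y] x) - c x|) ∂μ ≤ 12 * ε := by
    have hC := fun B P h => hCTM Ω μ (Q l) (Q' l) B P (hQ l) (hQ' l) (hQ'Q l) (hQQ' l) h (θ l)
      (hθ l) (hθQ l) q m K ρ ε hq hm hρ hε hK c p hc hc0 hc1 hp hp0 hp1 hcp hap
    have hit : ∀ (n : ℕ) (x : Ω), (Q l ∘ Q l)^[n] x = (Q l)^[2 * n] x := by
      intro n x
      have e : (Q l ∘ Q l) = (Q l)^[2] := rfl
      rw [e, ← Function.iterate_mul]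
    have hinv : ∀ (n : ℕ) (x : Ω), (Q l)^[n] ((Q' l)^[n] x) = x := by
      intro n x
      exact (Function.LeftInverse.iterate (show Function.LeftInverse (Q l) (Q' l) from hQQ' l) n) x
    have hl : ∀ r : Fin 3, r = 0 ∨ r = 1 ∨ r = 2 := by decide
    rcases hl l with rfl | rfl | rfl
    · refine core μ (Q 0) (Q 0 ∘ Q 0) (Q' 0) ((hQ 0).measurable.comp (hQ 0).measurable)
        (hQ' 0).measurable (θ 0) (hθ 0) 0 2 1 (by decide) (by decide) (by decide) ?_ q m K ε hq hm
        hε c hc hc0 hc1 (hC _ _ (Or.inr (Or.inl ⟨rfl, rfl⟩)))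
      intro y hy x
      rw [hit]
      have e : 2 * y 2 = tm 0 y + y 1 := by
        simp only [tm, Matrix.cons_val_zero]
        omega
      rw [e, Function.iterate_add_apply, hinv]
    · refine core μ (Q 1) (Q 1) (Q 1) (hQ 1).measurable (hQ 1).measurable (θ 1) (hθ 1) 1 0 2
        (by decide) (by decide) (by decide) ?_ q m K ε hq hm
        hε c hc hc0 hc1 (hC _ _ (Or.inl ⟨rfl, rfl⟩))
      intro y hy x
      rw [← Function.iterate_add_apply]
      rfl
    · refine core μ (Q 2) (Q 2 ∘ Q 2) (Q 2) ((hQ 2).measurable.comp (hQ 2).measurable)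
        (hQ 2).measurable (θ 2) (hθ 2) 2 0 1 (by decide) (by decide) (by decide) ?_ q m K ε hq hm
        hε c hc hc0 hc1 (hC _ _ (Or.inr (Or.inr ⟨rfl, rfl⟩)))
      intro y hy x
      rw [hit, ← Function.iterate_add_apply]
      rfl
  obtain ⟨N₀, hN₀⟩ := main
  refine ⟨N₀, fun N hN hqN => ?_⟩
  obtain ⟨hi, hb⟩ := hN₀ N hN hqN
  obtain ⟨hw, -⟩ := f_NWA Ω q m K (fun i : Fin K => θ l i) hq hm (fun i => hθ l i)
  have e1 : ∫ x in X, avg3 N (fun y => w3 q m K (θ 0) x y * |c ((Q l)^[tm l y] x) - c x|) ∂μ =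
      ∫ x in X, avg3 N (fun y => w3 q m K (θ l) x y * |c ((Q l)^[tm l y] x) - c x|) ∂μ := by
    refine setIntegral_congr_fun hX fun x hx => ?_
    have e : ∀ n, wt q m K (θ 0) x n = wt q m K (θ l) x n := fun n =>
      wt_congr q m K (θ 0) (θ l) x n fun j => (hθX l j x hx).symm
    simp only [w3, e]
  rw [e1]
  refine le_trans (setIntegral_le_integral hi (Eventually.of_forall fun x => ?_)) hb
  refine avg3_nonneg fun y => mul_nonneg ?_ (abs_nonneg _)
  exact mul_nonneg (mul_nonneg (hw x _).1 (hw x _).1) (hw x _).1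

end Pool.Agent.CRk
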