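import Pool.Agent.CRk.Targets

/-!
# CRk: two nested decompositions (target DC2)
-/

set_option autoImplicit false

open MeasureTheory Filter Topology Finset

namespace Pool.Agent.CRk

open Pool.Agent.FSP Pool.Agent.Ind3

universe u

namespace DC2_

lemma ap_mono {Ω : Type u} [MeasurableSpace Ω] {μ : Measure Ω} {T : Ω → Ω}
    {F F' : Set (Ω → Circle)} (hF : F ⊆ F') {ε : ℝ} {p : Ω → ℝ} (h : AP μ T F ε p) :
    AP μ T F' ε p := by
  obtain ⟨q, hq, ρ, hρ, d, τ, hτ, hn⟩ := h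
  exact ⟨q, hq, ρ, hρ, d, τ, fun l => hF (hτ l), hn⟩

lemma ff_sub {Ω : Type u} [MeasurableSpace Ω] {Q : Ω → Ω} {θ : ℕ → Ω → Circle}
    (h1 : ∀ j, Measurable (θ j)) (h2 : ∀ j x, θ j (Q x) = θ j x) : FF θ ⊆ FA Q := by
  rintro φ (⟨j, rfl⟩ | h)
  · exact ⟨h1 j, h2 j⟩
  · rw [Set.mem_singleton_iff] at h
    subst h
    exact ⟨measurable_const, fun _ => rfl⟩

lemma integrable_mul {Ω : Type u} [MeasurableSpace Ω] {μ : Measure Ω} [IsProbabilityMeasure μ]
    {g v : Ω → ℝ} (hg : Measurable g) (hg1 : ∀ x, |g x| ≤ 1) (hv : Measurable v) {K : ℝ}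
    (hK : ∀ x, |v x| ≤ K) : Integrable (fun x => g x * v x) μ := by
  refine Integrable.of_bound (C := K) (hg.mul hv).aestronglyMeasurable
    (Eventually.of_forall fun x => ?_)
  rw [Real.norm_eq_abs, abs_mul]
  calc |g x| * |v x| ≤ 1 * K := mul_le_mul (hg1 x) (hK x) (abs_nonneg _) zero_le_one
    _ = K := one_mul K

end DC2_

theorem p_DC2 : T_OAG.{u} → T_DC2.{u} := by
  intro hOAG Ω _ μ _ Q hQ θ hθm hθi A hA
  have hsub := DC2_.ff_sub (Q := Q) hθm hθi
  obtain ⟨c, g, hc, hg, hc0, hc1, hg1, hcg, hcap, hgo, hcpos⟩ :=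
    f_DCP Ω μ Q hQ (FA Q) (fun φ hφ => hφ) A hA
  obtain ⟨b, g', hb, hg', hb0, hb1, hg1', hbg, hbap, hgo', hbpos⟩ :=
    f_DCP Ω μ Q hQ (FF θ) (fun φ hφ => hsub hφ) A hA
  refine ⟨b, fun x => c x - b x, g, hb, hc.sub hb, hg, fun x => ⟨hb0 x, hb1 x⟩, fun x => ?_,
    fun x => ?_, hg1, fun x => ?_, hbap, ?_, ?_, hOAG Ω μ Q hQ g hg hg1 hgo, hbpos⟩
  · have h1 := hc0 x
    have h2 := hc1 x
    constructor <;> linarith
  · have h1 := hc0 x
    have h2 := hc1 x
    have h3 := hb0 x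
    have h4 := hb1 x
    show |c x - b x| ≤ 1
    rw [abs_le]
    constructor <;> linarith
  · show one A x = b x + (c x - b x) + g x
    rw [hcg x]
    ring
  · have h1 : (fun x => b x + (fun x => c x - b x) x) = c := by
      funext x
      show b x + (c x - b x) = c x
      ring
    rw [h1]
    exact hcap
  · intro v hv hK hvZ hvap
    obtain ⟨K, hK⟩ := hK
    have h1 : ∫ x, g' x * v x ∂μ = 0 := hgo' v hv ⟨K, hK⟩ hvZ hvap
    have h2 : ∫ x, g x * v x ∂μ = 0 :=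
      hgo v hv ⟨K, hK⟩ hvZ fun ε hε => DC2_.ap_mono hsub (hvap ε hε)
    have h3 : (fun x => (c x - b x) * v x) = fun x => g' x * v x - g x * v x := by
      funext x
      have h4 := hcg x
      have h5 := hbg x
      have h6 : c x - b x = g' x - g x := by linarith
      rw [h6]
      ring
    show ∫ x, (c x - b x) * v x ∂μ = 0
    rw [h3, integral_sub (DC2_.integrable_mul hg' hg1' hv hK) (DC2_.integrable_mul hg hg1 hv hK),
      h1, h2, sub_zero]

end Pool.Agent.CRk
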