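import Pool.Agent.CRk.Targets

set_option autoImplicit false

/-!
# CRk, target DCL: the decomposition for one map
-/

open MeasureTheory Filter Topology Finset

namespace Pool.Agent.CRk

open Pool.Agent.FSP Pool.Agent.Ind3

universe u

namespace DCL_

variable {Ω : Type u} [MeasurableSpace Ω]

theorem int_sq {μ : Measure Ω} [IsProbabilityMeasure μ] {f : Ω → ℝ} (hf : Measurable f) {M : ℝ}
    (hM : ∀ x, |f x| ≤ M) {ι : Type} [Fintype ι] {v : ι → Ω → ℂ} (hv : ∀ i, Measurable (v i))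
    {K : ℝ} (hK : ∀ i x, ‖v i x‖ ≤ K) :
    Integrable (fun x => ‖(f x : ℂ) - ∑ i, v i x‖ ^ 2) μ := by
  have hm : Measurable (fun x => ‖(f x : ℂ) - ∑ i, v i x‖ ^ 2) := by
    have h1 : Measurable (fun x => ∑ i, v i x) :=
      Finset.measurable_sum _ fun i _ => hv i
    exact ((Complex.measurable_ofReal.comp hf).sub h1).norm.pow_const 2
  refine Integrable.of_bound hm.aestronglyMeasurable
    ((M + ∑ _i : ι, K) ^ 2) (Eventually.of_forall fun x => ?_)
  rw [Real.norm_eq_abs, abs_of_nonneg (by positivity)]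
  have h1 : ‖(f x : ℂ) - ∑ i, v i x‖ ≤ M + ∑ _i : ι, K := by
    refine (norm_sub_le _ _).trans (add_le_add ?_ ?_)
    · rw [Complex.norm_real, Real.norm_eq_abs]
      exact hM x
    · exact (norm_sum_le _ _).trans (Finset.sum_le_sum fun i _ => hK i x)
  exact pow_le_pow_left₀ (norm_nonneg _) h1 2

theorem ins_sub {μ : Measure Ω} [IsProbabilityMeasure μ] {Q : Ω → Ω} {f g : Ω → ℝ}
    (hf : Measurable f) (hg : Measurable g) {M : ℝ} (hMf : ∀ x, |f x| ≤ M)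
    (hMg : ∀ x, |g x| ≤ M) (h1 : InS μ Q Any f) (h2 : InS μ Q Any g) :
    InS μ Q Any (fun x => f x - g x) := by
  intro ε hε
  obtain ⟨ι, hι, v, lam, K, hv, hK, -, hi⟩ := h1 (ε / 4) (by linarith)
  obtain ⟨ι', hι', v', lam', K', hv', hK', -, hi'⟩ := h2 (ε / 4) (by linarith)
  refine ⟨ι ⊕ ι', inferInstance, Sum.elim v (fun i x => -v' i x), Sum.elim lam lam', max K K',
    ?_, ?_, ?_, ?_⟩
  · rintro (i | i)
    · exact hv i
    · obtain ⟨a1, a2, a3, a4⟩ := hv' i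
      refine ⟨a1.neg, a2, a3, ?_⟩
      filter_upwards [a4] with x hx
      simp only [Sum.elim_inr]
      rw [hx]
      ring
  · rintro (i | i) x
    · exact (hK i x).trans (le_max_left _ _)
    · simp only [Sum.elim_inr, norm_neg]
      exact (hK' i x).trans (le_max_right _ _)
  · rintro (i | i) <;> trivial
  · have e1 := int_sq (μ := μ) hf hMf (fun i => (hv i).1) hK
    have e2 := int_sq (μ := μ) hg hMg (fun i => (hv' i).1) hK'
    have hle : ∀ x, ‖((f x - g x : ℝ) : ℂ) -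
        ∑ i, (Sum.elim v (fun i x => -v' i x) : ι ⊕ ι' → Ω → ℂ) i x‖ ^ 2 ≤
        2 * ‖(f x : ℂ) - ∑ i, v i x‖ ^ 2 + 2 * ‖(g x : ℂ) - ∑ i, v' i x‖ ^ 2 := by
      intro x
      have e3 : ((f x - g x : ℝ) : ℂ) -
          ∑ i, (Sum.elim v (fun i x => -v' i x) : ι ⊕ ι' → Ω → ℂ) i x =
          ((f x : ℂ) - ∑ i, v i x) - ((g x : ℂ) - ∑ i, v' i x) := by
        rw [Fintype.sum_sum_type]
        simp only [Sum.elim_inl, Sum.elim_inr, Finset.sum_neg_distrib]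
        push_cast
        ring
      rw [e3]
      have e4 := norm_sub_le ((f x : ℂ) - ∑ i, v i x) ((g x : ℂ) - ∑ i, v' i x)
      have e5 := norm_nonneg (((f x : ℂ) - ∑ i, v i x) - ((g x : ℂ) - ∑ i, v' i x))
      have e6 := norm_nonneg ((f x : ℂ) - ∑ i, v i x)
      have e7 := norm_nonneg ((g x : ℂ) - ∑ i, v' i x)
      nlinarith [sq_nonneg (‖(f x : ℂ) - ∑ i, v i x‖ - ‖(g x : ℂ) - ∑ i, v' i x‖)]
    have e8 : Integrable (fun x => 2 * ‖(f x : ℂ) - ∑ i, v i x‖ ^ 2 +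
        2 * ‖(g x : ℂ) - ∑ i, v' i x‖ ^ 2) μ := (e1.const_mul 2).add (e2.const_mul 2)
    calc ∫ x, ‖((f x - g x : ℝ) : ℂ) -
        ∑ i, (Sum.elim v (fun i x => -v' i x) : ι ⊕ ι' → Ω → ℂ) i x‖ ^ 2 ∂μ
        ≤ ∫ x, (2 * ‖(f x : ℂ) - ∑ i, v i x‖ ^ 2 + 2 * ‖(g x : ℂ) - ∑ i, v' i x‖ ^ 2) ∂μ :=
          integral_mono_of_nonneg (Eventually.of_forall fun x => by positivity) e8
            (Eventually.of_forall hle)
      _ = 2 * ∫ x, ‖(f x : ℂ) - ∑ i, v i x‖ ^ 2 ∂μ +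
          2 * ∫ x, ‖(g x : ℂ) - ∑ i, v' i x‖ ^ 2 ∂μ := by
          rw [integral_add (e1.const_mul 2) (e2.const_mul 2), integral_const_mul,
            integral_const_mul]
      _ ≤ ε := by linarith

end DCL_

open DCL_ in
theorem p_DCL : T_DC2.{u} → T_KAP.{u} → T_NRS.{u} → T_DCL.{u} := by
  intro hDC2 hKAP hNRS Ω _ μ _ Q hQ θ hθ hθQ A hA
  obtain ⟨b, r, g, mb, mr, mg, hb, hbr, hr, hg, hdec, apb, apbr, ort, rwm, pos⟩ :=
    hDC2 Ω μ Q hQ θ hθ hθQ A hA
  have hFF : FF θ ⊆ FA Q := by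
    rintro φ (⟨j, rfl⟩ | h)
    · exact ⟨hθ j, hθQ j⟩
    · rw [Set.mem_singleton_iff] at h
      subst h
      exact ⟨measurable_const, fun _ => rfl⟩
  have ib : InS μ Q Any b :=
    hKAP Ω μ Q hQ (FF θ) hFF b mb (fun x => (hb x).1) (fun x => (hb x).2) apb
  have ibr : InS μ Q Any (fun x => b x + r x) :=
    hKAP Ω μ Q hQ (FA Q) (subset_refl _) _ (mb.add mr) (fun x => (hbr x).1)
      (fun x => (hbr x).2) apbr
  have ir : InS μ Q Any r := by
    have h := ins_sub (μ := μ) (Q := Q) (f := fun x => b x + r x) (g := b) (M := 1)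
      (mb.add mr) mb (fun x => by rw [abs_of_nonneg (hbr x).1]; exact (hbr x).2)
      (fun x => by rw [abs_of_nonneg (hb x).1]; exact (hb x).2) ibr ib
    have e : (fun x => (b x + r x) - b x) = r := by
      funext x
      ring
    rw [e] at h
    exact h
  exact ⟨b, r, g, mb, mr, mg, hb, hbr, hr, hg, hdec, apb, ib, ibr,
    hNRS Ω μ Q hQ θ hθ hθQ r mr hr ort ir, rwm, pos⟩

end Pool.Agent.CRk
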