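import Pool.Agent.CRk.Targets

set_option autoImplicit false

/-!
# EWL: the weighted mean at the moved point
-/

open MeasureTheory Filter Topology Finset

namespace Pool.Agent.CRk

open Pool.Agent.FSP Pool.Agent.Ind3

universe u

namespace EWL_

theorem int_avg3 {Ω : Type u} [MeasurableSpace Ω] {μ : Measure Ω} (N : ℕ)
    {G : (Fin 3 → ℕ) → Ω → ℝ} (hG : ∀ y, Integrable (G y) μ) :
    ∫ x, avg3 N (fun y => G y x) ∂μ = avg3 N (fun y => ∫ x, G y x ∂μ) := by
  unfold avg3 mean
  rw [integral_const_mul, integral_finsetSum]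
  · congr 1
    refine Finset.sum_congr rfl fun a _ => ?_
    rw [integral_const_mul, integral_finsetSum]
    · congr 1
      refine Finset.sum_congr rfl fun b _ => ?_
      rw [integral_const_mul, integral_finsetSum]
      exact fun c _ => hG _
    · intro b _
      exact (integrable_finsetSum _ fun c _ => hG _).const_mul _
  · intro a _
    exact (integrable_finsetSum _ fun b _ =>
      (integrable_finsetSum _ fun c _ => hG _).const_mul _).const_mul _

theorem integrable_avg3 {Ω : Type u} [MeasurableSpace Ω] {μ : Measure Ω} (N : ℕ)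
    {G : (Fin 3 → ℕ) → Ω → ℝ} (hG : ∀ y, Integrable (G y) μ) :
    Integrable (fun x => avg3 N (fun y => G y x)) μ := by
  unfold avg3 mean
  exact (integrable_finsetSum _ fun a _ => (integrable_finsetSum _ fun b _ =>
    (integrable_finsetSum _ fun c _ => hG _).const_mul _).const_mul _).const_mul _

theorem avg3_nonneg (N : ℕ) {F : (Fin 3 → ℕ) → ℝ} (h : ∀ y, 0 ≤ F y) : 0 ≤ avg3 N F := by
  unfold avg3 mean
  refine mul_nonneg (by positivity) (Finset.sum_nonneg fun a _ => ?_)
  refine mul_nonneg (by positivity) (Finset.sum_nonneg fun b _ => ?_)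
  exact mul_nonneg (by positivity) (Finset.sum_nonneg fun c _ => h _)

theorem avg3_mul_right (N : ℕ) (F : (Fin 3 → ℕ) → ℝ) (r : ℝ) :
    avg3 N (fun y => F y * r) = avg3 N F * r := by
  unfold avg3 mean
  simp only [← Finset.sum_mul, ← mul_assoc]

theorem mean_mul_left (N s : ℕ) (r : ℝ) (F : ℕ → ℝ) :
    mean N s (fun n => r * F n) = r * mean N s F := by
  unfold mean
  rw [← Finset.mul_sum]
  ring

theorem avg3_prod (N : ℕ) (f g k : ℕ → ℝ) :
    avg3 N (fun y => f (y 0) * g (y 1) * k (y 2)) =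
      mean N N f * mean N 0 g * mean N (3 * N) k := by
  have e0 : avg3 N (fun y => f (y 0) * g (y 1) * k (y 2)) =
      mean N N fun a => mean N 0 fun b => mean N (3 * N) fun c => f a * g b * k c := rfl
  have e1 : ∀ a b : ℕ, mean N (3 * N) (fun c => f a * g b * k c) =
      f a * mean N (3 * N) k * g b := by
    intro a b
    rw [mean_mul_left]
    ring
  have e2 : ∀ a : ℕ, mean N 0 (fun b => mean N (3 * N) fun c => f a * g b * k c) =
      mean N (3 * N) k * mean N 0 g * f a := by
    intro a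
    simp only [e1]
    rw [mean_mul_left]
    ring
  rw [e0]
  simp only [e2]
  rw [mean_mul_left]
  ring

/-- the weights depend only on the values of the frequencies -/
theorem nw_congr {Ω : Type u} (q m : ℕ) {d : ℕ} (τ τ' : Fin d → Ω → Circle) (x : Ω)
    (h : ∀ l, τ l x = τ' l x) (n : ℕ) : nw q m τ x n = nw q m τ' x n := by
  have hkw : ∀ n, kw m τ x n = kw m τ' x n := by
    intro n
    unfold kw
    exact Finset.prod_congr rfl fun l _ => by rw [h l]
  have hchr : ∀ p : Fin d → Fin m × Fin m, chr τ p x = chr τ' p x := by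
    intro p
    unfold chr
    exact Finset.prod_congr rfl fun l _ => by rw [h l]
  have hku : ku m τ x = ku m τ' x := by
    unfold ku tu
    refine Finset.sum_congr rfl fun p _ => ?_
    congr 1
    unfold one
    by_cases h1 : chr τ p x = 1
    · rw [Set.indicator_of_mem (show x ∈ {y | chr τ p y = 1} from h1),
        Set.indicator_of_mem (show x ∈ {y | chr τ' p y = 1} from by
          show chr τ' p x = 1
          rw [← hchr p]; exact h1)]
    · rw [Set.indicator_of_notMem (show x ∉ {y | chr τ p y = 1} from h1),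
        Set.indicator_of_notMem (show x ∉ {y | chr τ' p y = 1} from by
          show ¬ chr τ' p x = 1
          rw [← hchr p]; exact h1)]
  unfold nw
  rw [hkw, hku]

end EWL_

open EWL_ in
theorem p_EWL : T_EWL.{u} := by
  intro Ω _ μ _ Q θ X hAdm q m K hq hm l h C hmeas h0 hC ε hε
  obtain ⟨hmp, hθm, hθi, hX, hXθ⟩ := hAdm
  obtain ⟨hb, hwm, -, -, -, hinv⟩ :=
    f_NWA Ω q m K (fun i : Fin K => θ l i) hq hm (fun i => hθm l i)
  set W : ℝ := q * (m : ℝ) ^ K with hW
  have hW0 : 0 ≤ W := by positivity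
  have hWx : ∀ x n, 0 ≤ wt q m K (θ l) x n ∧ wt q m K (θ l) x n ≤ W := fun x n => hb x n
  have hwtm : ∀ n, Measurable fun x => wt q m K (θ l) x n := hwm
  set B : ℝ := |C| with hB
  have hB0 : 0 ≤ B := abs_nonneg C
  have hhB : ∀ x, h x ≤ B := fun x => (hC x).trans (le_abs_self C)
  set δ : ℝ := ε / (B * (W ^ 2 + W + 1) + 1) with hδ
  have hden : 0 < B * (W ^ 2 + W + 1) + 1 := by positivity
  have hδ0 : 0 < δ := by positivity
  obtain ⟨N₀, hN₀⟩ := f_NWB Ω μ q m K (fun i : Fin K => θ l i) hq hm (fun i => hθm l i) δ hδ0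
  refine ⟨N₀, fun N hN hqN => ?_⟩
  have hw3m : ∀ y : Fin 3 → ℕ, Measurable fun x => w3 q m K (θ l) x y := by
    intro y
    unfold w3
    exact ((hwtm _).mul (hwtm _)).mul (hwtm _)
  have hw30 : ∀ x (y : Fin 3 → ℕ), 0 ≤ w3 q m K (θ l) x y := by
    intro x y
    unfold w3
    exact mul_nonneg (mul_nonneg (hWx x _).1 (hWx x _).1) (hWx x _).1
  have hw3W : ∀ x (y : Fin 3 → ℕ), w3 q m K (θ l) x y ≤ W * W * W := by
    intro x y
    unfold w3
    exact mul_le_mul (mul_le_mul (hWx x _).2 (hWx x _).2 (hWx x _).1 hW0) (hWx x _).2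
      (hWx x _).1 (by positivity)
  have hiter : ∀ (t : ℕ) (x : Ω) (n : ℕ),
      wt q m K (θ l) ((Q l)^[t] x) n = wt q m K (θ l) x n := by
    intro t
    induction t with
    | zero => intro x n; rfl
    | succ t ih =>
      intro x n
      rw [Function.iterate_succ_apply, ih]
      exact hinv (Q l) x n (fun i => hθi l i x)
  -- integrability
  have hG : ∀ (t : ℕ) (y : Fin 3 → ℕ),
      Measurable fun x => w3 q m K (θ l) x y * h ((Q l)^[t] x) := by
    intro t y
    exact (hw3m y).mul (hmeas.comp ((hmp l).iterate t).measurable)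
  have hGi : ∀ (t : ℕ) (y : Fin 3 → ℕ),
      Integrable (fun x => w3 q m K (θ l) x y * h ((Q l)^[t] x)) μ := by
    intro t y
    refine Integrable.of_bound (hG t y).aestronglyMeasurable (W * W * W * B)
      (ae_of_all _ fun x => ?_)
    rw [Real.norm_eq_abs, abs_of_nonneg (mul_nonneg (hw30 x y) (h0 _))]
    exact mul_le_mul (hw3W x y) (hhB _) (h0 _) (by positivity)
  have hG0 : ∀ y : Fin 3 → ℕ, Integrable (fun x => w3 q m K (θ l) x y * h x) μ := by
    intro y
    exact hGi 0 y
  -- step 1: replace the list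
  have s1 : ∫ x in X, avg3 N (fun y => w3 q m K (θ 0) x y * h ((Q l)^[tm l y] x)) ∂μ =
      ∫ x in X, avg3 N (fun y => w3 q m K (θ l) x y * h ((Q l)^[tm l y] x)) ∂μ := by
    refine setIntegral_congr_fun hX fun x hx => ?_
    have e1 : ∀ n, wt q m K (θ 0) x n = wt q m K (θ l) x n := fun n =>
      nw_congr q m _ _ x (fun i => (hXθ l i x hx).symm) n
    have e2 : ∀ y : Fin 3 → ℕ, w3 q m K (θ 0) x y = w3 q m K (θ l) x y := by
      intro y
      unfold w3
      rw [e1, e1, e1]
    simp only [e2]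
  -- step 2: to the whole space
  have s2 : ∫ x in X, avg3 N (fun y => w3 q m K (θ l) x y * h ((Q l)^[tm l y] x)) ∂μ ≤
      ∫ x, avg3 N (fun y => w3 q m K (θ l) x y * h ((Q l)^[tm l y] x)) ∂μ := by
    refine setIntegral_le_integral (integrable_avg3 N fun y => hGi (tm l y) y)
      (ae_of_all _ fun x => ?_)
    exact avg3_nonneg N fun y => mul_nonneg (hw30 x y) (h0 _)
  -- step 3: move the point
  have s3 : ∫ x, avg3 N (fun y => w3 q m K (θ l) x y * h ((Q l)^[tm l y] x)) ∂μ =
      ∫ x, avg3 N (fun y => w3 q m K (θ l) x y * h x) ∂μ := by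
    rw [int_avg3 N (G := fun y x => w3 q m K (θ l) x y * h ((Q l)^[tm l y] x))
      (fun y => hGi (tm l y) y),
      int_avg3 N (G := fun y x => w3 q m K (θ l) x y * h x) hG0]
    congr 1
    funext y
    have e1 : (fun x => w3 q m K (θ l) x y * h ((Q l)^[tm l y] x)) =
        fun x => (fun z => w3 q m K (θ l) z y * h z) ((Q l)^[tm l y] x) := by
      funext x
      show _ = w3 q m K (θ l) ((Q l)^[tm l y] x) y * h ((Q l)^[tm l y] x)
      unfold w3
      rw [hiter, hiter, hiter]
    rw [e1]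
    exact Pool.Agent.MRec.integral_comp_mp ((hmp l).iterate (tm l y)) ((hw3m y).mul hmeas)
  -- step 4: the product of three means
  set a : ℕ → Ω → ℝ := fun s x => wm (nw q m (fun i : Fin K => θ l i)) N s x with ha
  have s4 : ∀ x, avg3 N (fun y => w3 q m K (θ l) x y * h x) =
      a N x * a 0 x * a (3 * N) x * h x := by
    intro x
    rw [avg3_mul_right]
    congr 1
    exact avg3_prod N (fun n => wt q m K (θ l) x n) (fun n => wt q m K (θ l) x n)
      (fun n => wt q m K (θ l) x n)
  have ham : ∀ s, Measurable (a s) := by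
    intro s
    show Measurable fun x => (N : ℝ)⁻¹ * ∑ n ∈ range N, nw q m (fun i : Fin K => θ l i) x (s + n)
    exact (Finset.measurable_sum _ fun n _ => hwm (s + n)).const_mul _
  have ha0 : ∀ s x, 0 ≤ a s x := by
    intro s x
    exact mul_nonneg (by positivity) (Finset.sum_nonneg fun n _ => (hb x _).1)
  have haW : ∀ s x, a s x ≤ W := by
    intro s x
    show (N : ℝ)⁻¹ * ∑ n ∈ range N, nw q m (fun i : Fin K => θ l i) x (s + n) ≤ W
    have e1 : ∑ n ∈ range N, nw q m (fun i : Fin K => θ l i) x (s + n) ≤ N * W := by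
      calc _ ≤ ∑ _n ∈ range N, W := Finset.sum_le_sum fun n _ => (hb x _).2
        _ = N * W := by rw [Finset.sum_const, card_range, nsmul_eq_mul]
    rcases Nat.eq_zero_or_pos N with h1 | h1
    · subst h1; simpa using hW0
    · have h2 : (0 : ℝ) < N := by exact_mod_cast h1
      rw [inv_mul_le_iff₀ h2]
      exact e1
  have hai : ∀ s, Integrable (fun x => |a s x - 1|) μ := by
    intro s
    refine Integrable.of_bound ((ham s).sub_const 1).abs.aestronglyMeasurable (W + 1)
      (ae_of_all _ fun x => ?_)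
    rw [Real.norm_eq_abs, abs_abs, abs_le]
    constructor <;> linarith [ha0 s x, haW s x]
  have hL : ∀ s, ∫ x, |a s x - 1| ∂μ ≤ δ := fun s => hN₀ N hN hqN s
  have hhi : Integrable h μ := by
    refine Integrable.of_bound hmeas.aestronglyMeasurable B (ae_of_all _ fun x => ?_)
    rw [Real.norm_eq_abs, abs_of_nonneg (h0 x)]
    exact hhB x
  have s5 : ∀ x, a N x * a 0 x * a (3 * N) x * h x ≤
      h x + B * (W ^ 2 * |a N x - 1| + W * |a 0 x - 1| + |a (3 * N) x - 1|) := by
    intro x
    have e1 : a N x * a 0 x * a (3 * N) x * h x = h x + (a N x * a 0 x * a (3 * N) x - 1) * h x := by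
      ring
    have e2 : a N x * a 0 x * a (3 * N) x - 1 =
        (a N x - 1) * (a 0 x * a (3 * N) x) + (a 0 x - 1) * a (3 * N) x + (a (3 * N) x - 1) := by
      ring
    have e3 : a N x * a 0 x * a (3 * N) x - 1 ≤
        W ^ 2 * |a N x - 1| + W * |a 0 x - 1| + |a (3 * N) x - 1| := by
      rw [e2]
      have f1 : (a N x - 1) * (a 0 x * a (3 * N) x) ≤ W ^ 2 * |a N x - 1| := by
        have g1 : a 0 x * a (3 * N) x ≤ W ^ 2 := by
          rw [sq]
          exact mul_le_mul (haW _ x) (haW _ x) (ha0 _ x) hW0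
        have g2 : 0 ≤ a 0 x * a (3 * N) x := mul_nonneg (ha0 _ x) (ha0 _ x)
        calc (a N x - 1) * (a 0 x * a (3 * N) x) ≤ |a N x - 1| * (a 0 x * a (3 * N) x) := by
              gcongr
              exact le_abs_self _
          _ ≤ |a N x - 1| * W ^ 2 := by gcongr
          _ = W ^ 2 * |a N x - 1| := by ring
      have f2 : (a 0 x - 1) * a (3 * N) x ≤ W * |a 0 x - 1| := by
        calc (a 0 x - 1) * a (3 * N) x ≤ |a 0 x - 1| * a (3 * N) x := by
              gcongr
              · exact ha0 _ x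
              · exact le_abs_self _
          _ ≤ |a 0 x - 1| * W := by
              gcongr
              exact haW _ x
          _ = W * |a 0 x - 1| := by ring
      linarith [le_abs_self (a (3 * N) x - 1)]
    rw [e1]
    have e4 : 0 ≤ W ^ 2 * |a N x - 1| + W * |a 0 x - 1| + |a (3 * N) x - 1| := by positivity
    have e5 : (a N x * a 0 x * a (3 * N) x - 1) * h x ≤
        (W ^ 2 * |a N x - 1| + W * |a 0 x - 1| + |a (3 * N) x - 1|) * h x :=
      mul_le_mul_of_nonneg_right e3 (h0 x)
    have e6 : (W ^ 2 * |a N x - 1| + W * |a 0 x - 1| + |a (3 * N) x - 1|) * h x ≤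
        (W ^ 2 * |a N x - 1| + W * |a 0 x - 1| + |a (3 * N) x - 1|) * B :=
      mul_le_mul_of_nonneg_left (hhB x) e4
    linarith
  have i1 : Integrable (fun x => a N x * a 0 x * a (3 * N) x * h x) μ := by
    refine (integrable_avg3 N hG0).congr (ae_of_all _ fun x => ?_)
    exact s4 x
  have i2 : Integrable (fun x => W ^ 2 * |a N x - 1| + W * |a 0 x - 1| + |a (3 * N) x - 1|) μ :=
    (((hai N).const_mul _).add ((hai 0).const_mul _)).add (hai (3 * N))
  have s6 : ∫ x, a N x * a 0 x * a (3 * N) x * h x ∂μ ≤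
      ∫ x, h x ∂μ + B * (W ^ 2 * δ + W * δ + δ) := by
    calc ∫ x, a N x * a 0 x * a (3 * N) x * h x ∂μ
        ≤ ∫ x, (h x + B * (W ^ 2 * |a N x - 1| + W * |a 0 x - 1| + |a (3 * N) x - 1|)) ∂μ :=
          integral_mono i1 (hhi.add (i2.const_mul B)) s5
      _ = ∫ x, h x ∂μ + B * (W ^ 2 * ∫ x, |a N x - 1| ∂μ + W * ∫ x, |a 0 x - 1| ∂μ +
            ∫ x, |a (3 * N) x - 1| ∂μ) := by
          have j1 : ∫ x, (W ^ 2 * |a N x - 1| + W * |a 0 x - 1| + |a (3 * N) x - 1|) ∂μ =
              ∫ x, (W ^ 2 * |a N x - 1| + W * |a 0 x - 1|) ∂μ + ∫ x, |a (3 * N) x - 1| ∂μ :=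
            integral_add (((hai N).const_mul (W ^ 2)).add ((hai 0).const_mul W)) (hai (3 * N))
          have j2 : ∫ x, (W ^ 2 * |a N x - 1| + W * |a 0 x - 1|) ∂μ =
              ∫ x, W ^ 2 * |a N x - 1| ∂μ + ∫ x, W * |a 0 x - 1| ∂μ :=
            integral_add ((hai N).const_mul (W ^ 2)) ((hai 0).const_mul W)
          rw [integral_add hhi (i2.const_mul B), integral_const_mul, j1, j2, integral_const_mul,
            integral_const_mul]
      _ ≤ ∫ x, h x ∂μ + B * (W ^ 2 * δ + W * δ + δ) := by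
          have g1 := hL N
          have g2 := hL 0
          have g3 := hL (3 * N)
          gcongr
  have s7 : B * (W ^ 2 * δ + W * δ + δ) ≤ ε := by
    have e1 : B * (W ^ 2 * δ + W * δ + δ) = B * (W ^ 2 + W + 1) * δ := by ring
    rw [e1, hδ, mul_div_assoc', div_le_iff₀ hden]
    nlinarith
  rw [s1]
  refine s2.trans ?_
  rw [s3]
  simp only [s4]
  linarith

end Pool.Agent.CRk
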