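import Pool.Agent.CRk.Targets

set_option autoImplicit false

/-!
# CRk: EXT, maximality of the family of common eigenvalues gives MaxR
-/

open MeasureTheory Filter Topology Finset

namespace Pool.Agent.CRk

open Pool.Agent.FSP Pool.Agent.Ind3

universe u

namespace EXT_

/-- The subgroup. -/
def sg {Λ : Set Circle} (h : CGrp Λ) : Subgroup Circle where
  carrier := Λ
  mul_mem' := fun {a b} ha hb => h.2.2.1 a ha b hb
  one_mem' := h.2.1
  inv_mem' := fun {a} ha => h.2.2.2 a ha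

/-- The class in the quotient, written additively. -/
noncomputable def q {Λ : Set Circle} (h : CGrp Λ) (x : Circle) : Additive (Circle ⧸ sg h) :=
  Additive.ofMul (QuotientGroup.mk x)

theorem q_zero {Λ : Set Circle} (h : CGrp Λ) (x : Circle) : q h x = 0 ↔ x ∈ Λ := by
  have h1 : q h x = 0 ↔ (QuotientGroup.mk x : Circle ⧸ sg h) = 1 := Iff.rfl
  rw [h1, QuotientGroup.eq_one_iff]
  exact Iff.rfl

theorem q_mul {Λ : Set Circle} (h : CGrp Λ) (x y : Circle) : q h (x * y) = q h x + q h y := rfl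

theorem q_inv {Λ : Set Circle} (h : CGrp Λ) (x : Circle) : q h x⁻¹ = -q h x := rfl

theorem q_one {Λ : Set Circle} (h : CGrp Λ) : q h 1 = 0 := rfl

theorem q_zpow {Λ : Set Circle} (h : CGrp Λ) (x : Circle) (n : ℤ) : q h (x ^ n) = n • q h x := rfl

theorem q_pow {Λ : Set Circle} (h : CGrp Λ) (x : Circle) (n : ℕ) :
    q h (x ^ n) = (n : ℤ) • q h x := by
  rw [← zpow_natCast, q_zpow]

theorem q_prod {Λ : Set Circle} (h : CGrp Λ) {ι : Type} (s : Finset ι) (f : ι → Circle) :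
    q h (∏ i ∈ s, f i) = ∑ i ∈ s, q h (f i) := by
  classical
  induction s using Finset.induction_on with
  | empty => rfl
  | insert a s ha ih => rw [Finset.prod_insert ha, Finset.sum_insert ha, q_mul, ih]

theorem q_mono {Λ : Set Circle} (h : CGrp Λ) {ι : Type} [Fintype ι] (f : ι → Circle)
    (a : ι → ℤ) : q h (∏ i, f i ^ a i) = ∑ i, a i • q h (f i) := by
  rw [q_prod]
  exact Finset.sum_congr rfl fun i _ => q_zpow h _ _

theorem comb {M : Type} [AddCommGroup M] {r : ℕ} (A : Fin r → M) (c₁ c₂ c₃ : ℤ)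
    (f g k : Fin r → ℤ) : ∑ i, (c₁ * f i + c₂ * g i + c₃ * k i) • A i =
      c₁ • ∑ i, f i • A i + c₂ • ∑ i, g i • A i + c₃ • ∑ i, k i • A i := by
  simp only [add_smul, mul_smul, Finset.sum_add_distrib, Finset.smul_sum]

theorem meas_mono {Ω : Type u} [MeasurableSpace Ω] {ι : Type} [Fintype ι] {f : ι → Ω → Circle}
    (hf : ∀ i, Measurable (f i)) (a : ι → ℤ) : Measurable fun x => ∏ i, f i x ^ a i := by
  have h3 : Continuous fun v : ι → Circle => ∏ i, v i ^ a i :=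
    continuous_finsetProd _ fun i _ => (continuous_apply i).zpow (a i)
  have h4 : Measurable fun x => fun i => f i x := measurable_pi_lambda _ hf
  exact h3.measurable.comp h4

theorem meas_mem {Ω : Type u} [MeasurableSpace Ω] {Λ : Set Circle} (h : CGrp Λ) {f : Ω → Circle}
    (hf : Measurable f) : MeasurableSet {x | f x ∈ Λ} :=
  hf h.1.measurableSet

/-- The exponents of the new family. -/
def exq {r : ℕ} (n : ℕ) (α β : Fin r → ℤ) : Fin 3 → Option (Fin r) → ℤ :=
  ![fun o => o.elim (2 * n) fun i => α i - 2 * β i, fun o => o.elim (-n) fun _ => 0,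
    fun o => o.elim (2 * n) α]

/-- The eigenvalues with the new one added. -/
def lo {Ω : Type u} {r : ℕ} (lam : Ω → Circle) (L : Fin r → Ω → Circle) (o : Option (Fin r)) :
    Ω → Circle := o.elim lam L

/-- The eigenfunctions with the new one added. -/
def vo {Ω : Type u} {r : ℕ} (v : Ω → ℂ) (V : Fin r → Ω → ℂ) (o : Option (Fin r)) :
    Ω → ℂ := o.elim v V

/-- The new eigenvalue. -/
noncomputable def nl {Ω : Type u} {r : ℕ} (n : ℕ) (α β : Fin r → ℤ) (lam : Fin 3 → Ω → Circle)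
    (L : Fin 3 → Fin r → Ω → Circle) (l : Fin 3) (x : Ω) : Circle :=
  ∏ o, lo (lam l) (L l) o x ^ exq n α β l o

theorem q_nl {Ω : Type u} {Λ : Set Circle} (h : CGrp Λ) {r : ℕ} (n : ℕ) (α β : Fin r → ℤ)
    (lam : Fin 3 → Ω → Circle) (L : Fin 3 → Fin r → Ω → Circle) (l : Fin 3) (x : Ω) :
    q h (nl n α β lam L l x) = exq n α β l none • q h (lam l x) +
      ∑ i, exq n α β l (some i) • q h (L l i x) := by
  unfold nl
  rw [q_mono, Fintype.sum_option]
  rfl

/-- The exceptional set for given exponents. -/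
def Y {Ω : Type u} (Λ : Set Circle) (X : Set Ω) {r : ℕ} (v : Fin 3 → Ω → ℂ)
    (lam : Fin 3 → Ω → Circle) (L : Fin 3 → Fin r → Ω → Circle) (n : ℕ) (α β : Fin r → ℤ) :
    Set Ω :=
  {x | x ∈ X ∧ (∀ l, v l x ≠ 0) ∧ (lam 2 x ^ 2 * lam 1 x) ^ n * ∏ i, L 2 i x ^ α i ∈ Λ ∧
    (lam 2 x * (lam 0 x)⁻¹) ^ n * ∏ i, L 2 i x ^ β i ∈ Λ ∧
    ∀ (a : Fin r → ℤ) (b : ℤ), b ≠ 0 → nl n α β lam L 2 x ^ b * ∏ i, L 2 i x ^ a i ∉ Λ}

theorem meas_nl {Ω : Type u} [MeasurableSpace Ω] {r : ℕ} (n : ℕ) (α β : Fin r → ℤ)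
    {lam : Fin 3 → Ω → Circle} {L : Fin 3 → Fin r → Ω → Circle} (l : Fin 3)
    (h1 : Measurable (lam l)) (h2 : ∀ i, Measurable (L l i)) :
    Measurable (nl n α β lam L l) := by
  refine meas_mono (f := fun o => lo (lam l) (L l) o) (fun o => ?_) _
  cases o
  · exact h1
  · exact h2 _

theorem meas_Y {Ω : Type u} [MeasurableSpace Ω] {Λ : Set Circle} (h : CGrp Λ) {X : Set Ω}
    (hX : MeasurableSet X) {r : ℕ} {v : Fin 3 → Ω → ℂ} {lam : Fin 3 → Ω → Circle}
    {L : Fin 3 → Fin r → Ω → Circle} (hv : ∀ l, Measurable (v l))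
    (hlam : ∀ l, Measurable (lam l)) (hL : ∀ l i, Measurable (L l i)) (n : ℕ)
    (α β : Fin r → ℤ) : MeasurableSet (Y Λ X v lam L n α β) := by
  have h1 : Measurable fun x => (lam 2 x ^ 2 * lam 1 x) ^ n * ∏ i, L 2 i x ^ α i :=
    (((hlam 2).pow_const 2).mul (hlam 1)).pow_const n |>.mul (meas_mono (hL 2) α)
  have h2 : Measurable fun x => (lam 2 x * (lam 0 x)⁻¹) ^ n * ∏ i, L 2 i x ^ β i :=
    ((hlam 2).mul (hlam 0).inv).pow_const n |>.mul (meas_mono (hL 2) β)
  have h3 : ∀ (a : Fin r → ℤ) (b : ℤ),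
      Measurable fun x => nl n α β lam L 2 x ^ b * ∏ i, L 2 i x ^ a i := fun a b => by
    have h4 : Continuous fun z : Circle => z ^ b := continuous_zpow b
    exact (h4.measurable.comp (meas_nl n α β 2 (hlam 2) (hL 2))).mul (meas_mono (hL 2) a)
  have e : Y Λ X v lam L n α β = X ∩ ((⋂ l, {x | v l x ≠ 0}) ∩
      ({x | (lam 2 x ^ 2 * lam 1 x) ^ n * ∏ i, L 2 i x ^ α i ∈ Λ} ∩
      ({x | (lam 2 x * (lam 0 x)⁻¹) ^ n * ∏ i, L 2 i x ^ β i ∈ Λ} ∩
      ⋂ (a : Fin r → ℤ), ⋂ (b : ℤ), ⋂ (_ : b ≠ 0),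
        {x | nl n α β lam L 2 x ^ b * ∏ i, L 2 i x ^ a i ∈ Λ}ᶜ))) := by
    ext x
    simp only [Y, Set.mem_ofPred_eq, Set.mem_inter_iff, Set.mem_iInter, Set.mem_compl_iff]
  rw [e]
  refine hX.inter (MeasurableSet.inter (MeasurableSet.iInter fun l => ?_) ((meas_mem h h1).inter
    ((meas_mem h h2).inter (MeasurableSet.iInter fun a => MeasurableSet.iInter fun b =>
      MeasurableSet.iInter fun _ => (meas_mem h (h3 a b)).compl))))
  exact (hv l) (measurableSet_singleton 0).compl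

end EXT_

open EXT_ in
theorem p_EXT (hPRD : T_PRD.{u}) (hREL : T_REL.{u}) : T_EXT.{u} := by
  intro Ω _ μ Q Λ X r V L z e hΛ heΛ hes hX hI hz hzL hmax v lam hv
  have hvm : ∀ l, Measurable (v l) := fun l => (hv l).1
  have hlm : ∀ l, Measurable (lam l) := fun l => (hv l).2.1
  have hLm : ∀ l i, Measurable (L l i) := fun l i => (hI.1 l i).2.1
  -- the values of the classes on `X`
  have hqL : ∀ x ∈ X, ∀ l i, q hΛ (L l i x) = q hΛ (L 2 i x) := by
    intro x hx l i
    rw [← hzL x hx l i, q_mul, (q_zero hΛ _).2 (hz l i), zero_add]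
  have hnull : ∀ (n : ℕ) (α β : Fin r → ℤ), μ (Y Λ X v lam L n α β) = 0 := by
    intro n α β
    have hP : ∀ l, ∃ w : Ω → ℂ, GEig μ (Q l) w (fun x => nl n α β lam L l x) ∧
        ∀ x, (∀ o, vo (v l) (V l) o x ≠ 0) → w x ≠ 0 := by
      intro l
      refine hPRD Ω μ (Q l) (Option (Fin r)) (vo (v l) (V l)) (lo (lam l) (L l)) ?_ (exq n α β l)
      intro o
      cases o
      · exact hv l
      · exact hI.1 l _
    choose w hw1 hw2 using hP
    refine hmax _ (fun l => Fin.snoc (α := fun _ => Ω → ℂ) (V l) (w l))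
      (fun l => Fin.snoc (α := fun _ => Ω → Circle) (L l) (fun x => nl n α β lam L l x))
      (fun x hx => hx.1) (meas_Y hΛ hX hvm hlm hLm n α β) ⟨?_, ?_⟩
    · intro l i
      refine Fin.lastCases ?_ (fun i => ?_) i
      · simp only [Fin.snoc_last]
        exact hw1 l
      · simp only [Fin.snoc_castSucc]
        exact hI.1 l i
    · intro x hx
      obtain ⟨hxX, hxv, hr1, hr2, hnon⟩ := hx
      obtain ⟨hV, hLL, hind⟩ := hI.2 x hxX
      rw [← q_zero hΛ, q_mul, q_pow, q_mul, q_pow, q_mono] at hr1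
      rw [← q_zero hΛ, q_mul, q_pow, q_mul, q_inv, q_mono] at hr2
      refine ⟨?_, ?_, ?_⟩
      · intro l i
        refine Fin.lastCases ?_ (fun i => ?_) i
        · simp only [Fin.snoc_last]
          refine hw2 l x fun o => ?_
          cases o
          · exact hxv l
          · exact hV l _
        · simp only [Fin.snoc_castSucc]
          exact hV l i
      · intro l i
        refine Fin.lastCases ?_ (fun i => ?_) i
        · simp only [Fin.snoc_last]
          rw [← q_zero hΛ, q_mul, q_inv, q_nl, q_nl]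
          have hc : ∀ (l : Fin 3) (c : Fin r → ℤ), ∑ i, c i • q hΛ (L l i x) =
              ∑ i, c i • q hΛ (L 2 i x) := fun l c =>
            Finset.sum_congr rfl fun i _ => by rw [hqL x hxX l i]
          rw [hc l]
          fin_cases l
          · have e1 : ∑ i, exq n α β 0 (some i) • q hΛ (L 2 i x) =
                (1 : ℤ) • ∑ i, α i • q hΛ (L 2 i x) + (-2 : ℤ) • ∑ i, β i • q hΛ (L 2 i x) +
                (0 : ℤ) • ∑ i, α i • q hΛ (L 2 i x) := by
              rw [← comb]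
              refine Finset.sum_congr rfl fun i _ => ?_
              congr 1
              show α i - 2 * β i = 1 * α i + -2 * β i + 0 * α i
              ring
            have e2 : exq n α β 2 none = 2 * n := rfl
            have e3 : exq n α β 0 none = 2 * n := rfl
            have e4 : ∑ i, exq n α β 2 (some i) • q hΛ (L 2 i x) =
                ∑ i, α i • q hΛ (L 2 i x) := rfl
            show exq n α β 2 none • q hΛ (lam 2 x) +
              ∑ i, exq n α β 2 (some i) • q hΛ (L 2 i x) + -(exq n α β 0 none • q hΛ (lam 0 x) +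
              ∑ i, exq n α β 0 (some i) • q hΛ (L 2 i x)) = 0
            rw [e1, e2, e3, e4]
            have e5 : (2 * (n : ℤ)) • q hΛ (lam 2 x) + ∑ i, α i • q hΛ (L 2 i x) +
                -((2 * (n : ℤ)) • q hΛ (lam 0 x) + ((1 : ℤ) • ∑ i, α i • q hΛ (L 2 i x) +
                  (-2 : ℤ) • ∑ i, β i • q hΛ (L 2 i x) +
                  (0 : ℤ) • ∑ i, α i • q hΛ (L 2 i x))) =
                (2 : ℤ) • ((n : ℤ) • (q hΛ (lam 2 x) + -q hΛ (lam 0 x)) +
                  ∑ i, β i • q hΛ (L 2 i x)) := by module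
            rw [e5, hr2, smul_zero]
          · have e1 : ∑ i, exq n α β 1 (some i) • q hΛ (L 2 i x) = 0 := by
              refine Finset.sum_eq_zero fun i _ => ?_
              have : exq n α β 1 (some i) = 0 := rfl
              rw [this, zero_smul]
            have e2 : exq n α β 2 none = 2 * n := rfl
            have e3 : exq n α β 1 none = -n := rfl
            have e4 : ∑ i, exq n α β 2 (some i) • q hΛ (L 2 i x) =
                ∑ i, α i • q hΛ (L 2 i x) := rfl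
            show exq n α β 2 none • q hΛ (lam 2 x) +
              ∑ i, exq n α β 2 (some i) • q hΛ (L 2 i x) + -(exq n α β 1 none • q hΛ (lam 1 x) +
              ∑ i, exq n α β 1 (some i) • q hΛ (L 2 i x)) = 0
            rw [e1, e2, e3, e4]
            have e5 : (2 * (n : ℤ)) • q hΛ (lam 2 x) + ∑ i, α i • q hΛ (L 2 i x) +
                -((-(n : ℤ)) • q hΛ (lam 1 x) + 0) =
                (n : ℤ) • (((2 : ℕ) : ℤ) • q hΛ (lam 2 x) + q hΛ (lam 1 x)) +
                  ∑ i, α i • q hΛ (L 2 i x) := by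
              push_cast
              module
            rw [e5, hr1]
          · show exq n α β 2 none • q hΛ (lam 2 x) +
              ∑ i, exq n α β 2 (some i) • q hΛ (L 2 i x) + -(exq n α β 2 none • q hΛ (lam 2 x) +
              ∑ i, exq n α β 2 (some i) • q hΛ (L 2 i x)) = 0
            exact add_neg_cancel _
        · simp only [Fin.snoc_castSucc]
          exact hLL l i
      · intro a ha
        rw [Fin.prod_univ_castSucc] at ha
        simp only [Fin.snoc_castSucc, Fin.snoc_last] at ha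
        by_cases hb : a (Fin.last r) = 0
        · rw [hb, zpow_zero, mul_one] at ha
          have h1 := hind (fun i => a i.castSucc) ha
          funext i
          refine Fin.lastCases ?_ (fun i => ?_) i
          · exact hb
          · exact congrFun h1 i
        · rw [mul_comm] at ha
          exact absurd ha (hnon (fun i => a i.castSucc) _ hb)
  have hae : ∀ᵐ x ∂μ, ∀ (n : ℕ) (α β : Fin r → ℤ), x ∉ Y Λ X v lam L n α β := by
    rw [ae_all_iff]
    intro n
    rw [ae_all_iff]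
    intro α
    rw [ae_all_iff]
    intro β
    exact measure_eq_zero_iff_ae_notMem.1 (hnull n α β)
  filter_upwards [hae] with x hx hxX hxv hres
  have hrel := fun (φ : Ω → Circle) => hREL Ω r (fun i x => z 0 i * L 0 i x) Λ e hΛ heΛ hes φ x
  have hω : ∀ i, q hΛ (z 0 i * L 0 i x) = q hΛ (L 2 i x) := fun i => by rw [hzL x hxX 0 i]
  have hrel' : ∀ φ : Ω → Circle, RelN (lst r (fun i x => z 0 i * L 0 i x) e) φ x ↔
      ∃ n : ℕ, 1 ≤ n ∧ ∃ a : Fin r → ℤ,
        (n : ℤ) • q hΛ (φ x) + ∑ i, a i • q hΛ (L 2 i x) = 0 := by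
    intro φ
    rw [hrel φ]
    refine exists_congr fun n => and_congr_right fun _ => exists_congr fun a => ?_
    rw [← q_zero hΛ, q_mul, q_pow, q_mono]
    simp only [hω]
  obtain ⟨hR1, hR2, -⟩ := hres
  rw [hrel'] at hR1 hR2
  obtain ⟨n₁, hn₁, α₁, h1⟩ := hR1
  obtain ⟨n₂, hn₂, β₁, h2⟩ := hR2
  rw [q_mul, q_pow] at h1
  rw [q_mul, q_inv] at h2
  set S1 := ∑ i, α₁ i • q hΛ (L 2 i x) with hS1
  set S2 := ∑ i, β₁ i • q hΛ (L 2 i x) with hS2
  set n : ℕ := n₁ * n₂ with hn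
  have hn1 : 1 ≤ n := Nat.one_le_iff_ne_zero.2 (by positivity)
  set α : Fin r → ℤ := fun i => (n₂ : ℤ) * α₁ i with hα
  set β : Fin r → ℤ := fun i => (n₁ : ℤ) * β₁ i with hβ
  have hSα : ∑ i, α i • q hΛ (L 2 i x) = (n₂ : ℤ) • S1 := by
    simp only [hα, mul_smul, hS1, Finset.smul_sum]
  have hSβ : ∑ i, β i • q hΛ (L 2 i x) = (n₁ : ℤ) • S2 := by
    simp only [hβ, mul_smul, hS2, Finset.smul_sum]
  have hrA : (n : ℤ) • ((2 : ℤ) • q hΛ (lam 2 x) + q hΛ (lam 1 x)) +
      ∑ i, α i • q hΛ (L 2 i x) = 0 := by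
    have h3 : (n : ℤ) • ((2 : ℤ) • q hΛ (lam 2 x) + q hΛ (lam 1 x)) +
        ∑ i, α i • q hΛ (L 2 i x) = (n₂ : ℤ) • ((n₁ : ℤ) • (((2 : ℕ) : ℤ) • q hΛ (lam 2 x) +
          q hΛ (lam 1 x)) + S1) := by
      rw [hSα, hn]
      push_cast
      module
    rw [h3, h1, smul_zero]
  have hrB : (n : ℤ) • (q hΛ (lam 2 x) + -q hΛ (lam 0 x)) +
      ∑ i, β i • q hΛ (L 2 i x) = 0 := by
    have h3 : (n : ℤ) • (q hΛ (lam 2 x) + -q hΛ (lam 0 x)) +
        ∑ i, β i • q hΛ (L 2 i x) = (n₁ : ℤ) • ((n₂ : ℤ) • (q hΛ (lam 2 x) +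
          -q hΛ (lam 0 x)) + S2) := by
      rw [hSβ, hn]
      push_cast
      module
    rw [h3, h2, smul_zero]
  have hnot := hx n α β
  have hex : ∃ (a : Fin r → ℤ) (b : ℤ), b ≠ 0 ∧
      nl n α β lam L 2 x ^ b * ∏ i, L 2 i x ^ a i ∈ Λ := by
    by_contra hcon
    refine hnot ⟨hxX, hxv, ?_, ?_, fun a b hb hab => hcon ⟨a, b, hb, hab⟩⟩
    · rw [← q_zero hΛ, q_mul, q_pow, q_mul, q_pow, q_mono]
      exact_mod_cast hrA
    · rw [← q_zero hΛ, q_mul, q_pow, q_mul, q_inv, q_mono]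
      exact hrB
  obtain ⟨a, b, hb, hab⟩ := hex
  rw [← q_zero hΛ, q_mul, q_zpow, q_nl, q_mono] at hab
  have hrC : b • ((2 * (n : ℤ)) • q hΛ (lam 2 x) + ∑ i, α i • q hΛ (L 2 i x)) +
      ∑ i, a i • q hΛ (L 2 i x) = 0 := hab
  have hs : (b.natAbs : ℤ) = b.sign * b := (Int.sign_mul_self_eq_abs b).symm ▸ Int.natCast_natAbs b
  have hbp : 1 ≤ b.natAbs := Nat.one_le_iff_ne_zero.2 (Int.natAbs_ne_zero.2 hb)
  intro l
  rw [hrel']
  fin_cases l
  · refine ⟨2 * n * b.natAbs, Nat.one_le_iff_ne_zero.2 (by positivity),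
      fun i => b.sign * b * α i + b.sign * a i + (-2 * b.sign * b) * β i, ?_⟩
    rw [comb]
    show ((2 * n * b.natAbs : ℕ) : ℤ) • q hΛ (lam 0 x) + _ = 0
    have h3 : ((2 * n * b.natAbs : ℕ) : ℤ) • q hΛ (lam 0 x) +
        ((b.sign * b) • ∑ i, α i • q hΛ (L 2 i x) + b.sign • ∑ i, a i • q hΛ (L 2 i x) +
          (-2 * b.sign * b) • ∑ i, β i • q hΛ (L 2 i x)) =
        b.sign • (b • ((2 * (n : ℤ)) • q hΛ (lam 2 x) + ∑ i, α i • q hΛ (L 2 i x)) +
      ∑ i, a i • q hΛ (L 2 i x)) + (-2 * b.sign * b) • ((n : ℤ) • (q hΛ (lam 2 x) +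
        -q hΛ (lam 0 x)) + ∑ i, β i • q hΛ (L 2 i x)) := by
      push_cast [hs]
      module
    rw [h3, hrC, hrB, smul_zero, smul_zero, add_zero]
  · refine ⟨n * b.natAbs, Nat.one_le_iff_ne_zero.2 (by positivity),
      fun i => (-b.sign) * a i + 0 * α i + 0 * β i, ?_⟩
    rw [comb]
    show ((n * b.natAbs : ℕ) : ℤ) • q hΛ (lam 1 x) + _ = 0
    have h3 : ((n * b.natAbs : ℕ) : ℤ) • q hΛ (lam 1 x) +
        ((-b.sign) • ∑ i, a i • q hΛ (L 2 i x) + (0 : ℤ) • ∑ i, α i • q hΛ (L 2 i x) +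
          (0 : ℤ) • ∑ i, β i • q hΛ (L 2 i x)) =
        (b.sign * b) • ((n : ℤ) • ((2 : ℤ) • q hΛ (lam 2 x) + q hΛ (lam 1 x)) +
      ∑ i, α i • q hΛ (L 2 i x)) + (-b.sign) • (b • ((2 * (n : ℤ)) • q hΛ (lam 2 x) +
        ∑ i, α i • q hΛ (L 2 i x)) + ∑ i, a i • q hΛ (L 2 i x)) := by
      push_cast [hs]
      module
    rw [h3, hrA, hrC, smul_zero, smul_zero, add_zero]
  · refine ⟨2 * n * b.natAbs, Nat.one_le_iff_ne_zero.2 (by positivity),
      fun i => b.sign * b * α i + b.sign * a i + 0 * β i, ?_⟩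
    rw [comb]
    show ((2 * n * b.natAbs : ℕ) : ℤ) • q hΛ (lam 2 x) + _ = 0
    have h3 : ((2 * n * b.natAbs : ℕ) : ℤ) • q hΛ (lam 2 x) +
        ((b.sign * b) • ∑ i, α i • q hΛ (L 2 i x) + b.sign • ∑ i, a i • q hΛ (L 2 i x) +
          (0 : ℤ) • ∑ i, β i • q hΛ (L 2 i x)) =
        b.sign • (b • ((2 * (n : ℤ)) • q hΛ (lam 2 x) + ∑ i, α i • q hΛ (L 2 i x)) +
      ∑ i, a i • q hΛ (L 2 i x)) := by
      push_cast [hs]
      module
    rw [h3, hrC, smul_zero]

end Pool.Agent.CRk
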