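import Pool.Agent.CRk.Targets

set_option autoImplicit false

/-!
# CRk, target FIN: the assembly (MP_cfac66_an, common finite rank)
-/

open MeasureTheory Filter Topology Finset

namespace Pool.Agent.CRk

open Pool.Agent.FSP Pool.Agent.Ind3

universe u

namespace FIN_

variable {Ω : Type u} [MeasurableSpace Ω]

/-- The condition on the rank passes to subsets. -/
theorem rk_mono {μ : Measure Ω} {Q : Fin 3 → Ω → Ω} {Λ : Set Circle} {Z Z' : Set Ω} {k : ℕ}
    (h : Rk μ Q Λ Z k) (hZ : Z' ⊆ Z) : Rk μ Q Λ Z' k := by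
  intro V L hVL
  filter_upwards [h V L hVL] with x hx hxZ
  exact hx (hZ hxZ)

/-- Independence passes to subsets. -/
theorem ifam_mono {μ : Measure Ω} {Q : Fin 3 → Ω → Ω} {Λ : Set Circle} {X X' : Set Ω} {r : ℕ}
    {V : Fin 3 → Fin r → Ω → ℂ} {L : Fin 3 → Fin r → Ω → Circle}
    (h : IFam μ Q Λ X r V L) (hX : X' ⊆ X) : IFam μ Q Λ X' r V L :=
  ⟨h.1, fun x hx => h.2 x (hX hx)⟩

/-- The members of the list are measurable. -/
theorem lst_meas {r : ℕ} {ω : Fin r → Ω → Circle} (e : ℕ → Circle)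
    (h : ∀ i, Measurable (ω i)) (j : ℕ) : Measurable (lst r ω e j) := by
  by_cases hj : j < r
  · have : lst r ω e j = ω ⟨j, hj⟩ := by
      funext x
      simp only [lst, dif_pos hj]
    rw [this]
    exact h _
  · have : lst r ω e j = fun _ => e (j - r) := by
      funext x
      simp only [lst, dif_neg hj]
    rw [this]
    exact measurable_const

omit [MeasurableSpace Ω] in
/-- The members of the list are equal at two points where the first `r` are. -/
theorem lst_eq {r : ℕ} {ω ω' : Fin r → Ω → Circle} (e : ℕ → Circle) {x y : Ω}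
    (h : ∀ i, ω i x = ω' i y) (j : ℕ) : lst r ω e j x = lst r ω' e j y := by
  by_cases hj : j < r
  · simp only [lst, dif_pos hj]
    exact h _
  · simp only [lst, dif_neg hj]

end FIN_

open FIN_

/-- FIN: multiple recurrence for three maps whose common generalised eigenvalues have finite rank,
from the maximal family (MXR), constant quotients (CON), maximality (EXT) and the theorem for a
list (CRG). -/
theorem p_FIN : T_MXR.{u} → T_CON.{u} → T_EXT.{u} → T_CRG.{u} → T_FIN.{u} := by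
  intro hMXR hCON hEXT hCRG Ω _ μ _ Q Q' hQ hQ' hQ'Q hQQ' Λ Z k hΛ hZ hRk A hA hAZ
  obtain ⟨r, X, V, L, hXZ, hXm, hX0, hIF, hmax⟩ := hMXR Ω μ Q Λ (A ∩ Z) k hΛ
    (hA.inter hZ) hAZ (rk_mono hRk Set.inter_subset_right)
  obtain ⟨X', z, hX'X, hX'm, hX'0, hz, hzL⟩ := hCON Ω μ Q Λ X r V L hΛ hXm hX0 hIF
  obtain ⟨e, he⟩ := hΛ.1.exists_eq_range ⟨1, hΛ.2.1⟩
  have he1 : ∀ n, e n ∈ Λ := fun n => by rw [he]; exact Set.mem_range_self n
  have he2 : ∀ ζ ∈ Λ, ∃ n, e n = ζ := fun ζ hζ => by rw [he] at hζ; exact hζ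
  have hIF' : IFam μ Q Λ X' r V L := ifam_mono hIF hX'X
  have hMR : MaxR μ Q (lst r (fun i x => z 0 i * L 0 i x) e) X' :=
    hEXT Ω μ Q Λ X' r V L z e hΛ he1 he2 hX'm hIF' hz hzL
      (fun Y V' L' hY hYm hYI => hmax Y V' L' (hY.trans hX'X) hYm hYI)
  have hAdm : Adm μ Q (fun l => lst r (fun i x => z l i * L l i x) e) X' := by
    refine ⟨hQ, fun l j => ?_, fun l j x => ?_, hX'm, fun l j x hx => ?_⟩
    · exact lst_meas e (fun i => (measurable_const.mul (hIF.1 l i).2.1)) j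
    · exact lst_eq e (fun i => by rw [(hIF.1 l i).2.2.1 x]) j
    · exact lst_eq e (fun i => by rw [hzL x hx l i, hzL x hx 0 i]) j
  exact hCRG Ω μ Q Q' (fun l => lst r (fun i x => z l i * L l i x) e) X' hAdm hQ' hQ'Q hQQ' hMR
    hX'0 A hA (fun x hx => (hXZ (hX'X hx)).1)

end Pool.Agent.CRk
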