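import Pool.Agent.CRk.Targets

set_option autoImplicit false

/-!
# CRk, target GTF: a relatively weakly mixing function does not contribute.
-/

open MeasureTheory Filter Topology Finset

namespace Pool.Agent.CRk

open Pool.Agent.FSP Pool.Agent.Ind3

universe u

namespace GTF_

variable {Ω : Type u} [MeasurableSpace Ω]

theorem integrable_avg3 {μ : Measure Ω} (N : ℕ) (F : (Fin 3 → ℕ) → Ω → ℝ)
    (hF : ∀ y, Integrable (F y) μ) : Integrable (fun x => avg3 N (fun y => F y x)) μ := by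
  unfold avg3 mean
  refine (integrable_finsetSum _ fun a _ => ?_).const_mul _
  refine (integrable_finsetSum _ fun b _ => ?_).const_mul _
  exact (integrable_finsetSum _ fun c _ => hF _).const_mul _

theorem core {μ : Measure Ω} [IsProbabilityMeasure μ] {Q : Fin 3 → Ω → Ω} {θ : ℕ → Ω → Circle}
    (X : Set Ω) (hQ : ∀ l, Measurable (Q l)) (hθ : ∀ j, Measurable (θ j)) (q m K : ℕ)
    (hq : 1 ≤ q) (hm : 1 ≤ m) (f : Fin 3 → Ω → ℝ) (hf : ∀ l, Measurable (f l))
    (hf1 : ∀ l x, |f l x| ≤ 1) (l i j : Fin 3)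
    (hp : ∀ G : Fin 3 → ℝ, ∏ k, G k = G l * G i * G j) (ti tj : ℕ → ℕ → ℕ)
    (hti : ∀ y, tm i y = ti (y l) (y j)) (htj : ∀ y, tm j y = tj (y l) (y i))
    (hG : GW μ (Q l) l i j (f l)) (ε : ℝ) (hε : 0 < ε) :
    ∃ H : ℕ, 0 < H ∧ ∃ L₀ : ℕ, ∀ L ≥ L₀, |TF μ X (H * L) q m K θ Q f| ≤ ε := by
  obtain ⟨h0, hmeas, -⟩ := f_NWA Ω q m K (fun i : Fin K => θ i) hq hm (fun i => hθ i)
  have hW0 : (0 : ℝ) ≤ q * (m : ℝ) ^ K := by positivity
  generalize hW : (q : ℝ) * (m : ℝ) ^ K = W at h0 hW0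
  obtain ⟨H, hH, L₀, hL⟩ := hG (W ^ 2 + W) ε hε
  refine ⟨H, hH, L₀, fun L hLL => ?_⟩
  have hwb : ∀ n x, |wt q m K θ x n| ≤ W := fun n x => by
    have h := h0 x n
    rw [wt, abs_of_nonneg h.1]
    exact h.2
  have hwm : ∀ n, Measurable (fun x => wt q m K θ x n) := hmeas
  have key := hL L hLL
    (fun a b x => wt q m K θ x a * wt q m K θ x b * f j ((Q j)^[tj a b] x))
    (fun a c x => wt q m K θ x c * f i ((Q i)^[ti a c] x))
    (fun a b => ((hwm a).mul (hwm b)).mul ((hf j).comp ((hQ j).iterate _)))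
    (fun a c => (hwm c).mul ((hf i).comp ((hQ i).iterate _)))
    (fun a b x => by
      rw [abs_mul, abs_mul]
      have h1 := hwb a x
      have h2 := hwb b x
      have h3 := hf1 j ((Q j)^[tj a b] x)
      have h4 : |wt q m K θ x a| * |wt q m K θ x b| ≤ W * W :=
        mul_le_mul h1 h2 (abs_nonneg _) hW0
      have h5 : |wt q m K θ x a| * |wt q m K θ x b| * |f j ((Q j)^[tj a b] x)| ≤ W * W * 1 :=
        mul_le_mul h4 h3 (abs_nonneg _) (by positivity)
      nlinarith)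
    (fun a c x => by
      rw [abs_mul]
      have h5 : |wt q m K θ x c| * |f i ((Q i)^[ti a c] x)| ≤ W * 1 :=
        mul_le_mul (hwb c x) (hf1 i _) (abs_nonneg _) hW0
      nlinarith [sq_nonneg W])
  have hE : ∀ (x : Ω) (y : Fin 3 → ℕ),
      w3 q m K θ x y * ∏ k, f k ((Q k)^[tm k y] x) =
      wt q m K θ x (y l) * wt q m K θ x (y i) * f j ((Q j)^[tj (y l) (y i)] x) *
        (wt q m K θ x (y j) * f i ((Q i)^[ti (y l) (y j)] x)) * f l ((Q l)^[tm l y] x) := by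
    intro x y
    have h1 : w3 q m K θ x y = ∏ k, wt q m K θ x (y k) := by
      rw [Fin.prod_univ_three]
      rfl
    rw [h1, hp, hp, hti y, htj y]
    ring
  simp only [← hE] at key
  have hI : Integrable (fun x => avg3 (H * L)
      (fun y => w3 q m K θ x y * ∏ k, f k ((Q k)^[tm k y] x))) μ := by
    refine integrable_avg3 (H * L) (fun y x => w3 q m K θ x y * ∏ k, f k ((Q k)^[tm k y] x))
      fun y => ?_
    refine Integrable.of_bound (Measurable.aestronglyMeasurable ?_) (W * W * W * 1)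
      (ae_of_all _ fun x => ?_)
    · exact (((hwm _).mul (hwm _)).mul (hwm _)).mul
        (Finset.measurable_prod _ fun k _ => (hf k).comp ((hQ k).iterate _))
    · rw [Real.norm_eq_abs, abs_mul, Finset.abs_prod]
      have h6 : |w3 q m K θ x y| ≤ W * W * W := by
        rw [w3, abs_mul, abs_mul]
        exact mul_le_mul (mul_le_mul (hwb _ x) (hwb _ x) (abs_nonneg _) hW0) (hwb _ x)
          (abs_nonneg _) (by positivity)
      exact mul_le_mul h6 (Finset.prod_le_one (fun k _ => abs_nonneg _) fun k _ => hf1 k _)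
        (Finset.prod_nonneg fun k _ => abs_nonneg _) (by positivity)
  unfold TF
  exact (abs_integral_le_integral_abs.trans
    (setIntegral_le_integral hI.abs (ae_of_all _ fun x => abs_nonneg _))).trans key

omit [MeasurableSpace Ω] in
theorem two_iter (Q : Ω → Ω) (n : ℕ) : (Q ∘ Q)^[n] = Q^[2 * n] := by
  rw [Function.iterate_mul]
  rfl

omit [MeasurableSpace Ω] in
theorem id0 (Q Q' : Ω → Ω) (h : ∀ x, Q (Q' x) = x) (a b : ℕ) (hab : b ≤ 2 * a) (x : Ω) :
    Q^[2 * a - b] x = (Q ∘ Q)^[a] (Q'^[b] x) := by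
  have h1 : Function.LeftInverse Q^[b] Q'^[b] := Function.LeftInverse.iterate h b
  obtain ⟨c, hc⟩ := Nat.exists_eq_add_of_le hab
  have hc' : 2 * a = c + b := by omega
  rw [two_iter, hc', Function.iterate_add_apply, h1 x, Nat.add_sub_cancel]

end GTF_

/-- Target GTF. -/
theorem p_GTF (hGTM : T_GTM.{u}) : T_GTF.{u} := by
  intro Ω _ μ _ Q Q' θ X hA hQ' hl hr q m K hq hm f hf hf1 l hR ε hε
  obtain ⟨hQ, hθ, -, -, -⟩ := hA
  have hQm : ∀ k, Measurable (Q k) := fun k => (hQ k).measurable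
  have hQm' : ∀ k, Measurable (Q' k) := fun k => (hQ' k).measurable
  have hl3 : l = 0 ∨ l = 1 ∨ l = 2 := by
    fin_cases l <;> simp
  rcases hl3 with rfl | rfl | rfl
  · refine GTF_.core X hQm (hθ 0) q m K hq hm f hf hf1 0 2 1 (fun G => ?_)
      (fun a b => 2 * a + b) (fun a b => a + b) (fun y => rfl) (fun y => rfl)
      (hGTM Ω μ (Q 0) (Q 0 ∘ Q 0) (Q' 0) (hQm 0) ((hQm 0).comp (hQm 0)) (hQm' 0) 0 2 1
        (by decide) (by decide) (by decide) (f 0) (hf 0) (hf1 0) (fun y hy x => ?_)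
        (f_GVQ Ω μ (Q 0) (Q' 0) _ _ (hQ 0) (hQ' 0) (hl 0) (hr 0) (Or.inr (Or.inl ⟨rfl, rfl⟩))
          (f 0) (hf 0) (hf1 0) hR)) ε hε
    · rw [Fin.prod_univ_three]
      ring
    · exact GTF_.id0 (Q 0) (Q' 0) (hr 0) (y 2) (y 1) hy x
  · refine GTF_.core X hQm (hθ 0) q m K hq hm f hf hf1 1 0 2 (fun G => ?_)
      (fun a b => 2 * b - a) (fun a b => 2 * b + a) (fun y => rfl) (fun y => rfl)
      (hGTM Ω μ (Q 1) (Q 1) (Q 1) (hQm 1) (hQm 1) (hQm 1) 1 0 2
        (by decide) (by decide) (by decide) (f 1) (hf 1) (hf1 1) (fun y hy x => ?_)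
        (f_GVQ Ω μ (Q 1) (Q' 1) _ _ (hQ 1) (hQ' 1) (hl 1) (hr 1) (Or.inl ⟨rfl, rfl⟩)
          (f 1) (hf 1) (hf1 1) hR)) ε hε
    · rw [Fin.prod_univ_three]
      ring
    · exact Function.iterate_add_apply (Q 1) (y 0) (y 2) x
  · refine GTF_.core X hQm (hθ 0) q m K hq hm f hf hf1 2 0 1 (fun G => ?_)
      (fun a b => 2 * a - b) (fun a b => b + a) (fun y => rfl) (fun y => rfl)
      (hGTM Ω μ (Q 2) (Q 2 ∘ Q 2) (Q 2) (hQm 2) ((hQm 2).comp (hQm 2)) (hQm 2) 2 0 1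
        (by decide) (by decide) (by decide) (f 2) (hf 2) (hf1 2) (fun y hy x => ?_)
        (f_GVQ Ω μ (Q 2) (Q' 2) _ _ (hQ 2) (hQ' 2) (hl 2) (hr 2) (Or.inr (Or.inr ⟨rfl, rfl⟩))
          (f 2) (hf 2) (hf1 2) hR)) ε hε
    · rw [Fin.prod_univ_three]
      ring
    · rw [GTF_.two_iter]
      exact Function.iterate_add_apply (Q 2) (2 * y 0) (y 1) x

end Pool.Agent.CRk
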