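import Pool.Agent.CRk.Targets

/-!
# CRk: van der Corput for the triple averages (GTM)
-/

set_option autoImplicit false

open MeasureTheory Filter Topology Finset

namespace Pool.Agent.CRk

open Pool.Agent.FSP Pool.Agent.Ind3

universe u

open Pool.Agent.Ind3.GTW_ in
theorem p_GTM : T_GTM.{u} := by
  intro Ω _ μ _ Q B P hQ hB hP l i j hli hlj hij g hg hg1 hmv hGV W ε hε
  set D : ℝ := |W| with hD
  have hD0 : 0 ≤ D := abs_nonneg _
  obtain ⟨H, hH, L₀, hL₀⟩ := hGV 1 D ε le_rfl hε
  refine ⟨H, hH, L₀, fun L hL u v hu hv hu1 hv1 => ?_⟩
  have hu2 : ∀ a c x, |u a c x| ≤ D := fun a c x => (hu1 a c x).trans (le_abs_self W)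
  have hv2 : ∀ a b x, |v a b x| ≤ D := fun a b x => (hv1 a b x).trans (le_abs_self W)
  -- the double means
  set Φ : ℕ → Ω → ℝ := fun a x =>
    |mean (H * L) (off j * (H * L)) fun b => mean (H * L) (off i * (H * L)) fun c =>
      u a c x * v a b x * g (B^[1 * c] (P^[1 * b] x))| with hΦ
  have hΦm : ∀ a, Measurable (Φ a) := by
    intro a
    refine Measurable.abs ?_
    refine mean_meas fun b => mean_meas fun c => ?_
    exact ((hu a c).mul (hv a b)).mul (hg.comp ((hB.iterate _).comp (hP.iterate _)))
  have hΦb : ∀ a x, |Φ a x| ≤ D * D := by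
    intro a x
    rw [hΦ, abs_abs]
    refine abs_mean_le (by positivity) fun b => abs_mean_le (by positivity) fun c => ?_
    rw [abs_mul, abs_mul]
    calc |u a c x| * |v a b x| * |g (B^[1 * c] (P^[1 * b] x))| ≤ (D * D) * 1 := by
            refine mul_le_mul (mul_le_mul (hu2 a c x) (hv2 a b x)
              (abs_nonneg _) hD0) (hg1 _) (abs_nonneg _) (by positivity)
      _ = D * D := mul_one _
  have hΦi : ∀ a, Integrable (Φ a) μ := fun a =>
    Integrable.of_bound (hΦm a).aestronglyMeasurable (D * D)
      (Eventually.of_forall fun x => by rw [Real.norm_eq_abs]; exact hΦb a x)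
  have hΦe : ∀ a, ∫ x, Φ a x ∂μ ≤ ε := by
    intro a
    exact hL₀ L hL (off i * (H * L)) (off j * (H * L)) (fun c x => u a c x)
      (fun b x => v a b x) (fun c => hu a c) (fun b => hv a b) (fun c x => hu2 a c x)
      (fun b x => hv2 a b x)
  -- pointwise
  have hpt : ∀ x, |avg3 (H * L) fun y =>
      u (y l) (y i) x * v (y l) (y j) x * g (Q^[tm l y] x)| ≤
      mean (H * L) (off l * (H * L)) fun a => Φ a x := by
    intro x
    rw [f_ORD (H * L) _ l j i hlj hli (Ne.symm hij)]
    have h1 : (mean (H * L) (off l * (H * L)) fun a => mean (H * L) (off j * (H * L)) fun b =>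
        mean (H * L) (off i * (H * L)) fun c =>
          u ((fun r => if r = l then a else if r = j then b else c) l)
            ((fun r => if r = l then a else if r = j then b else c) i) x *
          v ((fun r => if r = l then a else if r = j then b else c) l)
            ((fun r => if r = l then a else if r = j then b else c) j) x *
          g (Q^[tm l (fun r => if r = l then a else if r = j then b else c)] x)) =
        mean (H * L) (off l * (H * L)) fun a =>
          mean (H * L) (off j * (H * L)) fun b => mean (H * L) (off i * (H * L)) fun c =>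
          u a c x * v a b x * g (B^[1 * c] (P^[1 * b] x)) := by
      refine mean_congr fun a ha1 ha2 => ?_
      refine mean_congr fun b hb1 hb2 => ?_
      refine mean_congr fun c hc1 hc2 => ?_
      have hyl : (fun r => if r = l then a else if r = j then b else c) l = a := by simp
      have hyj : (fun r => if r = l then a else if r = j then b else c) j = b := by
        simp [Ne.symm hlj]
      have hyi : (fun r => if r = l then a else if r = j then b else c) i = c := by
        simp [Ne.symm hli, hij]
      set y : Fin 3 → ℕ := fun r => if r = l then a else if r = j then b else c with hy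
      have hw : ∀ r : Fin 3, off r * (H * L) ≤ y r ∧ y r < off r * (H * L) + H * L := by
        intro r
        have h3 : r = l ∨ r = j ∨ r = i := cases_three l j i r hlj hli (Ne.symm hij)
        rcases h3 with h3 | h3 | h3
        · rw [h3, hyl]
          exact ⟨ha1, ha2⟩
        · rw [h3, hyj]
          exact ⟨hb1, hb2⟩
        · rw [h3, hyi]
          exact ⟨hc1, hc2⟩
      have h4 : y 1 ≤ 2 * y 2 := by
        have h5 := hw 1
        have h6 := hw 2
        simp only [off, Matrix.cons_val_one, Matrix.cons_val] at h5 h6
        omega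
      rw [hyl, hyj, hyi, hmv y h4 x, hyi, hyj, one_mul, one_mul]
    rw [h1]
    exact abs_mean
  calc ∫ x, |avg3 (H * L) fun y =>
        u (y l) (y i) x * v (y l) (y j) x * g (Q^[tm l y] x)| ∂μ
      ≤ ∫ x, mean (H * L) (off l * (H * L)) (fun a => Φ a x) ∂μ :=
        integral_mono_of_nonneg (Eventually.of_forall fun x => abs_nonneg _)
          (mean_integrable fun a => hΦi a) (Eventually.of_forall hpt)
    _ = mean (H * L) (off l * (H * L)) fun a => ∫ x, Φ a x ∂μ := mean_integral fun a => hΦi a
    _ ≤ ε := mean_le hε.le fun a => hΦe a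

end Pool.Agent.CRk
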