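import Pool.Agent.CRk.Targets

/-!
# CRk: the target T_KAP (almost periodic functions are limits of sums of eigenfunctions)
-/

set_option autoImplicit false

open MeasureTheory Filter Topology Finset

namespace Pool.Agent.CRk

open Pool.Agent.FSP Pool.Agent.Ind3

universe u

namespace KAP_

section

variable {Ω : Type u} [MeasurableSpace Ω] {μ : Measure Ω}

theorem int_sq {f : Ω → ℂ} (hf : MemLp f 2 μ) : Integrable (fun x => ‖f x‖ ^ 2) μ :=
  (memLp_two_iff_integrable_sq_norm hf.1).1 hf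

theorem two_add {f g : Ω → ℂ} (hf : MemLp f 2 μ) (hg : MemLp g 2 μ) {a b : ℝ}
    (ha : ∫ x, ‖f x‖ ^ 2 ∂μ ≤ a) (hb : ∫ x, ‖g x‖ ^ 2 ∂μ ≤ b) :
    ∫ x, ‖f x + g x‖ ^ 2 ∂μ ≤ 2 * a + 2 * b := by
  have h1 := int_sq hf
  have h2 := int_sq hg
  have h3 := int_sq (hf.add hg)
  have h4 : ∫ x, ‖f x + g x‖ ^ 2 ∂μ ≤ ∫ x, (2 * ‖f x‖ ^ 2 + 2 * ‖g x‖ ^ 2) ∂μ := by
    refine integral_mono h3 ((h1.const_mul 2).add (h2.const_mul 2)) fun x => ?_
    show ‖f x + g x‖ ^ 2 ≤ 2 * ‖f x‖ ^ 2 + 2 * ‖g x‖ ^ 2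
    have h5 := norm_add_le (f x) (g x)
    have h6 := norm_nonneg (f x + g x)
    have h7 : ‖f x + g x‖ ^ 2 ≤ (‖f x‖ + ‖g x‖) ^ 2 := pow_le_pow_left₀ h6 h5 2
    nlinarith [sq_nonneg (‖f x‖ - ‖g x‖)]
  rw [integral_add (h1.const_mul 2) (h2.const_mul 2), integral_const_mul,
    integral_const_mul] at h4
  linarith

theorem sum_le {ι : Type} [Fintype ι] {f : ι → Ω → ℂ} (hf : ∀ i, MemLp (f i) 2 μ) {a : ℝ}
    (ha : ∀ i, ∫ x, ‖f i x‖ ^ 2 ∂μ ≤ a) :
    ∫ x, ‖∑ i, f i x‖ ^ 2 ∂μ ≤ (Fintype.card ι : ℝ) * (Fintype.card ι * a) := by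
  have h1 : ∀ i, Integrable (fun x => ‖f i x‖ ^ 2) μ := fun i => int_sq (hf i)
  have h2 : MemLp (fun x => ∑ i, f i x) 2 μ := memLp_finset_sum _ fun i _ => hf i
  have h3 := int_sq h2
  have h4 : Integrable (fun x => ∑ i, ‖f i x‖ ^ 2) μ := integrable_finset_sum _ fun i _ => h1 i
  have h5 : ∫ x, ‖∑ i, f i x‖ ^ 2 ∂μ ≤ ∫ x, (Fintype.card ι : ℝ) * ∑ i, ‖f i x‖ ^ 2 ∂μ := by
    refine integral_mono h3 (h4.const_mul _) fun x => ?_
    show ‖∑ i, f i x‖ ^ 2 ≤ (Fintype.card ι : ℝ) * ∑ i, ‖f i x‖ ^ 2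
    have h6 : ‖∑ i, f i x‖ ≤ ∑ i, ‖f i x‖ := norm_sum_le _ _
    have h7 : ‖∑ i, f i x‖ ^ 2 ≤ (∑ i, ‖f i x‖) ^ 2 :=
      pow_le_pow_left₀ (norm_nonneg _) h6 2
    have h8 : (∑ i, ‖f i x‖) ^ 2 ≤ (#(univ : Finset ι) : ℝ) * ∑ i, ‖f i x‖ ^ 2 :=
      sq_sum_le_card_mul_sum_sq
    rw [Finset.card_univ] at h8
    exact h7.trans h8
  rw [integral_const_mul, integral_finset_sum _ fun i _ => h1 i] at h5
  refine h5.trans (mul_le_mul_of_nonneg_left ?_ (Nat.cast_nonneg _))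
  have h9 : ∑ i, ∫ x, ‖f i x‖ ^ 2 ∂μ ≤ ∑ _i : ι, a := Finset.sum_le_sum fun i _ => ha i
  simpa using h9

end

end KAP_

open KAP_ in
theorem p_KAP (hTRU : T_TRU.{u}) (hKER : T_KER.{u}) (hLIM : T_LIM.{u}) (hROO : T_ROO.{u}) :
    T_KAP.{u} := by
  intro Ω _ μ _ Q hQ F hF c hcm hc0 hc1 hAPF ε hε
  set δ : ℝ := min 1 (ε / 60) with hδ
  have hδ0 : 0 < δ := lt_min one_pos (by positivity)
  have hδ1 : δ ≤ 1 := min_le_left _ _
  have hδε : 60 * δ ≤ ε := by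
    have : δ ≤ ε / 60 := min_le_right _ _
    linarith
  obtain ⟨p, hpm, hp0, hp1, hcp, hAP⟩ := hAPF δ hδ0
  obtain ⟨q, hq, ρ, hρ, d, τ, hτF, hb⟩ := hAP δ hδ0
  have hτm : ∀ l, Measurable (τ l) := fun l => (hF (hτF l)).1
  have hτQ : ∀ l x, τ l (Q x) = τ l x := fun l => (hF (hτF l)).2
  have hS : MeasurePreserving Q^[q] μ μ := hQ.iterate q
  have hτS : ∀ l x, τ l (Q^[q] x) = τ l x := by
    intro l x
    have h1 : ∀ k : ℕ, τ l (Q^[k] x) = τ l x := by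
      intro k
      induction k with
      | zero => rfl
      | succ k ih => rw [Function.iterate_succ_apply', hτQ, ih]
    exact h1 q
  obtain ⟨m, hm, N₀, hN₀⟩ := hKER Ω μ Q^[q] hS d τ hτm p hpm hp0 hp1 δ ρ hδ0 hδ1 hρ (by
    intro n
    rw [← Function.iterate_mul]
    exact hb n)
  have hpa : ∀ x, |p x| ≤ 1 := fun x => by
    rw [abs_of_nonneg (hp0 x)]
    exact hp1 x
  obtain ⟨ι, hι, G, χ, hG, hGi, hχ, hlim⟩ := hLIM Ω μ Q^[q] hS m d τ hm hτm hτS p hpm hpa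
  obtain ⟨N₁, hN₁⟩ := hlim δ hδ0
  set N := max N₀ N₁ with hN
  have hK1 := hN₀ N (le_max_left _ _)
  have hK2 := hN₁ N (le_max_right _ _)
  have hχQ : ∀ i x, χ i (Q x) = χ i x := fun i => hχ i Q hτQ
  choose v lam hv hvi hvG using fun i => hROO Ω μ Q hQ q hq (G i) (χ i) (hG i) (hχQ i) (hGi i)
  set n : ℕ := Fintype.card (ι × Fin q) with hn
  set ε₁ : ℝ := δ / ((n : ℝ) + 1) ^ 2 with hε₁
  have hε₁0 : 0 < ε₁ := by positivity
  choose K v' hv' hK' _ hd using fun (i : ι) (t : Fin q) =>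
    hTRU Ω μ Q hQ (v i t) (lam i t) (hv i t) (hvi i t) ε₁ hε₁0
  refine ⟨ι × Fin q, inferInstance, fun j => v' j.1 j.2, fun j => lam j.1 j.2,
    ∑ j : ι × Fin q, |K j.1 j.2|, fun j => hv' j.1 j.2, ?_, fun _ => trivial, ?_⟩
  · rintro ⟨i, t⟩ x
    refine (hK' i t x).trans ((le_abs_self _).trans ?_)
    exact Finset.single_le_sum (f := fun j : ι × Fin q => |K j.1 j.2|)
      (fun j _ => abs_nonneg _) (Finset.mem_univ (i, t))
  -- the four differences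
  have hW := Pool.Agent.FSP.f_NWA.{u} Ω 1 m d τ le_rfl hm hτm
  obtain ⟨hW1, hW2, -⟩ := hW
  set W : Ω → ℝ := fun x => wav Q^[q] (nw 1 m τ) p N 0 x with hWd
  have hWm : Measurable W := by
    rw [hWd]
    unfold wav
    refine Measurable.const_mul (Finset.measurable_sum _ fun k _ => ?_) _
    exact (hW2 _).mul (hpm.comp (hS.measurable.iterate _))
  have hWb : ∀ x, |W x| ≤ (m : ℝ) ^ d := by
    intro x
    rw [hWd]
    unfold wav
    simp only
    rcases Nat.eq_zero_or_pos N with h0 | h0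
    · rw [h0]
      simp
    have hN0 : (0 : ℝ) < N := by exact_mod_cast h0
    rw [abs_mul, abs_of_pos (inv_pos.2 hN0)]
    have h1 : |∑ k ∈ range N, nw 1 m τ x (0 + k) * p ((Q^[q])^[0 + k] x)| ≤
        ∑ _k ∈ range N, (m : ℝ) ^ d := by
      refine (Finset.abs_sum_le_sum_abs _ _).trans (Finset.sum_le_sum fun k _ => ?_)
      rw [abs_mul]
      have h2 := hW1 x (0 + k)
      rw [abs_of_nonneg h2.1]
      have h3 := hpa ((Q^[q])^[0 + k] x)
      have h4 := h2.2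
      rw [Nat.cast_one, one_mul] at h4
      calc nw 1 m τ x (0 + k) * |p ((Q^[q])^[0 + k] x)| ≤ (m : ℝ) ^ d * 1 :=
            mul_le_mul h4 h3 (abs_nonneg _) (by positivity)
        _ = (m : ℝ) ^ d := mul_one _
    rw [Finset.sum_const, card_range, nsmul_eq_mul] at h1
    calc (N : ℝ)⁻¹ * |∑ k ∈ range N, nw 1 m τ x (0 + k) * p ((Q^[q])^[0 + k] x)| ≤
          (N : ℝ)⁻¹ * (N * (m : ℝ) ^ d) := mul_le_mul_of_nonneg_left h1 (inv_pos.2 hN0).le
      _ = (m : ℝ) ^ d := by rw [← mul_assoc, inv_mul_cancel₀ hN0.ne', one_mul]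
  have hcL : MemLp (fun x => ((c x : ℝ) : ℂ)) 2 μ :=
    MemLp.of_bound (Complex.measurable_ofReal.comp hcm).aestronglyMeasurable 1
      (Eventually.of_forall fun x => by
        rw [Complex.norm_real, Real.norm_eq_abs, abs_of_nonneg (hc0 x)]
        exact hc1 x)
  have hpL : MemLp (fun x => ((p x : ℝ) : ℂ)) 2 μ :=
    MemLp.of_bound (Complex.measurable_ofReal.comp hpm).aestronglyMeasurable 1
      (Eventually.of_forall fun x => by
        rw [Complex.norm_real, Real.norm_eq_abs]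
        exact hpa x)
  have hWL : MemLp (fun x => ((W x : ℝ) : ℂ)) 2 μ :=
    MemLp.of_bound (Complex.measurable_ofReal.comp hWm).aestronglyMeasurable ((m : ℝ) ^ d)
      (Eventually.of_forall fun x => by
        rw [Complex.norm_real, Real.norm_eq_abs]
        exact hWb x)
  have hGL : ∀ i, MemLp (G i) 2 μ := fun i =>
    (memLp_two_iff_integrable_sq_norm (hG i).1.aestronglyMeasurable).2 (hGi i)
  have hvL : ∀ i t, MemLp (v i t) 2 μ := fun i t =>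
    (memLp_two_iff_integrable_sq_norm (hv i t).1.aestronglyMeasurable).2 (hvi i t)
  have hv'L : ∀ i t, MemLp (v' i t) 2 μ := fun i t =>
    MemLp.of_bound (hv' i t).1.aestronglyMeasurable (K i t)
      (Eventually.of_forall fun x => hK' i t x)
  have hGs : MemLp (fun x => ∑ i, G i x) 2 μ := memLp_finset_sum _ fun i _ => hGL i
  have e1 : ∫ x, ‖((c x : ℝ) : ℂ) - ((p x : ℝ) : ℂ)‖ ^ 2 ∂μ ≤ δ := by
    refine le_trans (integral_mono (int_sq (hcL.sub hpL)) (g := fun x => |c x - p x|) ?_ ?_) hcp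
    · refine Integrable.abs ?_
      refine Integrable.of_bound (hcm.sub hpm).aestronglyMeasurable 1
        (Eventually.of_forall fun x => ?_)
      rw [Real.norm_eq_abs, abs_le]
      have h1 := hc0 x
      have h2 := hc1 x
      have h3 := hp0 x
      have h4 := hp1 x
      show -1 ≤ c x - p x ∧ c x - p x ≤ 1
      constructor <;> linarith
    · intro x
      show ‖((c x : ℝ) : ℂ) - ((p x : ℝ) : ℂ)‖ ^ 2 ≤ |c x - p x|
      rw [← Complex.ofReal_sub, Complex.norm_real, Real.norm_eq_abs]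
      have h1 := hc0 x
      have h2 := hc1 x
      have h3 := hp0 x
      have h4 := hp1 x
      have h5 : |c x - p x| ≤ 1 := by
        rw [abs_le]
        constructor <;> linarith
      have h6 := abs_nonneg (c x - p x)
      nlinarith
  have e2 : ∫ x, ‖((p x : ℝ) : ℂ) - ((W x : ℝ) : ℂ)‖ ^ 2 ∂μ ≤ 12 * δ := by
    refine le_trans (le_of_eq ?_) hK1
    refine integral_congr_ae (Eventually.of_forall fun x => ?_)
    show ‖((p x : ℝ) : ℂ) - ((W x : ℝ) : ℂ)‖ ^ 2 = (W x - p x) ^ 2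
    rw [← Complex.ofReal_sub, Complex.norm_real, Real.norm_eq_abs, sq_abs]
    ring
  have e3 : ∫ x, ‖((W x : ℝ) : ℂ) - ∑ i, G i x‖ ^ 2 ∂μ ≤ δ := hK2
  have e4 : ∫ x, ‖∑ i, G i x - ∑ j : ι × Fin q, v' j.1 j.2 x‖ ^ 2 ∂μ ≤ δ := by
    have h1 : ∫ x, ‖∑ i, G i x - ∑ j : ι × Fin q, v' j.1 j.2 x‖ ^ 2 ∂μ =
        ∫ x, ‖∑ j : ι × Fin q, (v j.1 j.2 x - v' j.1 j.2 x)‖ ^ 2 ∂μ := by
      refine integral_congr_ae ?_
      have h2 : ∀ᵐ x ∂μ, ∀ i, G i x = ∑ t, v i t x := ae_all_iff.2 hvG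
      filter_upwards [h2] with x hx
      rw [Finset.sum_sub_distrib]
      congr 3
      rw [Fintype.sum_prod_type]
      exact Finset.sum_congr rfl fun i _ => hx i
    rw [h1]
    have h3 := sum_le (μ := μ) (f := fun (j : ι × Fin q) x => v j.1 j.2 x - v' j.1 j.2 x)
      (fun j => (hvL j.1 j.2).sub (hv'L j.1 j.2)) (a := ε₁) (fun j => hd j.1 j.2)
    refine h3.trans ?_
    rw [← hn, hε₁]
    have h4 : (0 : ℝ) < ((n : ℝ) + 1) ^ 2 := by positivity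
    rw [← mul_assoc, mul_div_assoc', div_le_iff₀ h4]
    have h5 : (n : ℝ) * n ≤ ((n : ℝ) + 1) ^ 2 := by
      have : (0 : ℝ) ≤ n := Nat.cast_nonneg _
      nlinarith
    nlinarith
  have hv's : MemLp (fun x => ∑ j : ι × Fin q, v' j.1 j.2 x) 2 μ :=
    memLp_finset_sum _ fun j _ => hv'L j.1 j.2
  have e12 := two_add (hcL.sub hpL) (hpL.sub hWL) e1 e2
  have e34 := two_add (hWL.sub hGs) (hGs.sub hv's) e3 e4
  have e := two_add ((hcL.sub hpL).add (hpL.sub hWL)) ((hWL.sub hGs).add (hGs.sub hv's))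
    e12 e34
  refine le_trans (le_of_eq ?_) (e.trans ?_)
  · refine integral_congr_ae (Eventually.of_forall fun x => ?_)
    show ‖((c x : ℝ) : ℂ) - ∑ j : ι × Fin q, v' j.1 j.2 x‖ ^ 2 = _
    congr 2
    simp only [Pi.add_apply, Pi.sub_apply]
    ring
  · linarith

end Pool.Agent.CRk
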