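import Pool.Agent.CRk.Targets

/-!
# CRk, KER: kernel averages of an almost periodic function approximate it
-/

set_option autoImplicit false

open MeasureTheory Filter Topology Finset

namespace Pool.Agent.CRk

open Pool.Agent.FSP Pool.Agent.Ind3

universe u

namespace KER_

variable {Ω : Type u}

theorem bohr_meas [MeasurableSpace Ω] {d : ℕ} {τ : Fin d → Ω → Circle}
    (hτ : ∀ l, Measurable (τ l)) (ρ : ℝ) (n : ℕ) : MeasurableSet (bohr τ ρ n) := by
  have h1 : bohr τ ρ n = ⋂ l, {x | ‖(τ l x : ℂ) ^ n - 1‖ ≤ ρ} := by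
    ext x
    simp [bohr]
  rw [h1]
  apply MeasurableSet.iInter
  intro l
  have h2 : Continuous fun z : Circle => ‖(z : ℂ) ^ n - 1‖ :=
    ((continuous_induced_dom.pow n).sub continuous_const).norm
  exact measurableSet_le (h2.measurable.comp (hτ l)) measurable_const

theorem one_nonneg' (X : Set Ω) (x : Ω) : 0 ≤ one X x := by
  unfold one
  exact Set.indicator_nonneg (fun _ _ => zero_le_one) x

theorem one_le' (X : Set Ω) (x : Ω) : one X x ≤ 1 := by
  unfold one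
  exact Set.indicator_le_self' (fun _ _ => zero_le_one) x

theorem wm_bd {w : Ω → ℕ → ℝ} {M : ℝ} {x : Ω} (hM : 0 ≤ M) (h : ∀ n, 0 ≤ w x n ∧ w x n ≤ M)
    (N s : ℕ) : 0 ≤ wm w N s x ∧ wm w N s x ≤ M := by
  unfold wm
  have hN : (0 : ℝ) ≤ (N : ℝ)⁻¹ := by positivity
  refine ⟨mul_nonneg hN (Finset.sum_nonneg fun n _ => (h _).1), ?_⟩
  have h1 : ∑ n ∈ range N, w x (s + n) ≤ N * M := by
    calc ∑ n ∈ range N, w x (s + n) ≤ ∑ _n ∈ range N, M := Finset.sum_le_sum fun n _ => (h _).2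
      _ = N * M := by simp
  rcases Nat.eq_zero_or_pos N with rfl | hN0
  · simpa using hM
  · have hN1 : (0 : ℝ) < N := by exact_mod_cast hN0
    calc (N : ℝ)⁻¹ * ∑ n ∈ range N, w x (s + n) ≤ (N : ℝ)⁻¹ * (N * M) :=
          mul_le_mul_of_nonneg_left h1 hN
      _ = M := by field_simp

theorem wm_meas [MeasurableSpace Ω] {w : Ω → ℕ → ℝ} (h : ∀ n, Measurable fun x => w x n)
    (N s : ℕ) : Measurable fun x => wm w N s x := by
  unfold wm
  exact (Finset.measurable_sum _ fun n _ => h _).const_mul _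

/-- pointwise bound -/
theorem point {S : Ω → Ω} {p : Ω → ℝ} (hp0 : ∀ x, 0 ≤ p x) (hp1 : ∀ x, p x ≤ 1)
    (w : Ω → ℕ → ℝ) (I : ℕ → Set Ω) (N : ℕ) (x : Ω) (hw : ∀ n, 0 ≤ w x n) {ε : ℝ} (hε : 0 ≤ ε)
    (hI : ∀ n, x ∈ I n → |p (S^[n] x) - p x| ≤ ε) :
    |wav S w p N 0 x - p x| ≤ ε * wm w N 0 x +
      wm (fun y n => w y n * one {z | z ∉ I n} y) N 0 x + |wm w N 0 x - 1| := by
  have hN : (0 : ℝ) ≤ (N : ℝ)⁻¹ := by positivity
  have e1 : wav S w p N 0 x - p x =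
      (N : ℝ)⁻¹ * ∑ n ∈ range N, w x (0 + n) * (p (S^[0 + n] x) - p x) +
        p x * (wm w N 0 x - 1) := by
    unfold wav wm
    simp_rw [mul_sub, Finset.sum_sub_distrib, ← Finset.sum_mul]
    ring
  have e2 : |(N : ℝ)⁻¹ * ∑ n ∈ range N, w x (0 + n) * (p (S^[0 + n] x) - p x)| ≤
      ε * wm w N 0 x + wm (fun y n => w y n * one {z | z ∉ I n} y) N 0 x := by
    rw [abs_mul, abs_of_nonneg hN]
    unfold wm
    rw [mul_left_comm, ← mul_add, Finset.mul_sum, ← Finset.sum_add_distrib]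
    refine mul_le_mul_of_nonneg_left ?_ hN
    refine (Finset.abs_sum_le_sum_abs _ _).trans (Finset.sum_le_sum fun n _ => ?_)
    rw [abs_mul, abs_of_nonneg (hw _), zero_add]
    beta_reduce
    by_cases h : x ∈ I n
    · have h1 : one {z | z ∉ I n} x = 0 := by
        unfold one
        exact Set.indicator_of_notMem (by simpa using h) _
      rw [h1, mul_zero, add_zero, mul_comm ε]
      exact mul_le_mul_of_nonneg_left (hI n h) (hw n)
    · have h1 : one {z | z ∉ I n} x = 1 := by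
        unfold one
        exact Set.indicator_of_mem (by simpa using h) _
      rw [h1, mul_one]
      have h2 : |p (S^[n] x) - p x| ≤ 1 := by
        rw [abs_le]
        constructor <;> linarith [hp0 x, hp1 x, hp0 (S^[n] x), hp1 (S^[n] x)]
      nlinarith [hw n, mul_nonneg hε (hw n)]
  have e3 : |p x * (wm w N 0 x - 1)| ≤ |wm w N 0 x - 1| := by
    rw [abs_mul, abs_of_nonneg (hp0 x)]
    exact mul_le_of_le_one_left (abs_nonneg _) (hp1 x)
  rw [e1]
  exact (abs_add_le _ _).trans (add_le_add e2 e3)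

/-- pointwise bound for the square -/
theorem point_sq {S : Ω → Ω} {p : Ω → ℝ} (hp0 : ∀ x, 0 ≤ p x) (hp1 : ∀ x, p x ≤ 1)
    (w : Ω → ℕ → ℝ) (N : ℕ) (x : Ω) {M : ℝ} (hM : 0 ≤ M) (hw : ∀ n, 0 ≤ w x n ∧ w x n ≤ M) :
    (wav S w p N 0 x - p x) ^ 2 ≤ 2 * |wav S w p N 0 x - p x| + (M + 1) * |wm w N 0 x - 1| := by
  have hN : (0 : ℝ) ≤ (N : ℝ)⁻¹ := by positivity
  have h0 : 0 ≤ wav S w p N 0 x := by
    unfold wav
    exact mul_nonneg hN (Finset.sum_nonneg fun n _ => mul_nonneg (hw _).1 (hp0 _))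
  have h1 : wav S w p N 0 x ≤ wm w N 0 x := by
    unfold wav wm
    refine mul_le_mul_of_nonneg_left (Finset.sum_le_sum fun n _ => ?_) hN
    exact mul_le_of_le_one_right (hw _).1 (hp1 _)
  obtain ⟨h2, h3⟩ := wm_bd hM hw N 0
  have h4 : |wav S w p N 0 x - p x| ≤ 2 + |wm w N 0 x - 1| := by
    have := le_abs_self (wm w N 0 x - 1)
    rw [abs_le]
    constructor <;> linarith [hp0 x, hp1 x, abs_nonneg (wm w N 0 x - 1)]
  have h5 : |wav S w p N 0 x - p x| ≤ M + 1 := by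
    rw [abs_le]
    constructor <;> linarith [hp0 x, hp1 x]
  have h6 := abs_nonneg (wm w N 0 x - 1)
  have h7 := abs_nonneg (wav S w p N 0 x - p x)
  rw [← sq_abs]
  nlinarith [mul_le_mul_of_nonneg_left h4 h7, mul_le_mul_of_nonneg_right h5 h6]

end KER_

open KER_ in
theorem p_KER : T_KER.{u} := by
  intro Ω _ μ _ S hS d τ hτ p hpm hp0 hp1 ε ρ hε hε1 hρ hAP
  obtain ⟨m, hm, hmε⟩ : ∃ m : ℕ, 1 ≤ m ∧ (d : ℝ) * (4 / (m * ρ ^ 2)) ≤ ε := by
    obtain ⟨m, hm⟩ := exists_nat_ge ((d : ℝ) * 4 / (ε * ρ ^ 2))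
    refine ⟨m + 1, by omega, ?_⟩
    have h1 : (d : ℝ) * 4 ≤ m * (ε * ρ ^ 2) := by rwa [div_le_iff₀ (by positivity)] at hm
    rw [← mul_div_assoc, div_le_iff₀ (by positivity)]
    push_cast
    have h2 : 0 < ε * ρ ^ 2 := by positivity
    nlinarith
  set w : Ω → ℕ → ℝ := nw 1 m τ with hwdef
  set M : ℝ := (m : ℝ) ^ d with hMdef
  have hM0 : 0 ≤ M := by positivity
  obtain ⟨hA1, hA2, -⟩ := f_NWA.{u} Ω 1 m d τ le_rfl hm hτ
  have hw : ∀ x n, 0 ≤ w x n ∧ w x n ≤ M := by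
    intro x n
    obtain ⟨a, b⟩ := hA1 x n
    exact ⟨a, by simpa using b⟩
  obtain ⟨N1, hN1⟩ := f_NWB.{u} Ω μ 1 m d τ le_rfl hm hτ (ε / (M + 1)) (by positivity)
  obtain ⟨N2, hN2⟩ := f_NWC.{u} Ω μ 1 m d τ le_rfl hm hτ ρ hρ ε hε
  refine ⟨m, hm, max N1 N2, fun N hN => ?_⟩
  have h1 : ∫ x, |wm w N 0 x - 1| ∂μ ≤ ε / (M + 1) :=
    hN1 N (le_of_max_le_left hN) (one_dvd _) 0
  have h2 := hN2 N (le_of_max_le_right hN) (one_dvd _) 0
  simp only [Nat.div_one] at h2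
  set w' : Ω → ℕ → ℝ := fun x n => w x n * one {y | y ∉ bohr τ ρ n} x with hw'def
  have h2' : ∫ x, wm w' N 0 x ∂μ ≤ 2 * ε := by
    refine h2.trans ?_
    linarith
  have hw' : ∀ x n, 0 ≤ w' x n ∧ w' x n ≤ M := by
    intro x n
    have a := hw x n
    have b := one_nonneg' {y | y ∉ bohr τ ρ n} x
    have c := one_le' {y | y ∉ bohr τ ρ n} x
    exact ⟨mul_nonneg a.1 b, (mul_le_of_le_one_right a.1 c).trans a.2⟩
  have hwm : ∀ n, Measurable fun x => w x n := hA2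
  have hw'm : ∀ n, Measurable fun x => w' x n := by
    intro n
    refine (hwm n).mul ?_
    exact measurable_const.indicator (bohr_meas hτ ρ n).compl
  have hi1 : Integrable (fun x => |wm w N 0 x - 1|) μ := by
    refine Integrable.of_bound ((wm_meas hwm N 0).sub_const 1).abs.aestronglyMeasurable (M + 1)
      (Filter.Eventually.of_forall fun x => ?_)
    obtain ⟨a, b⟩ := wm_bd hM0 (hw x) N 0
    rw [Real.norm_eq_abs, abs_abs, abs_le]
    constructor <;> linarith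
  have hi2 : Integrable (fun x => wm w' N 0 x) μ := by
    refine Integrable.of_bound (wm_meas hw'm N 0).aestronglyMeasurable M
      (Filter.Eventually.of_forall fun x => ?_)
    obtain ⟨a, b⟩ := wm_bd hM0 (hw' x) N 0
    rw [Real.norm_eq_abs, abs_of_nonneg a]
    exact b
  have hae : ∀ᵐ x ∂μ, (wav S w p N 0 x - p x) ^ 2 ≤
      2 * ε + 2 * wm w' N 0 x + (M + 5) * |wm w N 0 x - 1| := by
    have hall : ∀ᵐ x ∂μ, ∀ n : ℕ, x ∈ bohr τ ρ n → |p (S^[n] x) - p x| ≤ ε :=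
      ae_all_iff.mpr hAP
    filter_upwards [hall] with x hx
    have a := point hp0 hp1 w (fun n => bohr τ ρ n) N x (fun n => (hw x n).1) hε.le hx
    have b := point_sq (S := S) hp0 hp1 w N x hM0 (hw x)
    have c := le_abs_self (wm w N 0 x - 1)
    have e := abs_nonneg (wm w N 0 x - 1)
    have f : ε * wm w N 0 x ≤ ε + |wm w N 0 x - 1| := by
      nlinarith [mul_le_mul_of_nonneg_right hε1 e, mul_le_mul_of_nonneg_left c hε.le]
    have g : |wav S w p N 0 x - p x| ≤ ε + wm w' N 0 x + 2 * |wm w N 0 x - 1| := by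
      calc _ ≤ _ := a
        _ ≤ _ := by
          show ε * wm w N 0 x + wm w' N 0 x + |wm w N 0 x - 1| ≤ _
          linarith
    nlinarith
  have hg : Integrable (fun x => 2 * ε + 2 * wm w' N 0 x + (M + 5) * |wm w N 0 x - 1|) μ :=
    ((integrable_const _).add (hi2.const_mul 2)).add (hi1.const_mul (M + 5))
  have h3 : ∫ x, (wav S w p N 0 x - p x) ^ 2 ∂μ ≤
      ∫ x, (2 * ε + 2 * wm w' N 0 x + (M + 5) * |wm w N 0 x - 1|) ∂μ :=
    integral_mono_of_nonneg (Filter.Eventually.of_forall fun x => sq_nonneg _) hg hae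
  have h4 : ∫ x, (2 * ε + 2 * wm w' N 0 x + (M + 5) * |wm w N 0 x - 1|) ∂μ =
      2 * ε + 2 * ∫ x, wm w' N 0 x ∂μ + (M + 5) * ∫ x, |wm w N 0 x - 1| ∂μ := by
    have a1 : Integrable (fun x => 2 * ε + 2 * wm w' N 0 x) μ :=
      (integrable_const _).add (hi2.const_mul 2)
    have a2 : Integrable (fun x => (M + 5) * |wm w N 0 x - 1|) μ := hi1.const_mul (M + 5)
    have a3 : Integrable (fun x => 2 * wm w' N 0 x) μ := hi2.const_mul 2
    rw [integral_add a1 a2, integral_add (integrable_const _) a3]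
    simp [integral_const_mul]
  have h5 : (M + 5) * ∫ x, |wm w N 0 x - 1| ∂μ ≤ 5 * ε := by
    calc (M + 5) * ∫ x, |wm w N 0 x - 1| ∂μ ≤ (M + 5) * (ε / (M + 1)) :=
          mul_le_mul_of_nonneg_left h1 (by positivity)
      _ ≤ 5 * ε := by
        rw [← mul_div_assoc, div_le_iff₀ (by positivity)]
        nlinarith [mul_nonneg hM0 hε.le]
  rw [h4] at h3
  linarith

end Pool.Agent.CRk
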