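import Pool.Agent.CRk.Targets

set_option autoImplicit false

/-!
# CRk: LIM, kernel averages converge to a finite sum of generalised eigenfunctions
-/

open MeasureTheory Filter Topology Finset

namespace Pool.Agent.CRk

open Pool.Agent.FSP Pool.Agent.Ind3

universe u

namespace LIM_

variable {Ω : Type u} [MeasurableSpace Ω] {μ : Measure Ω}

/-- The mean ergodic theorem in `L²` for one character. -/
theorem core [IsProbabilityMeasure μ] {S : Ω → Ω} (hS : MeasurePreserving S μ μ)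
    {b : Ω → Circle} (hb : Measurable b) (hbS : ∀ x, b (S x) = b x) {f : Ω → ℝ}
    (hf : Measurable f) (hf1 : ∀ x, |f x| ≤ 1) :
    ∃ H : Ω → ℂ, Measurable H ∧ (∀ᵐ x ∂μ, H x = (b x : ℂ) * H (S x)) ∧
      Integrable (fun x => ‖H x‖ ^ 2) μ ∧
      (∀ N : ℕ, Integrable (fun x => ‖cav S b f N 0 x - H x‖ ^ 2) μ) ∧
      ∀ ε : ℝ, 0 < ε → ∃ N₀ : ℕ, ∀ N ≥ N₀, ∫ x, ‖cav S b f N 0 x - H x‖ ^ 2 ∂μ ≤ ε := by
  obtain ⟨V, F, -, hV, hcav⟩ := p_VOP Ω μ S hS b f hb (ae_of_all _ hbS) hf hf1
  have ht : Tendsto (fun N => MRec.avg V N F) atTop (𝓝 (MRec.proj V F)) := MRec.tendsto_avg V F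
  have hg : ∀ N, ((MRec.avg V N F - MRec.proj V F : Lp ℂ 2 μ) : Ω → ℂ) =ᵐ[μ]
      fun x => cav S b f N 0 x - MRec.proj V F x := by
    intro N
    have h3 := hcav N 0
    have h4 : ((N : ℝ)⁻¹ • ∑ n ∈ range N, V^[0 + n] F : Lp ℂ 2 μ) = MRec.avg V N F := by
      unfold MRec.avg
      simp only [zero_add]
    rw [h4] at h3
    filter_upwards [Lp.coeFn_sub (MRec.avg V N F) (MRec.proj V F), h3] with x e1 e2
    rw [e1, Pi.sub_apply, e2]
  refine ⟨⇑(MRec.proj V F), (Lp.stronglyMeasurable _).measurable, ?_, ?_, ?_, ?_⟩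
  · have h1 := hV (MRec.proj V F)
    rw [MRec.proj_fixed] at h1
    exact h1
  · exact (Lp.memLp (MRec.proj V F)).integrable_norm_pow (by norm_num)
  · intro N
    have h1 := (Lp.memLp (MRec.avg V N F - MRec.proj V F : Lp ℂ 2 μ)).integrable_norm_pow
      (by norm_num)
    refine h1.congr ?_
    filter_upwards [hg N] with x hx
    rw [hx]
  · intro ε hε
    have hn : Tendsto (fun N => ‖MRec.avg V N F - MRec.proj V F‖ ^ 2) atTop (𝓝 0) := by
      have h1 : Tendsto (fun N => MRec.avg V N F - MRec.proj V F) atTop (𝓝 0) := by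
        have := ht.sub_const (MRec.proj V F)
        rwa [sub_self] at this
      have h2 := h1.norm.pow 2
      simpa using h2
    obtain ⟨N₀, hN₀⟩ := (Metric.tendsto_atTop.1 hn) ε hε
    refine ⟨N₀, fun N hN => ?_⟩
    have h1 := hN₀ N hN
    rw [Real.dist_eq, sub_zero] at h1
    rw [← MET_.norm_sq_eq _ _ (hg N)]
    exact ((le_abs_self _).trans_lt h1).le

omit [MeasurableSpace Ω] in
theorem chr_inv {m d : ℕ} {τ : Fin d → Ω → Circle} {Q : Ω → Ω}
    (h : ∀ l x, τ l (Q x) = τ l x) (p : Fin d → Fin m × Fin m) (x : Ω) :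
    chr τ p (Q x) = chr τ p x := by
  unfold chr
  simp only [h]

omit [MeasurableSpace Ω] in
theorem ku_inv {m d : ℕ} {τ : Fin d → Ω → Circle} {Q : Ω → Ω}
    (h : ∀ l x, τ l (Q x) = τ l x) (x : Ω) : ku m τ (Q x) = ku m τ x := by
  unfold ku tu one
  refine Finset.sum_congr rfl fun p _ => ?_
  have e : Q x ∈ {y | chr τ p y = 1} ↔ x ∈ {y | chr τ p y = 1} := by
    show chr τ p (Q x) = 1 ↔ chr τ p x = 1
    rw [chr_inv h]
  by_cases hx : x ∈ {y | chr τ p y = 1}
  · rw [Set.indicator_of_mem hx, Set.indicator_of_mem (e.2 hx)]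
  · rw [Set.indicator_of_notMem hx, Set.indicator_of_notMem (fun h' => hx (e.1 h'))]

omit [MeasurableSpace Ω] in
theorem wav_eq {S : Ω → Ω} {m d : ℕ} {τ : Fin d → Ω → Circle} {f : Ω → ℝ} (N : ℕ) (x : Ω) :
    wav S (nw 1 m τ) f N 0 x =
      ∑ p : Fin d → Fin m × Fin m, kc m d p / ku m τ x * (cav S (chr τ p) f N 0 x).re := by
  have h1 : ∀ n, nw 1 m τ x n = ∑ p, kc m d p / ku m τ x * ((chr τ p x : ℂ) ^ n).re := by
    intro n
    unfold nw
    rw [if_pos (one_dvd n), Nat.div_one, Nat.cast_one, one_mul, p_EXP Ω m d τ x n]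
    unfold tw
    rw [Finset.sum_div]
    exact Finset.sum_congr rfl fun p _ => by ring
  have h2 : ∀ p : Fin d → Fin m × Fin m, (cav S (chr τ p) f N 0 x).re =
      (N : ℝ)⁻¹ * ∑ n ∈ range N, ((chr τ p x : ℂ) ^ (0 + n)).re * f (S^[0 + n] x) := by
    intro p
    unfold cav
    have : ((N : ℂ)⁻¹) = (((N : ℝ)⁻¹ : ℝ) : ℂ) := by push_cast; rfl
    rw [this, Complex.re_ofReal_mul, Complex.re_sum]
    congr 1
    refine Finset.sum_congr rfl fun n _ => ?_
    rw [Complex.re_mul_ofReal]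
  unfold wav
  simp only [h1, h2]
  simp only [Finset.sum_mul, Finset.mul_sum]
  rw [Finset.sum_comm]
  refine Finset.sum_congr rfl fun p _ => Finset.sum_congr rfl fun n _ => ?_
  ring

end LIM_

open LIM_ in
theorem p_LIM : T_LIM.{u} := by
  intro Ω _ μ _ S hS m d τ hm hτ hτS f hf hf1
  have hS1 : Measurable S := hS.measurable
  obtain ⟨-, -, hchr, -, hku, -⟩ := f_NWA Ω 1 m d τ le_rfl hm hτ
  have hku1 : ∀ x, 1 ≤ ku m τ x := fun x => (p_KUB Ω m d τ x hm).1
  have hcore := fun p : Fin d → Fin m × Fin m =>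
    core hS (hchr p) (chr_inv hτS p) hf hf1
  choose H hH1 hH2 hH3 hH4 hH5 using hcore
  have hkc : ∀ p, 0 ≤ kc m d p ∧ kc m d p ≤ 1 := by
    intro p
    unfold kc
    have h1 : (1 : ℝ) ≤ m := by exact_mod_cast hm
    exact ⟨by positivity, pow_le_one₀ (by positivity) (inv_le_one_of_one_le₀ h1)⟩
  set cf : (Fin d → Fin m × Fin m) → Ω → ℝ := fun p x => kc m d p / (2 * ku m τ x) with hcf
  have hcf0 : ∀ p x, 0 ≤ cf p x := fun p x => div_nonneg (hkc p).1 (by linarith [hku1 x])
  have hcf1 : ∀ p x, cf p x ≤ 1 / 2 := by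
    intro p x
    rw [hcf, div_le_div_iff₀ (by linarith [hku1 x]) (by norm_num)]
    linarith [(hkc p).2, hku1 x]
  have hcfm : ∀ p, Measurable (cf p) := fun p => (measurable_const.div (hku.const_mul 2))
  have hcfS : ∀ p x, cf p (S x) = cf p x := fun p x => by simp only [hcf, ku_inv hτS]
  set G : (Fin d → Fin m × Fin m) × Bool → Ω → ℂ := fun i x =>
    if i.2 then (cf i.1 x : ℂ) * H i.1 x else (cf i.1 x : ℂ) * (starRingEnd ℂ) (H i.1 x) with hG
  set χ : (Fin d → Fin m × Fin m) × Bool → Ω → Circle := fun i x =>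
    if i.2 then (chr τ i.1 x)⁻¹ else chr τ i.1 x with hχ
  have hGm : ∀ i, Measurable (G i) := by
    rintro ⟨p, b⟩
    have h1 : Measurable fun x => (cf p x : ℂ) := Complex.measurable_ofReal.comp (hcfm p)
    cases b
    · have h2 : Measurable fun x => (starRingEnd ℂ) (H p x) :=
        Complex.continuous_conj.measurable.comp (hH1 p)
      have h3 : Measurable fun x => (cf p x : ℂ) * (starRingEnd ℂ) (H p x) := h1.mul h2
      simpa [hG] using h3
    · have h3 : Measurable fun x => (cf p x : ℂ) * H p x := h1.mul (hH1 p)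
      simpa [hG] using h3
  have hGn : ∀ i x, ‖G i x‖ ≤ ‖H i.1 x‖ := by
    rintro ⟨p, b⟩ x
    have h1 : ‖(cf p x : ℂ)‖ ≤ 1 := by
      rw [Complex.norm_real, Real.norm_eq_abs, abs_of_nonneg (hcf0 p x)]
      linarith [hcf1 p x]
    have h2 := norm_nonneg (H p x)
    cases b
    · simp only [hG, Bool.false_eq_true, if_false, norm_mul, Complex.norm_conj]
      nlinarith
    · simp only [hG, if_true, norm_mul]
      nlinarith
  refine ⟨(Fin d → Fin m × Fin m) × Bool, inferInstance, G, χ, ?_, ?_, ?_, ?_⟩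
  · rintro ⟨p, b⟩
    refine ⟨hGm _, ?_, ?_, ?_⟩
    · cases b
      · simpa [hχ] using hchr p
      · have : Measurable fun x => (chr τ p x)⁻¹ := continuous_inv.measurable.comp (hchr p)
        simpa [hχ] using this
    · intro x
      simp only [hχ, chr_inv hτS]
    · filter_upwards [hH2 p] with x hx
      have hne : (chr τ p x : ℂ) ≠ 0 := Circle.coe_ne_zero _
      cases b
      · simp only [hG, hχ, Bool.false_eq_true, if_false, hcfS]
        rw [hx, map_mul, ← Circle.coe_inv_eq_conj]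
        rw [Circle.coe_inv]
        field_simp
      · simp only [hG, hχ, if_true, hcfS]
        rw [hx, Circle.coe_inv]
        field_simp
  · intro i
    refine Integrable.mono' (hH3 i.1) ((hGm i).norm.pow_const 2).aestronglyMeasurable ?_
    refine ae_of_all _ fun x => ?_
    rw [Real.norm_eq_abs, abs_of_nonneg (by positivity)]
    exact pow_le_pow_left₀ (norm_nonneg _) (hGn i x) 2
  · rintro ⟨p, b⟩ Q hQ x
    simp only [hχ, chr_inv hQ]
  · intro ε hε
    set c : ℕ := Fintype.card (Fin d → Fin m × Fin m) with hc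
    have hc2 : (0 : ℝ) < (c : ℝ) ^ 2 + 1 := by positivity
    have hδ : 0 < ε / ((c : ℝ) ^ 2 + 1) := div_pos hε hc2
    have hN := fun p => hH5 p (ε / ((c : ℝ) ^ 2 + 1)) hδ
    choose N₀ hN₀ using hN
    refine ⟨∑ p, N₀ p, fun N hN => ?_⟩
    have hle : ∀ p, ∫ x, ‖cav S (chr τ p) f N 0 x - H p x‖ ^ 2 ∂μ ≤ ε / ((c : ℝ) ^ 2 + 1) := by
      intro p
      refine hN₀ p N (le_trans ?_ hN)
      exact Finset.single_le_sum (f := N₀) (fun _ _ => Nat.zero_le _) (Finset.mem_univ p)
    have hpt : ∀ x, ‖((wav S (nw 1 m τ) f N 0 x : ℝ) : ℂ) - ∑ i, G i x‖ ^ 2 ≤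
        c * ∑ p, ‖cav S (chr τ p) f N 0 x - H p x‖ ^ 2 := by
      intro x
      have e1 : ((wav S (nw 1 m τ) f N 0 x : ℝ) : ℂ) - ∑ i, G i x =
          ∑ p, (cf p x : ℂ) * ((cav S (chr τ p) f N 0 x - H p x) +
            (starRingEnd ℂ) (cav S (chr τ p) f N 0 x - H p x)) := by
        rw [wav_eq, Fintype.sum_prod_type]
        simp only [Fintype.sum_bool, hG, if_true, Bool.false_eq_true, if_false]
        rw [Complex.ofReal_sum, ← Finset.sum_sub_distrib]
        refine Finset.sum_congr rfl fun p _ => ?_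
        have e2 : ((kc m d p / ku m τ x * (cav S (chr τ p) f N 0 x).re : ℝ) : ℂ) =
            (cf p x : ℂ) * (cav S (chr τ p) f N 0 x +
              (starRingEnd ℂ) (cav S (chr τ p) f N 0 x)) := by
          rw [Complex.add_conj, ← Complex.ofReal_mul]
          congr 1
          have := hku1 x
          simp only [hcf]
          field_simp
        rw [e2, map_sub]
        ring
      rw [e1]
      have h1 : ‖∑ p, (cf p x : ℂ) * ((cav S (chr τ p) f N 0 x - H p x) +
            (starRingEnd ℂ) (cav S (chr τ p) f N 0 x - H p x))‖ ≤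
          ∑ p, ‖cav S (chr τ p) f N 0 x - H p x‖ := by
        refine (norm_sum_le _ _).trans (Finset.sum_le_sum fun p _ => ?_)
        rw [norm_mul, Complex.norm_real, Real.norm_eq_abs, abs_of_nonneg (hcf0 p x)]
        have h2 : ‖(cav S (chr τ p) f N 0 x - H p x) +
            (starRingEnd ℂ) (cav S (chr τ p) f N 0 x - H p x)‖ ≤
            2 * ‖cav S (chr τ p) f N 0 x - H p x‖ := by
          refine (norm_add_le _ _).trans ?_
          rw [Complex.norm_conj]
          linarith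
        calc cf p x * ‖(cav S (chr τ p) f N 0 x - H p x) +
            (starRingEnd ℂ) (cav S (chr τ p) f N 0 x - H p x)‖
            ≤ 1 / 2 * (2 * ‖cav S (chr τ p) f N 0 x - H p x‖) :=
              mul_le_mul (hcf1 p x) h2 (norm_nonneg _) (by norm_num)
          _ = _ := by ring
      calc _ ≤ (∑ p, ‖cav S (chr τ p) f N 0 x - H p x‖) ^ 2 :=
            pow_le_pow_left₀ (norm_nonneg _) h1 2
        _ ≤ _ := by
            have := sq_sum_le_card_mul_sum_sq (s := (Finset.univ : Finset (Fin d → Fin m × Fin m)))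
              (f := fun p => ‖cav S (chr τ p) f N 0 x - H p x‖)
            rw [Finset.card_univ] at this
            exact this
    have hint : Integrable (fun x => (c : ℝ) *
        ∑ p, ‖cav S (chr τ p) f N 0 x - H p x‖ ^ 2) μ :=
      (integrable_finsetSum _ fun p _ => hH4 p N).const_mul _
    calc ∫ x, ‖((wav S (nw 1 m τ) f N 0 x : ℝ) : ℂ) - ∑ i, G i x‖ ^ 2 ∂μ
        ≤ ∫ x, (c : ℝ) * ∑ p, ‖cav S (chr τ p) f N 0 x - H p x‖ ^ 2 ∂μ :=
          integral_mono_of_nonneg (ae_of_all _ fun x => by positivity) hint (ae_of_all _ hpt)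
      _ = c * ∑ p, ∫ x, ‖cav S (chr τ p) f N 0 x - H p x‖ ^ 2 ∂μ := by
          rw [integral_const_mul, integral_finsetSum _ fun p _ => hH4 p N]
      _ ≤ c * ∑ p : Fin d → Fin m × Fin m, ε / ((c : ℝ) ^ 2 + 1) := by
          gcongr with p _
          exact hle p
      _ = (c : ℝ) ^ 2 * (ε / ((c : ℝ) ^ 2 + 1)) := by
          rw [Finset.sum_const, Finset.card_univ, nsmul_eq_mul]
          ring
      _ ≤ ε := by
          rw [mul_div_assoc', div_le_iff₀ hc2]
          nlinarith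

end Pool.Agent.CRk
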