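import Pool.Agent.CRk.Targets

set_option autoImplicit false

/-!
# CRk, target NCO: generalised eigenfunctions with different eigenvalues are orthogonal.
-/

open MeasureTheory Filter Topology Finset

namespace Pool.Agent.CRk

open Pool.Agent.FSP Pool.Agent.Ind3

universe u

namespace NCO_

theorem int_comp {Ω : Type u} [MeasurableSpace Ω] (μ : Measure Ω) (Q : Ω → Ω)
    (hQ : MeasurePreserving Q μ μ) (f : Ω → ℂ) (hf : Measurable f) :
    ∫ x, f (Q x) ∂μ = ∫ x, f x ∂μ := by
  have h := integral_map (μ := μ) (φ := Q) hQ.measurable.aemeasurable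
    (f := f) hf.aestronglyMeasurable
  rw [hQ.map_eq] at h
  exact h.symm

/-- The core: `h ∘ Q = κ h` with `κ` invariant, and `h = 0` where `κ = 1`. -/
theorem core {Ω : Type u} [MeasurableSpace Ω] (μ : Measure Ω) [IsProbabilityMeasure μ]
    (Q : Ω → Ω) (hQ : MeasurePreserving Q μ μ) (h κ : Ω → ℂ) (hm : Measurable h)
    (hκm : Measurable κ) (C : ℝ) (hC : ∀ x, ‖h x‖ ≤ C) (hκ : ∀ x, κ (Q x) = κ x)
    (hκh : ∀ᵐ x ∂μ, h (Q x) = κ x * h x) (hz : ∀ᵐ x ∂μ, κ x = 1 → h x = 0) :
    ∫ x, h x ∂μ = 0 := by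
  have hint : Integrable h μ :=
    Integrable.of_bound hm.aestronglyMeasurable C (Filter.Eventually.of_forall hC)
  let Y : ℕ → Set Ω := fun n => {x | ((n : ℝ) + 1)⁻¹ < ‖κ x - 1‖}
  have hYm : ∀ n, MeasurableSet (Y n) := fun n =>
    measurableSet_lt measurable_const (hκm.sub_const 1).norm
  have hYi : ∀ n x, Q x ∈ Y n ↔ x ∈ Y n := by
    intro n x
    change (((n : ℝ) + 1)⁻¹ < ‖κ (Q x) - 1‖) ↔ (((n : ℝ) + 1)⁻¹ < ‖κ x - 1‖)
    rw [hκ x]
  have hzero : ∀ n, ∫ x, (Y n).indicator h x ∂μ = 0 := by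
    intro n
    let φ : Ω → ℂ := (Y n).indicator fun x => (κ x - 1)⁻¹
    have hφm : Measurable φ := ((hκm.sub_const 1).inv).indicator (hYm n)
    have hφi : ∀ x, φ (Q x) = φ x := by
      intro x
      change (Y n).indicator (fun x => (κ x - 1)⁻¹) (Q x) =
        (Y n).indicator (fun x => (κ x - 1)⁻¹) x
      by_cases hx : x ∈ Y n
      · rw [Set.indicator_of_mem hx, Set.indicator_of_mem ((hYi n x).2 hx), hκ x]
      · rw [Set.indicator_of_notMem hx,
          Set.indicator_of_notMem (fun hc => hx ((hYi n x).1 hc))]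
    have hpos : (0 : ℝ) < (n : ℝ) + 1 := by positivity
    have hφb : ∀ x, ‖φ x‖ ≤ (n : ℝ) + 1 := by
      intro x
      change ‖(Y n).indicator (fun x => (κ x - 1)⁻¹) x‖ ≤ _
      by_cases hx : x ∈ Y n
      · rw [Set.indicator_of_mem hx, norm_inv]
        have hx' : ((n : ℝ) + 1)⁻¹ < ‖κ x - 1‖ := hx
        have hp : (0 : ℝ) < ((n : ℝ) + 1)⁻¹ := inv_pos.2 hpos
        calc ‖κ x - 1‖⁻¹ ≤ (((n : ℝ) + 1)⁻¹)⁻¹ := inv_anti₀ hp hx'.le
          _ = (n : ℝ) + 1 := inv_inv _
      · rw [Set.indicator_of_notMem hx, norm_zero]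
        exact hpos.le
    have hφh : Measurable fun x => φ x * h x := hφm.mul hm
    have hbd : Integrable (fun x => φ x * h x) μ := by
      refine Integrable.of_bound hφh.aestronglyMeasurable (((n : ℝ) + 1) * C)
        (Filter.Eventually.of_forall fun x => ?_)
      rw [norm_mul]
      exact mul_le_mul (hφb x) (hC x) (norm_nonneg _) hpos.le
    have hC0 : ∀ᵐ x ∂μ, φ (Q x) * h (Q x) = κ x * (φ x * h x) := by
      filter_upwards [hκh] with x hx
      rw [hφi x, hx]
      ring
    have h1 : ∫ x, φ x * h x ∂μ = ∫ x, κ x * (φ x * h x) ∂μ := by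
      rw [← int_comp μ Q hQ (fun x => φ x * h x) hφh]
      exact integral_congr_ae hC0
    have h2 : ∀ x, (Y n).indicator h x = κ x * (φ x * h x) - φ x * h x := by
      intro x
      change _ = κ x * ((Y n).indicator (fun x => (κ x - 1)⁻¹) x * h x) -
        (Y n).indicator (fun x => (κ x - 1)⁻¹) x * h x
      by_cases hx : x ∈ Y n
      · rw [Set.indicator_of_mem hx, Set.indicator_of_mem hx]
        have hx' : ((n : ℝ) + 1)⁻¹ < ‖κ x - 1‖ := hx
        have hne : κ x - 1 ≠ 0 := by
          intro h0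
          rw [h0, norm_zero] at hx'
          exact absurd hx' (not_lt.2 (inv_pos.2 hpos).le)
        field_simp
      · rw [Set.indicator_of_notMem hx, Set.indicator_of_notMem hx]
        ring
    have h3 : Integrable (fun x => κ x * (φ x * h x)) μ := by
      have h4 : Integrable (fun x => (Y n).indicator h x + φ x * h x) μ :=
        (hint.indicator (hYm n)).add hbd
      refine h4.congr (Filter.Eventually.of_forall fun x => ?_)
      change (Y n).indicator h x + φ x * h x = κ x * (φ x * h x)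
      rw [h2 x]
      ring
    calc ∫ x, (Y n).indicator h x ∂μ = ∫ x, (κ x * (φ x * h x) - φ x * h x) ∂μ :=
          integral_congr_ae (Filter.Eventually.of_forall h2)
      _ = ∫ x, κ x * (φ x * h x) ∂μ - ∫ x, φ x * h x ∂μ := integral_sub h3 hbd
      _ = 0 := by rw [← h1, sub_self]
  have hlim : Tendsto (fun n : ℕ => ∫ x, (Y n).indicator h x ∂μ) atTop (𝓝 (∫ x, h x ∂μ)) := by
    refine tendsto_integral_of_dominated_convergence (fun x => ‖h x‖)
      (fun n => (hm.indicator (hYm n)).aestronglyMeasurable) hint.norm ?_ ?_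
    · intro n
      refine Filter.Eventually.of_forall fun x => ?_
      exact norm_indicator_le_norm_self _ _
    · filter_upwards [hz] with x hx
      by_cases h1 : κ x = 1
      · have h0 : h x = 0 := hx h1
        have h2 : ∀ n, (Y n).indicator h x = h x := by
          intro n
          by_cases hy : x ∈ Y n
          · rw [Set.indicator_of_mem hy]
          · rw [Set.indicator_of_notMem hy, h0]
        simp only [h2]
        exact tendsto_const_nhds
      · have hpos : 0 < ‖κ x - 1‖ := norm_pos_iff.2 (sub_ne_zero.2 h1)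
        have hev : ∀ᶠ n : ℕ in atTop, (Y n).indicator h x = h x := by
          have ht : Tendsto (fun n : ℕ => ((n : ℝ) + 1)⁻¹) atTop (𝓝 0) := by
            have := tendsto_one_div_add_atTop_nhds_zero_nat (𝕜 := ℝ)
            simpa [one_div] using this
          filter_upwards [ht.eventually (gt_mem_nhds hpos)] with n hn
          exact Set.indicator_of_mem (show x ∈ Y n from hn) h
        exact tendsto_const_nhds.congr' (hev.mono fun n hn => hn.symm)
  have hconst : Tendsto (fun n : ℕ => ∫ x, (Y n).indicator h x ∂μ) atTop (𝓝 0) := by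
    simp only [hzero]
    exact tendsto_const_nhds
  exact tendsto_nhds_unique hlim hconst

end NCO_

theorem p_NCO : T_NCO := by
  intro Ω _ μ _ Q hQ v v' lam lam' hv hv' hK hne
  obtain ⟨K, hK⟩ := hK
  obtain ⟨hvm, hlm, hli, hve⟩ := hv
  obtain ⟨hvm', hlm', hli', hve'⟩ := hv'
  have hcc : Continuous fun z : Circle => (z : ℂ) := continuous_subtype_val
  have hcl : Measurable fun x => (lam x : ℂ) := hcc.measurable.comp hlm
  have hcl' : Measurable fun x => (lam' x : ℂ) := hcc.measurable.comp hlm'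
  have hunit : ∀ z : Circle, (z : ℂ) * (starRingEnd ℂ) (z : ℂ) = 1 := by
    intro z
    rw [Complex.mul_conj, Complex.normSq_eq_norm_sq, Circle.norm_coe]
    norm_num
  refine NCO_.core μ Q hQ (fun x => v x * (starRingEnd ℂ) (v' x))
    (fun x => (lam x : ℂ) * (starRingEnd ℂ) (lam' x : ℂ)) ?_ ?_ (K * K) ?_ ?_ ?_ ?_
  · exact hvm.mul (Complex.continuous_conj.measurable.comp hvm')
  · exact hcl.mul (Complex.continuous_conj.measurable.comp hcl')
  · intro x
    rw [norm_mul, RCLike.norm_conj]
    exact mul_le_mul (hK x).1 (hK x).2 (norm_nonneg _) ((norm_nonneg _).trans (hK x).1)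
  · intro x
    rw [hli x, hli' x]
  · filter_upwards [hve, hve'] with x hx hx'
    rw [hx, hx', map_mul]
    ring
  · filter_upwards [hne] with x hx
    intro h1
    by_contra hc
    have h2 : v x ≠ 0 := fun h0 => hc (by rw [h0, zero_mul])
    have h3 : v' x ≠ 0 := fun h0 => hc (by rw [h0, map_zero, mul_zero])
    refine hx h2 h3 ?_
    have h4 : (lam x : ℂ) = (lam' x : ℂ) := by
      have h5 : (lam x : ℂ) * ((lam' x : ℂ) * (starRingEnd ℂ) (lam' x : ℂ)) = (lam' x : ℂ) := by
        calc (lam x : ℂ) * ((lam' x : ℂ) * (starRingEnd ℂ) (lam' x : ℂ))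
            = ((lam x : ℂ) * (starRingEnd ℂ) (lam' x : ℂ)) * (lam' x : ℂ) := by ring
          _ = (lam' x : ℂ) := by rw [h1, one_mul]
      rwa [hunit, mul_one] at h5
    exact Circle.ext h4

end Pool.Agent.CRk
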