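import Pool.Agent.CRk.Targets

/-!
# CRk: removal of the commensurable eigenfunctions (target NRS)
-/

set_option autoImplicit false

open MeasureTheory Filter Topology Finset

namespace Pool.Agent.CRk

open Pool.Agent.FSP Pool.Agent.Ind3

universe u

namespace NRS_

variable {Ω : Type u} [MeasurableSpace Ω]

lemma meas_rel (θ : ℕ → Ω → Circle) (lam : Ω → Circle) (h1 : ∀ j, Measurable (θ j))
    (h2 : Measurable lam) : MeasurableSet {x | RelN θ lam x} := by
  have h : {x | RelN θ lam x} = ⋃ k : ℕ, ORN_.Y θ lam k := by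
    ext x
    simp only [Set.mem_iUnion, ORN_.Y, RelN, Set.mem_setOf_eq]
    constructor
    · rintro ⟨n, hn, k, a, ha⟩
      exact ⟨k, n, hn, a, ha⟩
    · rintro ⟨k, n, hn, a, ha⟩
      exact ⟨n, hn, k, a, ha⟩
  rw [h]
  exact MeasurableSet.iUnion fun k => ORN_.Y_meas θ lam h1 h2 k

lemma intg {μ : Measure Ω} [IsProbabilityMeasure μ] {g : Ω → ℂ} (hg : Measurable g) (K : ℝ)
    (hK : ∀ x, ‖g x‖ ≤ K) : Integrable g μ :=
  Integrable.of_bound hg.aestronglyMeasurable K (ae_of_all μ hK)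

lemma intg_real {μ : Measure Ω} [IsProbabilityMeasure μ] {g : Ω → ℝ} (hg : Measurable g) (K : ℝ)
    (hK : ∀ x, |g x| ≤ K) : Integrable g μ :=
  Integrable.of_bound hg.aestronglyMeasurable K (ae_of_all μ fun x => by
    rw [Real.norm_eq_abs]; exact hK x)

/-- Pythagoras. -/
lemma pyth {μ : Measure Ω} [IsProbabilityMeasure μ] {g h : Ω → ℂ} (hg : Measurable g)
    (hh : Measurable h) (K L : ℝ) (hK : ∀ x, ‖g x‖ ≤ K) (hL : ∀ x, ‖h x‖ ≤ L)
    (h0 : ∫ x, g x * (starRingEnd ℂ) (h x) ∂μ = 0) :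
    ∫ x, ‖g x‖ ^ 2 ∂μ ≤ ∫ x, ‖g x - h x‖ ^ 2 ∂μ := by
  have i1 : Integrable (fun x => ‖g x‖ ^ 2) μ := intg_real (hg.norm.pow_const 2) (K ^ 2)
    fun x => by
      rw [abs_of_nonneg (by positivity)]
      exact pow_le_pow_left₀ (norm_nonneg _) (hK x) 2
  have i2 : Integrable (fun x => ‖h x‖ ^ 2) μ := intg_real (hh.norm.pow_const 2) (L ^ 2)
    fun x => by
      rw [abs_of_nonneg (by positivity)]
      exact pow_le_pow_left₀ (norm_nonneg _) (hL x) 2
  have hm : Measurable fun x => g x * (starRingEnd ℂ) (h x) :=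
    hg.mul (Complex.continuous_conj.measurable.comp hh)
  have i3 : Integrable (fun x => g x * (starRingEnd ℂ) (h x)) μ := intg hm (K * L) fun x => by
    rw [norm_mul, Complex.norm_conj]
    exact mul_le_mul (hK x) (hL x) (norm_nonneg _) ((norm_nonneg _).trans (hK x))
  have e1 : ∀ x, ‖g x - h x‖ ^ 2 =
      ‖g x‖ ^ 2 + ‖h x‖ ^ 2 - 2 * (g x * (starRingEnd ℂ) (h x)).re := fun x => by
    rw [Complex.sq_norm, Complex.sq_norm, Complex.sq_norm, Complex.normSq_sub]
  have i4 : Integrable (fun x => (g x * (starRingEnd ℂ) (h x)).re) μ := i3.re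
  have e2 : ∫ x, (g x * (starRingEnd ℂ) (h x)).re ∂μ = 0 := by
    have := integral_re i3
    simp only [RCLike.re_to_complex] at this
    rw [this, h0]
    simp
  have i5 : Integrable (fun x => ‖g x‖ ^ 2 + ‖h x‖ ^ 2) μ := i1.add i2
  have e3 : ∫ x, ‖g x - h x‖ ^ 2 ∂μ = ∫ x, ‖g x‖ ^ 2 ∂μ + ∫ x, ‖h x‖ ^ 2 ∂μ := by
    simp_rw [e1]
    rw [integral_sub i5 (i4.const_mul 2), integral_add i1 i2, integral_const_mul, e2]
    ring
  rw [e3]
  have : 0 ≤ ∫ x, ‖h x‖ ^ 2 ∂μ := integral_nonneg fun x => by positivity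
  linarith

/-- Restriction to an invariant set. -/
lemma geig_ind {μ : Measure Ω} {Q : Ω → Ω} {v : Ω → ℂ} {lam : Ω → Circle}
    (hv : GEig μ Q v lam) {Y : Set Ω} (hY : MeasurableSet Y) (hYQ : ∀ x, Q x ∈ Y ↔ x ∈ Y) :
    GEig μ Q (Y.indicator v) lam := by
  obtain ⟨h1, h2, h3, h4⟩ := hv
  refine ⟨h1.indicator hY, h2, h3, ?_⟩
  filter_upwards [h4] with x hx
  by_cases h : x ∈ Y
  · rw [Set.indicator_of_mem h, Set.indicator_of_mem ((hYQ x).2 h), hx]
  · rw [Set.indicator_of_notMem h, Set.indicator_of_notMem (fun h' => h ((hYQ x).1 h')),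
      mul_zero]

end NRS_

open NRS_ in
/-- NRS. -/
theorem p_NRS : T_NCO.{u} → T_NRS.{u} := by
  intro hN Ω _ μ _ Q hQ θ hθ hθQ f hf hf1 hort hIn ε hε
  obtain ⟨ι, hι, v, lam, K, hG, hK, -, hε'⟩ := hIn ε hε
  classical
  have hYm : ∀ i, MeasurableSet {x | RelN θ (lam i) x} := fun i =>
    meas_rel θ (lam i) hθ (hG i).2.1
  have hYQ : ∀ i x, Q x ∈ {x | RelN θ (lam i) x} ↔ x ∈ {x | RelN θ (lam i) x} := by
    intro i x
    simp only [Set.mem_setOf_eq, RelN, (hG i).2.2.1, hθQ]
  have hYc : ∀ i x, Q x ∈ {x | RelN θ (lam i) x}ᶜ ↔ x ∈ {x | RelN θ (lam i) x}ᶜ := by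
    intro i x
    rw [Set.mem_compl_iff, Set.mem_compl_iff, hYQ i x]
  have hG1 : ∀ i, GEig μ Q ({x | RelN θ (lam i) x}ᶜ.indicator (v i)) (lam i) := fun i =>
    geig_ind (hG i) (hYm i).compl (hYc i)
  have hG2 : ∀ i, GEig μ Q ({x | RelN θ (lam i) x}.indicator (v i)) (lam i) := fun i =>
    geig_ind (hG i) (hYm i) (hYQ i)
  have hK1 : ∀ i x, ‖{x | RelN θ (lam i) x}ᶜ.indicator (v i) x‖ ≤ K := fun i x =>
    (norm_indicator_le_norm_self _ _).trans (hK i x)
  have hK2 : ∀ i x, ‖{x | RelN θ (lam i) x}.indicator (v i) x‖ ≤ K := fun i x =>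
    (norm_indicator_le_norm_self _ _).trans (hK i x)
  refine ⟨ι, hι, fun i => {x | RelN θ (lam i) x}ᶜ.indicator (v i), lam, K, hG1, hK1, ?_, ?_⟩
  · intro i
    refine ae_of_all μ fun x hx => ?_
    by_contra hcon
    have : x ∉ {x | RelN θ (lam i) x}ᶜ := fun h' => h' hcon
    exact hx (Set.indicator_of_notMem this _)
  · -- the two parts
    have hm1 : Measurable fun x =>
        (f x : ℂ) - ∑ i, {x | RelN θ (lam i) x}ᶜ.indicator (v i) x :=
      (Complex.measurable_ofReal.comp hf).sub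
        (Finset.measurable_sum _ fun i _ => (hG1 i).1)
    have hm2 : Measurable fun x => ∑ i, {x | RelN θ (lam i) x}.indicator (v i) x :=
      Finset.measurable_sum _ fun i _ => (hG2 i).1
    have hb1 : ∀ x, ‖(f x : ℂ) - ∑ i, {x | RelN θ (lam i) x}ᶜ.indicator (v i) x‖ ≤
        1 + ∑ _i : ι, K := fun x => by
      refine (norm_sub_le _ _).trans (add_le_add ?_ ((norm_sum_le _ _).trans
        (Finset.sum_le_sum fun i _ => hK1 i x)))
      rw [Complex.norm_real, Real.norm_eq_abs]
      exact hf1 x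
    have hb2 : ∀ x, ‖∑ i, {x | RelN θ (lam i) x}.indicator (v i) x‖ ≤ ∑ _i : ι, K := fun x =>
      (norm_sum_le _ _).trans (Finset.sum_le_sum fun i _ => hK2 i x)
    have hsplit : ∀ x, (f x : ℂ) - ∑ i, v i x =
        ((f x : ℂ) - ∑ i, {x | RelN θ (lam i) x}ᶜ.indicator (v i) x) -
          ∑ i, {x | RelN θ (lam i) x}.indicator (v i) x := fun x => by
      rw [sub_sub, ← Finset.sum_add_distrib]
      congr 1
      refine Finset.sum_congr rfl fun i _ => ?_
      exact (congrFun (Set.indicator_compl_add_self _ (v i)) x).symm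
    refine (pyth hm1 hm2 _ _ hb1 hb2 ?_).trans (le_trans (le_of_eq ?_) hε')
    · -- orthogonality
      have i1 : ∀ j, Integrable (fun x =>
          (f x : ℂ) * (starRingEnd ℂ) ({x | RelN θ (lam j) x}.indicator (v j) x)) μ := fun j =>
        intg ((Complex.measurable_ofReal.comp hf).mul
          (Complex.continuous_conj.measurable.comp (hG2 j).1)) (1 * K) fun x => by
          rw [norm_mul, Complex.norm_conj, Complex.norm_real, Real.norm_eq_abs]
          exact mul_le_mul (hf1 x) (hK2 j x) (norm_nonneg _) zero_le_one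
      have i2 : ∀ i j, Integrable (fun x => {x | RelN θ (lam i) x}ᶜ.indicator (v i) x *
          (starRingEnd ℂ) ({x | RelN θ (lam j) x}.indicator (v j) x)) μ := fun i j =>
        intg ((hG1 i).1.mul (Complex.continuous_conj.measurable.comp (hG2 j).1)) (K * K)
          fun x => by
          rw [norm_mul, Complex.norm_conj]
          exact mul_le_mul (hK1 i x) (hK2 j x) (norm_nonneg _)
            ((norm_nonneg _).trans (hK1 i x))
      have e1 : ∀ x, ((f x : ℂ) - ∑ i, {x | RelN θ (lam i) x}ᶜ.indicator (v i) x) *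
          (starRingEnd ℂ) (∑ i, {x | RelN θ (lam i) x}.indicator (v i) x) =
          ∑ j, ((f x : ℂ) * (starRingEnd ℂ) ({x | RelN θ (lam j) x}.indicator (v j) x) -
            ∑ i, {x | RelN θ (lam i) x}ᶜ.indicator (v i) x *
              (starRingEnd ℂ) ({x | RelN θ (lam j) x}.indicator (v j) x)) := fun x => by
        rw [map_sum, Finset.mul_sum]
        refine Finset.sum_congr rfl fun j _ => ?_
        rw [sub_mul, Finset.sum_mul]
      have i3 : ∀ j, Integrable (fun x => ∑ i, {x | RelN θ (lam i) x}ᶜ.indicator (v i) x *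
          (starRingEnd ℂ) ({x | RelN θ (lam j) x}.indicator (v j) x)) μ := fun j =>
        integrable_finset_sum _ fun i _ => i2 i j
      have i4 : ∀ j, Integrable (fun x =>
          (f x : ℂ) * (starRingEnd ℂ) ({x | RelN θ (lam j) x}.indicator (v j) x) -
            ∑ i, {x | RelN θ (lam i) x}ᶜ.indicator (v i) x *
              (starRingEnd ℂ) ({x | RelN θ (lam j) x}.indicator (v j) x)) μ := fun j =>
        (i1 j).sub (i3 j)
      simp_rw [e1]
      rw [integral_finset_sum _ fun j _ => i4 j]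
      refine Finset.sum_eq_zero fun j _ => ?_
      rw [integral_sub (i1 j) (i3 j), integral_finset_sum _ fun i _ => i2 i j]
      have z1 : ∫ x, (f x : ℂ) *
          (starRingEnd ℂ) ({x | RelN θ (lam j) x}.indicator (v j) x) ∂μ = 0 := by
        have h0 : ∫ x, (f x : ℂ) * {x | RelN θ (lam j) x}.indicator (v j) x ∂μ = 0 := by
          refine f_ORN Ω μ Q hQ θ hθ hθQ f hf hf1 hort _ (lam j) (hG2 j).1 (hG2 j).2.1
            (hG2 j).2.2.1 (hG2 j).2.2.2 ?_ ?_
          · refine ae_of_all μ fun x hx => ?_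
            by_contra hcon
            have hcon' : x ∉ {x | RelN θ (lam j) x} := hcon
            exact hx (Set.indicator_of_notMem hcon' _)
          · exact intg_real ((hG2 j).1.norm.pow_const 2) (K ^ 2) fun x => by
              rw [abs_of_nonneg (by positivity)]
              exact pow_le_pow_left₀ (norm_nonneg _) (hK2 j x) 2
        have h1 : ∀ x, (f x : ℂ) *
            (starRingEnd ℂ) ({x | RelN θ (lam j) x}.indicator (v j) x) =
            (starRingEnd ℂ) ((f x : ℂ) * {x | RelN θ (lam j) x}.indicator (v j) x) := fun x => by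
          rw [map_mul, Complex.conj_ofReal]
        simp_rw [h1]
        rw [integral_conj, h0, map_zero]
      have z2 : ∀ i, ∫ x, {x | RelN θ (lam i) x}ᶜ.indicator (v i) x *
          (starRingEnd ℂ) ({x | RelN θ (lam j) x}.indicator (v j) x) ∂μ = 0 := fun i => by
        refine hN Ω μ Q hQ _ _ (lam i) (lam j) (hG1 i) (hG2 j) ⟨K, fun x => ⟨hK1 i x, hK2 j x⟩⟩
          (ae_of_all μ fun x hx hx' heq => ?_)
        have hi : ¬ RelN θ (lam i) x := by
          intro hcon
          have : x ∉ {x | RelN θ (lam i) x}ᶜ := fun h' => h' hcon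
          exact hx (Set.indicator_of_notMem this _)
        have hj : RelN θ (lam j) x := by
          by_contra hcon
          have hcon' : x ∉ {x | RelN θ (lam j) x} := hcon
          exact hx' (Set.indicator_of_notMem hcon' _)
        refine hi ?_
        unfold RelN at hj ⊢
        rw [heq]
        exact hj
      rw [z1, Finset.sum_eq_zero fun i _ => z2 i, sub_zero]
    · refine integral_congr_ae (ae_of_all μ fun x => ?_)
      simp only [hsplit x]

end Pool.Agent.CRk

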