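import Pool.Agent.CRk.Targets

set_option autoImplicit false

/-!
# CRk: a function orthogonal to all bounded almost periodic functions is relatively weakly mixing
-/

open MeasureTheory Filter Topology Finset

namespace Pool.Agent.CRk

open Pool.Agent.FSP Pool.Agent.Ind3

universe u

namespace OAG_

theorem ortAP_mono {Ω : Type u} [MeasurableSpace Ω] {μ : Measure Ω} {T : Ω → Ω}
    {F F' : Set (Ω → Circle)} (hF : F' ⊆ F) {Z : Set Ω} {g : Ω → ℝ} (h : OrtAP μ T F Z g) :
    OrtAP μ T F' Z g := by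
  intro v hv hb hz hap
  refine h v hv hb hz fun ε hε => ?_
  obtain ⟨q, hq, ρ, hρ, d, τ, hτ, hn⟩ := hap ε hε
  exact ⟨q, hq, ρ, hρ, d, τ, fun l => hF (hτ l), hn⟩

end OAG_

open OAG_

theorem p_OAG : T_OAG.{u} := by
  intro Ω _ μ _ T hT g hg hg1 hO
  refine f_RWM Ω μ T hT g hg hg1 fun v lam hv hlam hinv heig hint => ?_
  have hsub : freq (fun _ : Fin 1 => lam) {1} ⊆ FA T := by
    rintro φ (⟨j, rfl⟩ | ⟨ζ, _, rfl⟩)
    · exact ⟨hlam, hinv⟩
    · exact ⟨measurable_const, fun _ => rfl⟩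
  refine p_ORT Ω μ T hT Set.univ 1 (fun _ => lam) {1} MeasurableSet.univ (fun x => Iff.rfl)
    (Set.countable_singleton 1) (fun _ => hlam) (fun _ x => hinv x) g hg hg1
    (fun x hx => absurd (Set.mem_univ x) hx) (ortAP_mono hsub hO) v lam hv hlam hinv heig
    (Eventually.of_forall fun x _ _ => ?_) hint
  exact ⟨1, le_refl 1, 1, Set.mem_singleton 1, fun _ => 1, by simp⟩

end Pool.Agent.CRk
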