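import Pool.Agent.CRk.Targets

/-!
# Monomials of generalised eigenvalues
-/

set_option autoImplicit false

open MeasureTheory Filter Topology Finset

namespace Pool.Agent.CRk

private noncomputable def PRD_f (z : ℂ) (n : ℤ) : ℂ :=
  if 0 ≤ n then z ^ n.toNat else (starRingEnd ℂ z) ^ (-n).toNat

private theorem PRD_f_ne (z : ℂ) (n : ℤ) (hz : z ≠ 0) : PRD_f z n ≠ 0 := by
  unfold PRD_f
  split_ifs
  · exact pow_ne_zero _ hz
  · exact pow_ne_zero _ (by simpa using hz)

private theorem PRD_f_mul (c : Circle) (z : ℂ) (n : ℤ) :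
    PRD_f ((c : ℂ) * z) n = ((c ^ n : Circle) : ℂ) * PRD_f z n := by
  unfold PRD_f
  split_ifs with h
  · rw [mul_pow]
    congr 1
    obtain ⟨m, rfl⟩ := Int.eq_ofNat_of_zero_le h
    simp
  · rw [map_mul, mul_pow]
    congr 1
    have hn : n = -((-n).toNat : ℤ) := by omega
    generalize (-n).toNat = m at hn
    subst hn
    rw [zpow_neg, zpow_natCast]
    rw [Circle.coe_inv_eq_conj]
    simp

private theorem PRD_f_meas (n : ℤ) : Measurable (fun z : ℂ => PRD_f z n) := by
  unfold PRD_f
  split_ifs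
  · exact measurable_id.pow_const _
  · exact (Complex.continuous_conj.measurable).pow_const _

theorem p_PRD : T_PRD := by
  intro Ω _ μ Q ι _ V L h a
  refine ⟨fun x => ∏ i, PRD_f (V i x) (a i), ⟨?_, ?_, ?_, ?_⟩, ?_⟩
  · exact Finset.measurable_prod _ fun i _ => (PRD_f_meas (a i)).comp (h i).1
  · apply Finset.measurable_prod
    intro i _
    exact ((continuous_zpow (a i)).measurable).comp (h i).2.1
  · intro x
    apply Finset.prod_congr rfl
    intro i _
    rw [(h i).2.2.1 x]
  · have h1 : ∀ᵐ x ∂μ, ∀ i, V i (Q x) = (L i x : ℂ) * V i x :=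
      ae_all_iff.mpr fun i => (h i).2.2.2
    filter_upwards [h1] with x hx
    have h2 : ((∏ i, L i x ^ a i : Circle) : ℂ) = ∏ i, ((L i x ^ a i : Circle) : ℂ) :=
      map_prod Circle.coeHom _ _
    rw [h2, ← Finset.prod_mul_distrib]
    apply Finset.prod_congr rfl
    intro i _
    rw [hx i, PRD_f_mul]
  · intro x hx
    exact Finset.prod_ne_zero_iff.mpr fun i _ => PRD_f_ne _ _ (hx i)

end Pool.Agent.CRk
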