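import Pool.Agent.CRk.Targets

set_option autoImplicit false

/-! # CRk, target REL: commensurability with the list `lst r ω e` -/

open MeasureTheory Filter Topology Finset

namespace Pool.Agent.CRk

open Pool.Agent.FSP Pool.Agent.Ind3

universe u

namespace REL_

/-- The subgroup with the given carrier. -/
def sg (Λ : Set Circle) (h : CGrp Λ) : Subgroup Circle where
  carrier := Λ
  mul_mem' := fun {a b} ha hb => h.2.2.1 a ha b hb
  one_mem' := h.2.1
  inv_mem' := fun {a} ha => h.2.2.2 a ha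

theorem zpow_mem {Λ : Set Circle} (h : CGrp Λ) {a : Circle} (ha : a ∈ Λ) (n : ℤ) :
    a ^ n ∈ Λ := (sg Λ h).zpow_mem ha n

theorem lst_lt {Ω : Type u} {r : ℕ} (ω : Fin r → Ω → Circle) (e : ℕ → Circle) (x : Ω) {j : ℕ}
    (h : j < r) : lst r ω e j x = ω ⟨j, h⟩ x := by
  unfold lst
  rw [dif_pos h]

theorem lst_ge {Ω : Type u} {r : ℕ} (ω : Fin r → Ω → Circle) (e : ℕ → Circle) (x : Ω) {j : ℕ}
    (h : ¬ j < r) : lst r ω e j x = e (j - r) := by
  unfold lst
  rw [dif_neg h]

theorem monomial {Ω : Type u} {r : ℕ} (ω : Fin r → Ω → Circle) {Λ : Set Circle}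
    {e : ℕ → Circle} (hΛ : CGrp Λ) (he : ∀ n, e n ∈ Λ) (x : Ω) (k : ℕ) :
    ∀ a : Fin k → ℤ, ∃ b : Fin r → ℤ,
      (∏ j : Fin k, lst r ω e j x ^ a j) * ∏ i, ω i x ^ b i ∈ Λ := by
  induction k with
  | zero =>
    intro a
    refine ⟨0, ?_⟩
    simpa using hΛ.2.1
  | succ k ih =>
    intro a
    obtain ⟨b, hb⟩ := ih (fun j => a j.castSucc)
    rw [Fin.prod_univ_castSucc]
    simp only [Fin.val_castSucc, Fin.val_last]
    by_cases hk : k < r
    · refine ⟨fun i => b i + (if i = ⟨k, hk⟩ then - a (Fin.last k) else 0), ?_⟩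
      have h1 : ∏ i, ω i x ^ (b i + (if i = ⟨k, hk⟩ then - a (Fin.last k) else 0)) =
          (∏ i, ω i x ^ b i) * (ω ⟨k, hk⟩ x ^ a (Fin.last k))⁻¹ := by
        simp only [zpow_add]
        rw [Finset.prod_mul_distrib]
        congr 1
        rw [Finset.prod_eq_single (⟨k, hk⟩ : Fin r)]
        · rw [if_pos rfl, zpow_neg]
        · intro i _ hi
          rw [if_neg hi, zpow_zero]
        · intro h
          exact absurd (Finset.mem_univ _) h
      rw [h1, lst_lt ω e x hk]
      have h2 : (∏ j : Fin k, lst r ω e j x ^ a j.castSucc) *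
            ω ⟨k, hk⟩ x ^ a (Fin.last k) *
            ((∏ i, ω i x ^ b i) * (ω ⟨k, hk⟩ x ^ a (Fin.last k))⁻¹) =
          (∏ j : Fin k, lst r ω e j x ^ a j.castSucc) * ∏ i, ω i x ^ b i := by
        have : ∀ A B C : Circle, A * B * (C * B⁻¹) = A * C := by
          intro A B C
          rw [mul_comm C, ← mul_assoc, mul_assoc A B, mul_inv_cancel, mul_one]
        exact this _ _ _
      rw [h2]
      exact hb
    · refine ⟨b, ?_⟩
      rw [lst_ge ω e x hk]
      have h3 : e (k - r) ^ a (Fin.last k) ∈ Λ := zpow_mem hΛ (he _) _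
      have h4 := hΛ.2.2.1 _ hb _ h3
      have : ∀ A B C : Circle, A * C * B = A * B * C := by
        intro A B C
        rw [mul_assoc, mul_comm C, ← mul_assoc]
      rw [this]
      exact h4

end REL_

open REL_ in
theorem p_REL : T_REL.{u} := by
  intro Ω r ω Λ e hΛ he hs φ x
  constructor
  · rintro ⟨n, hn, k, a, h⟩
    obtain ⟨b, hb⟩ := monomial ω hΛ he x k a
    exact ⟨n, hn, b, by rw [h]; exact hb⟩
  · rintro ⟨n, hn, a, h⟩
    obtain ⟨N, hN⟩ := hs _ h
    refine ⟨n, hn, r + (N + 1), Fin.append (fun i => - a i)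
      (fun i => if i = Fin.last N then 1 else 0), ?_⟩
    rw [Fin.prod_univ_add]
    have h1 : ∏ i : Fin r, lst r ω e (Fin.castAdd (N + 1) i) x ^
        Fin.append (fun i => - a i) (fun i => if i = Fin.last N then 1 else 0)
          (Fin.castAdd (N + 1) i) = (∏ i, ω i x ^ a i)⁻¹ := by
      rw [← Finset.prod_inv_distrib]
      apply Finset.prod_congr rfl
      intro i _
      rw [Fin.append_left, Fin.val_castAdd, lst_lt ω e x i.isLt, zpow_neg]
    have h2 : ∏ i : Fin (N + 1), lst r ω e (Fin.natAdd r i) x ^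
        Fin.append (fun i => - a i) (fun i => if i = Fin.last N then 1 else 0)
          (Fin.natAdd r i) = e N := by
      rw [Finset.prod_eq_single (Fin.last N)]
      · rw [Fin.append_right, if_pos rfl, zpow_one, Fin.val_natAdd, Fin.val_last,
          lst_ge ω e x (by omega)]
        congr 1
        omega
      · intro i _ hi
        rw [Fin.append_right, if_neg hi, zpow_zero]
      · intro h
        exact absurd (Finset.mem_univ _) h
    rw [h1, h2, hN, mul_comm, mul_assoc, mul_inv_cancel, mul_one]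

end Pool.Agent.CRk
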