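import Pool.Agent.CRk.Targets

/-!
# CRk: ROO, eigenfunctions of a power as sums of eigenfunctions
-/

set_option autoImplicit false

open MeasureTheory Filter Topology Finset

namespace Pool.Agent.CRk

open Pool.Agent.FSP Pool.Agent.Ind3

universe u

namespace ROO_

theorem measurable_coeC : Measurable fun z : Circle => (z : ℂ) :=
  (Continuous.measurable (α := Circle)
    (continuous_induced_dom : Continuous fun z : Circle => (z : ℂ)))

variable {Ω : Type u}

/-- the chosen root -/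
noncomputable def kap (q : ℕ) (χ : Ω → Circle) (x : Ω) : Circle :=
  Circle.exp (Complex.arg (χ x) / q)

/-- the chosen root of unity -/
noncomputable def zet (q : ℕ) : Circle := Circle.exp (2 * Real.pi / q)

/-- the eigenvalues -/
noncomputable def lam (q : ℕ) (χ : Ω → Circle) (t : ℕ) (x : Ω) : Circle :=
  kap q χ x * zet q ^ t

/-- the eigenfunctions -/
noncomputable def ev (q : ℕ) (Q : Ω → Ω) (G : Ω → ℂ) (χ : Ω → Circle) (t : ℕ) (x : Ω) : ℂ :=
  (q : ℂ)⁻¹ * ∑ s ∈ range q, ((lam q χ t x : ℂ)⁻¹) ^ s * G (Q^[s] x)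

theorem exp_pow (a : ℝ) (q : ℕ) : Circle.exp a ^ q = Circle.exp (q * a) := by
  rw [← nsmul_eq_mul, Circle.exp_nsmul]

theorem kap_pow {q : ℕ} (hq : 1 ≤ q) (χ : Ω → Circle) (x : Ω) : kap q χ x ^ q = χ x := by
  have h0 : (q : ℝ) ≠ 0 := by
    have : 0 < q := hq
    positivity
  unfold kap
  rw [exp_pow, mul_div_cancel₀ _ h0, Circle.exp_arg]

theorem zet_pow {q : ℕ} (hq : 1 ≤ q) : zet q ^ q = 1 := by
  have h0 : (q : ℝ) ≠ 0 := by
    have : 0 < q := hq
    positivity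
  unfold zet
  rw [exp_pow, mul_div_cancel₀ _ h0, Circle.exp_two_pi]

theorem lam_pow {q : ℕ} (hq : 1 ≤ q) (χ : Ω → Circle) (t : ℕ) (x : Ω) :
    lam q χ t x ^ q = χ x := by
  unfold lam
  rw [mul_pow, kap_pow hq, ← pow_mul, mul_comm t q, pow_mul, zet_pow hq, one_pow, mul_one]

theorem zet_coe (q : ℕ) : (zet q : ℂ) = Complex.exp (2 * Real.pi * Complex.I / q) := by
  unfold zet
  rw [Circle.coe_exp]
  congr 1
  push_cast
  ring

theorem prim {q : ℕ} (hq : 1 ≤ q) : IsPrimitiveRoot (zet q : ℂ) q := by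
  rw [zet_coe]
  exact Complex.isPrimitiveRoot_exp q (by omega)

theorem sum_zero {q : ℕ} (hq : 1 ≤ q) {s : ℕ} (h0 : s ≠ 0) (hs : s < q) :
    ∑ t ∈ range q, (((zet q : ℂ) ^ t)⁻¹) ^ s = 0 := by
  have hp := prim hq
  have hne : ((zet q : ℂ)⁻¹) ^ s ≠ 1 := by
    rw [inv_pow]
    intro h
    rw [inv_eq_one] at h
    exact (hp.pow_ne_one_of_pos_of_lt h0 hs) h
  have h1 : ∀ t ∈ range q, (((zet q : ℂ) ^ t)⁻¹) ^ s = (((zet q : ℂ)⁻¹) ^ s) ^ t := by
    intro t _
    rw [← inv_pow, ← pow_mul, ← pow_mul, mul_comm]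
  rw [Finset.sum_congr rfl h1, geom_sum_eq hne]
  have h2 : (((zet q : ℂ)⁻¹) ^ s) ^ q = 1 := by
    rw [← pow_mul, mul_comm, pow_mul, inv_pow, hp.pow_eq_one, inv_one, one_pow]
  rw [h2, sub_self, zero_div]

theorem sum_ev {q : ℕ} (hq : 1 ≤ q) (Q : Ω → Ω) (G : Ω → ℂ) (χ : Ω → Circle) (x : Ω) :
    ∑ t ∈ range q, ev q Q G χ t x = G x := by
  have hq0 : (q : ℂ) ≠ 0 := by
    have : q ≠ 0 := by omega
    exact_mod_cast this
  unfold ev
  rw [← Finset.mul_sum, Finset.sum_comm]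
  have h1 : ∀ s ∈ range q, ∑ t ∈ range q, ((lam q χ t x : ℂ)⁻¹) ^ s * G (Q^[s] x) =
      if s = 0 then (q : ℂ) * G x else 0 := by
    intro s hs
    rw [Finset.mem_range] at hs
    rw [← Finset.sum_mul]
    split_ifs with h
    · subst h
      simp
    · have h2 : ∀ t ∈ range q, ((lam q χ t x : ℂ)⁻¹) ^ s =
          ((kap q χ x : ℂ)⁻¹) ^ s * (((zet q : ℂ) ^ t)⁻¹) ^ s := by
        intro t _
        unfold lam
        rw [Circle.coe_mul, Circle.coe_pow, mul_inv, mul_pow]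
      rw [Finset.sum_congr rfl h2, ← Finset.mul_sum, sum_zero hq h hs, mul_zero, zero_mul]
  rw [Finset.sum_congr rfl h1, Finset.sum_ite_eq', if_pos (Finset.mem_range.mpr (by omega)),
    ← mul_assoc, inv_mul_cancel₀ hq0, one_mul]

theorem lam_inv {q : ℕ} {Q : Ω → Ω} {χ : Ω → Circle} (h : ∀ x, χ (Q x) = χ x) (t : ℕ) (x : Ω) :
    lam q χ t (Q x) = lam q χ t x := by
  unfold lam kap
  rw [h]

theorem eig {q : ℕ} (hq : 1 ≤ q) {Q : Ω → Ω} {G : Ω → ℂ} {χ : Ω → Circle}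
    (h : ∀ x, χ (Q x) = χ x) (t : ℕ) {x : Ω} (hx : G (Q^[q] x) = (χ x : ℂ) * G x) :
    ev q Q G χ t (Q x) = (lam q χ t x : ℂ) * ev q Q G χ t x := by
  unfold ev
  rw [lam_inv h]
  set L : ℂ := (lam q χ t x : ℂ) with hL
  have hL0 : L ≠ 0 := Circle.coe_ne_zero _
  have hLq : L ^ q = (χ x : ℂ) := by
    rw [hL, ← Circle.coe_pow, lam_pow hq]
  have h1 : ∀ s ∈ range q, (L⁻¹) ^ s * G (Q^[s] (Q x)) =
      L * ((L⁻¹) ^ (s + 1) * G (Q^[s + 1] x)) := by
    intro s _
    rw [Function.iterate_succ_apply, pow_succ]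
    field_simp
  rw [Finset.sum_congr rfl h1, ← Finset.mul_sum]
  have h2 : ∑ s ∈ range q, (L⁻¹) ^ (s + 1) * G (Q^[s + 1] x) =
      ∑ s ∈ range q, (L⁻¹) ^ s * G (Q^[s] x) := by
    have h3 := Finset.sum_range_succ (fun s => (L⁻¹) ^ s * G (Q^[s] x)) q
    have h4 := Finset.sum_range_succ' (fun s => (L⁻¹) ^ s * G (Q^[s] x)) q
    have h5 : (L⁻¹) ^ q * G (Q^[q] x) = (L⁻¹) ^ 0 * G (Q^[0] x) := by
      rw [hx, inv_pow, hLq, pow_zero, one_mul, Function.iterate_zero, id, ← mul_assoc,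
        inv_mul_cancel₀ (Circle.coe_ne_zero _), one_mul]
    have h6 := h4.symm.trans h3
    rw [h5] at h6
    exact add_right_cancel h6
  rw [h2]
  ring

theorem meas_lam [MeasurableSpace Ω] {χ : Ω → Circle} (h : Measurable χ) (q t : ℕ) :
    Measurable (lam q χ t) := by
  unfold lam kap
  have h1 : Measurable fun x => ((χ x : Circle) : ℂ) :=
    (measurable_coeC).comp h
  have h2 : Measurable fun x => Complex.arg (χ x) / (q : ℝ) :=
    (Complex.measurable_arg.comp h1).div_const _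
  exact (Circle.exp.continuous.measurable.comp h2).mul_const _

theorem meas_ev [MeasurableSpace Ω] {Q : Ω → Ω} (hQ : Measurable Q) {G : Ω → ℂ}
    (hG : Measurable G) {χ : Ω → Circle} (h : Measurable χ) (q t : ℕ) :
    Measurable (ev q Q G χ t) := by
  unfold ev
  refine Measurable.const_mul ?_ _
  refine Finset.measurable_sum _ fun s _ => ?_
  have h1 : Measurable fun x => ((lam q χ t x : Circle) : ℂ) :=
    (measurable_coeC).comp (meas_lam h q t)
  exact (h1.inv.pow_const s).mul (hG.comp (hQ.iterate s))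

theorem int_ev [MeasurableSpace Ω] {μ : Measure Ω} {Q : Ω → Ω} (hQ : MeasurePreserving Q μ μ)
    {G : Ω → ℂ} (hG : Measurable G) (hi : Integrable (fun x => ‖G x‖ ^ 2) μ) {χ : Ω → Circle}
    (h : Measurable χ) (q t : ℕ) : Integrable (fun x => ‖ev q Q G χ t x‖ ^ 2) μ := by
  have hm : MemLp G 2 μ := (memLp_two_iff_integrable_sq_norm hG.aestronglyMeasurable).mpr hi
  have hv := meas_ev hQ.measurable hG h q t
  refine (memLp_two_iff_integrable_sq_norm hv.aestronglyMeasurable).mp ?_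
  unfold ev
  refine MemLp.const_mul ?_ _
  refine memLp_finsetSum _ fun s _ => ?_
  have h1 : Measurable fun x => ((lam q χ t x : Circle) : ℂ) :=
    (measurable_coeC).comp (meas_lam h q t)
  have h2 : MemLp (fun x => G (Q^[s] x)) 2 μ := hm.comp_measurePreserving (hQ.iterate s)
  refine h2.of_le ((h1.inv.pow_const s).mul
    (hG.comp (hQ.measurable.iterate s))).aestronglyMeasurable ?_
  refine Eventually.of_forall fun x => ?_
  rw [norm_mul, norm_pow, norm_inv, Circle.norm_coe, inv_one, one_pow, one_mul]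

end ROO_

/-- ROO. -/
theorem p_ROO : T_ROO.{u} := by
  intro Ω _ μ _ Q hQ q hq G χ hG hχ hi
  obtain ⟨hGm, hχm, -, hGe⟩ := hG
  refine ⟨fun t => ROO_.ev q Q G χ t, fun t => ROO_.lam q χ t, fun t => ⟨?_, ?_, ?_, ?_⟩,
    fun t => ?_, ?_⟩
  · exact ROO_.meas_ev hQ.measurable hGm hχm q t
  · exact ROO_.meas_lam hχm q t
  · exact fun x => ROO_.lam_inv hχ t x
  · filter_upwards [hGe] with x hx
    exact ROO_.eig hq hχ t hx
  · exact ROO_.int_ev hQ hGm hi hχm q t
  · refine Eventually.of_forall fun x => ?_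
    rw [Fin.sum_univ_eq_sum_range (fun t => ROO_.ev q Q G χ t x) q, ROO_.sum_ev hq]

end Pool.Agent.CRk
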