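import Pool.Agent.CRk.Targets

set_option autoImplicit false

/-!
# CRk, target RTM: almost periodic functions without resonance
-/

open MeasureTheory Filter Topology Finset

namespace Pool.Agent.CRk

open Pool.Agent.FSP Pool.Agent.Ind3

universe u

namespace RTM_

/-- the points of the windows -/
def pt (N : ℕ) (p : ℕ × ℕ × ℕ) : Fin 3 → ℕ := ![N + p.1, 0 + p.2.1, 3 * N + p.2.2]

/-- the box of the windows -/
def bx (N : ℕ) : Finset (ℕ × ℕ × ℕ) := range N ×ˢ range N ×ˢ range N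

theorem cavg3_eq (N : ℕ) (F : (Fin 3 → ℕ) → ℂ) :
    cavg3 N F = ((N : ℂ)⁻¹) ^ 3 * ∑ p ∈ bx N, F (pt N p) := by
  unfold cavg3 cmean bx pt
  simp only [sum_product, mul_sum]
  refine sum_congr rfl fun a _ => sum_congr rfl fun b _ => sum_congr rfl fun c _ => ?_
  ring

theorem avg3_eq (N : ℕ) (F : (Fin 3 → ℕ) → ℝ) :
    avg3 N F = ((N : ℝ)⁻¹) ^ 3 * ∑ p ∈ bx N, F (pt N p) := by
  unfold avg3 mean bx pt
  simp only [sum_product, mul_sum]
  refine sum_congr rfl fun a _ => sum_congr rfl fun b _ => sum_congr rfl fun c _ => ?_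
  ring

theorem ofReal_avg3 (N : ℕ) (F : (Fin 3 → ℕ) → ℝ) :
    ((avg3 N F : ℝ) : ℂ) = cavg3 N (fun y => ((F y : ℝ) : ℂ)) := by
  rw [avg3_eq, cavg3_eq]
  push_cast
  rfl

theorem norm_cavg3_le (N : ℕ) (F : (Fin 3 → ℕ) → ℂ) : ‖cavg3 N F‖ ≤ avg3 N (fun y => ‖F y‖) := by
  rw [avg3_eq, cavg3_eq, norm_mul, norm_pow, norm_inv, Complex.norm_natCast]
  exact mul_le_mul_of_nonneg_left (norm_sum_le _ _) (by positivity)

theorem avg3_mono (N : ℕ) {F G : (Fin 3 → ℕ) → ℝ} (h : ∀ y, F y ≤ G y) : avg3 N F ≤ avg3 N G := by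
  rw [avg3_eq, avg3_eq]
  exact mul_le_mul_of_nonneg_left (sum_le_sum fun p _ => h _) (by positivity)

theorem avg3_mul (N : ℕ) (c : ℝ) (F : (Fin 3 → ℕ) → ℝ) :
    avg3 N (fun y => c * F y) = c * avg3 N F := by
  rw [avg3_eq, avg3_eq, ← mul_sum]
  ring

theorem cavg3_sub (N : ℕ) (F G : (Fin 3 → ℕ) → ℂ) :
    cavg3 N (fun y => F y - G y) = cavg3 N F - cavg3 N G := by
  rw [cavg3_eq, cavg3_eq, cavg3_eq, sum_sub_distrib]
  ring

theorem cavg3_sum (N : ℕ) {ι : Type} (s : Finset ι) (F : ι → (Fin 3 → ℕ) → ℂ) :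
    cavg3 N (fun y => ∑ i ∈ s, F i y) = ∑ i ∈ s, cavg3 N (F i) := by
  simp only [cavg3_eq]
  rw [sum_comm, mul_sum]

section

variable {Ω : Type u} [MeasurableSpace Ω]

/-- the integrand -/
noncomputable def tr (q m K : ℕ) (θ : ℕ → Ω → Circle) (Q : Fin 3 → Ω → Ω) (F : Fin 3 → Ω → ℂ)
    (y : Fin 3 → ℕ) (x : Ω) : ℂ :=
  ((w3 q m K θ x y : ℝ) : ℂ) * ∏ l, F l ((Q l)^[tm l y] x)

theorem wt_bd {q m K : ℕ} (hq : 1 ≤ q) (hm : 1 ≤ m) {θ : ℕ → Ω → Circle}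
    (hθ : ∀ j, Measurable (θ j)) : (∀ x n, 0 ≤ wt q m K θ x n ∧ wt q m K θ x n ≤ q * (m : ℝ) ^ K) ∧
      ∀ n, Measurable fun x => wt q m K θ x n := by
  obtain ⟨h1, h2, -⟩ := f_NWA Ω q m K (fun i : Fin K => θ i) hq hm (fun i => hθ i)
  exact ⟨h1, h2⟩

theorem w3_bd {q m K : ℕ} (hq : 1 ≤ q) (hm : 1 ≤ m) {θ : ℕ → Ω → Circle}
    (hθ : ∀ j, Measurable (θ j)) : (∀ x y, 0 ≤ w3 q m K θ x y ∧
      w3 q m K θ x y ≤ (q * (m : ℝ) ^ K) ^ 3) ∧ ∀ y, Measurable fun x => w3 q m K θ x y := by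
  obtain ⟨h1, h2⟩ := wt_bd (K := K) hq hm hθ
  refine ⟨fun x y => ⟨?_, ?_⟩, fun y => ?_⟩
  · unfold w3
    exact mul_nonneg (mul_nonneg (h1 x _).1 (h1 x _).1) (h1 x _).1
  · unfold w3
    have h3 : 0 ≤ (q : ℝ) * (m : ℝ) ^ K := by positivity
    calc wt q m K θ x (y 0) * wt q m K θ x (y 1) * wt q m K θ x (y 2)
        ≤ (q * (m : ℝ) ^ K) * (q * (m : ℝ) ^ K) * (q * (m : ℝ) ^ K) :=
          mul_le_mul (mul_le_mul (h1 x _).2 (h1 x _).2 (h1 x _).1 h3) (h1 x _).2 (h1 x _).1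
            (by positivity)
      _ = (q * (m : ℝ) ^ K) ^ 3 := by ring
  · unfold w3
    exact ((h2 _).mul (h2 _)).mul (h2 _)

variable {μ : Measure Ω} [IsProbabilityMeasure μ]

theorem integrable_tr {q m K : ℕ} (hq : 1 ≤ q) (hm : 1 ≤ m) {θ : ℕ → Ω → Circle}
    (hθ : ∀ j, Measurable (θ j)) {Q : Fin 3 → Ω → Ω} (hQ : ∀ l, Measurable (Q l)) (X : Set Ω)
    {F : Fin 3 → Ω → ℂ} (hF : ∀ l, Measurable (F l)) {C : ℝ} (hC : ∀ l x, ‖F l x‖ ≤ C)
    (y : Fin 3 → ℕ) : Integrable (tr q m K θ Q F y) (μ.restrict X) := by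
  obtain ⟨h1, h2⟩ := w3_bd (K := K) hq hm hθ
  have h3 : Measurable (tr q m K θ Q F y) := by
    unfold tr
    refine (Complex.measurable_ofReal.comp (h2 y)).mul ?_
    exact Finset.measurable_prod _ fun l _ => (hF l).comp ((hQ l).iterate _)
  refine Integrable.of_bound h3.aestronglyMeasurable ((q * (m : ℝ) ^ K) ^ 3 * C ^ 3) ?_
  filter_upwards with x
  unfold tr
  rw [norm_mul, Complex.norm_real, Real.norm_of_nonneg (h1 x y).1, norm_prod]
  have h4 : ∏ l : Fin 3, ‖F l ((Q l)^[tm l y] x)‖ ≤ C ^ 3 := by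
    calc ∏ l : Fin 3, ‖F l ((Q l)^[tm l y] x)‖ ≤ ∏ _l : Fin 3, C :=
          prod_le_prod (fun l _ => norm_nonneg _) fun l _ => hC l _
      _ = C ^ 3 := by simp
  exact mul_le_mul (h1 x y).2 h4 (prod_nonneg fun l _ => norm_nonneg _) (by positivity)

theorem swap {q m K : ℕ} (hq : 1 ≤ q) (hm : 1 ≤ m) {θ : ℕ → Ω → Circle}
    (hθ : ∀ j, Measurable (θ j)) {Q : Fin 3 → Ω → Ω} (hQ : ∀ l, Measurable (Q l)) (X : Set Ω)
    {F : Fin 3 → Ω → ℂ} (hF : ∀ l, Measurable (F l)) {C : ℝ} (hC : ∀ l x, ‖F l x‖ ≤ C)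
    (N : ℕ) : ∫ x in X, cavg3 N (fun y => tr q m K θ Q F y x) ∂μ =
      cavg3 N (fun y => ∫ x in X, tr q m K θ Q F y x ∂μ) := by
  simp only [cavg3_eq]
  rw [integral_const_mul, integral_finsetSum]
  intro p _
  exact integrable_tr hq hm hθ hQ X hF hC _

theorem swapR {q m K : ℕ} (hq : 1 ≤ q) (hm : 1 ≤ m) {θ : ℕ → Ω → Circle}
    (hθ : ∀ j, Measurable (θ j)) {Q : Ω → Ω} (hQ : Measurable Q) (X : Set Ω) (l : Fin 3)
    {h : Ω → ℝ} (hh : Measurable h) {C : ℝ} (h0 : ∀ x, 0 ≤ h x) (hC : ∀ x, h x ≤ C)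
    (N : ℕ) : ∫ x in X, avg3 N (fun y => w3 q m K θ x y * h (Q^[tm l y] x)) ∂μ =
      avg3 N (fun y => ∫ x in X, w3 q m K θ x y * h (Q^[tm l y] x) ∂μ) := by
  obtain ⟨h1, h2⟩ := w3_bd (K := K) hq hm hθ
  simp only [avg3_eq]
  rw [integral_const_mul, integral_finsetSum]
  intro p _
  have h3 : Measurable fun x => w3 q m K θ x (pt N p) * h (Q^[tm l (pt N p)] x) :=
    (h2 _).mul (hh.comp (hQ.iterate _))
  refine Integrable.of_bound h3.aestronglyMeasurable ((q * (m : ℝ) ^ K) ^ 3 * C) ?_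
  filter_upwards with x
  rw [Real.norm_of_nonneg (mul_nonneg (h1 x _).1 (h0 _))]
  exact mul_le_mul (h1 x _).2 (hC _) (h0 _) (by positivity)

/-- the error estimate -/
theorem err (hE : T_EWL.{u}) {q m K : ℕ} (hq : 1 ≤ q) (hm : 1 ≤ m)
    {Q : Fin 3 → Ω → Ω} {θ : Fin 3 → ℕ → Ω → Circle} {X : Set Ω} (hA : Adm μ Q θ X)
    (l : Fin 3) {g : Ω → ℂ} (hg : Measurable g) {D : ℝ} (hD : ∀ x, ‖g x‖ ≤ D) {δ : ℝ}
    (hδ : 0 < δ) (hi : ∫ x, ‖g x‖ ∂μ ≤ δ) :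
    ∃ N₀ : ℕ, ∀ N ≥ N₀, q ∣ N → ∀ (F : Fin 3 → Ω → ℂ) (c C : ℝ), (∀ l, Measurable (F l)) →
      (∀ l x, ‖F l x‖ ≤ C) → F l = g → 0 ≤ c →
      (∀ u : Fin 3 → Ω, ∏ j, ‖F j (u j)‖ ≤ c * ‖g (u l)‖) →
      ‖∫ x in X, cavg3 N (fun y => tr q m K (θ 0) Q F y x) ∂μ‖ ≤ c * (2 * δ) := by
  obtain ⟨N₀, hN₀⟩ := hE Ω μ Q θ X hA q m K hq hm l (fun x => ‖g x‖) D hg.norm
    (fun x => norm_nonneg _) hD δ hδ
  refine ⟨N₀, fun N hN hqN F c C hF hC hFl hc hu => ?_⟩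
  have hθ : ∀ j, Measurable (θ 0 j) := hA.2.1 0
  have hQ : ∀ l, Measurable (Q l) := fun l => (hA.1 l).measurable
  obtain ⟨h1, h2⟩ := w3_bd (K := K) hq hm hθ
  rw [swap hq hm hθ hQ X hF hC]
  have h3 : ∀ y, ‖∫ x in X, tr q m K (θ 0) Q F y x ∂μ‖ ≤
      c * ∫ x in X, w3 q m K (θ 0) x y * ‖g ((Q l)^[tm l y] x)‖ ∂μ := by
    intro y
    rw [← integral_const_mul]
    refine (norm_integral_le_integral_norm _).trans ?_
    refine integral_mono_of_nonneg ?_ ?_ ?_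
    · filter_upwards with x
      exact norm_nonneg _
    · have h4 : Measurable fun x => w3 q m K (θ 0) x y * ‖g ((Q l)^[tm l y] x)‖ :=
        (h2 _).mul (hg.comp ((hQ l).iterate _)).norm
      refine Integrable.const_mul ?_ _
      refine Integrable.of_bound h4.aestronglyMeasurable ((q * (m : ℝ) ^ K) ^ 3 * D) ?_
      filter_upwards with x
      rw [Real.norm_of_nonneg (mul_nonneg (h1 x _).1 (norm_nonneg _))]
      exact mul_le_mul (h1 x _).2 (hD _) (norm_nonneg _) (by positivity)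
    · filter_upwards with x
      unfold tr
      rw [norm_mul, Complex.norm_real, Real.norm_of_nonneg (h1 x y).1, norm_prod]
      have h5 := hu (fun j => (Q j)^[tm j y] x)
      calc w3 q m K (θ 0) x y * ∏ j, ‖F j ((Q j)^[tm j y] x)‖
          ≤ w3 q m K (θ 0) x y * (c * ‖g ((Q l)^[tm l y] x)‖) :=
            mul_le_mul_of_nonneg_left h5 (h1 x y).1
        _ = c * (w3 q m K (θ 0) x y * ‖g ((Q l)^[tm l y] x)‖) := by ring
  refine (norm_cavg3_le _ _).trans ((avg3_mono N h3).trans ?_)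
  rw [avg3_mul]
  refine mul_le_mul_of_nonneg_left ?_ hc
  have h6 := hN₀ N hN hqN
  rw [swapR hq hm hθ (hQ l) X l hg.norm (fun x => norm_nonneg _) hD] at h6
  linarith

/-- difference in one place -/
theorem sub {q m K : ℕ} (hq : 1 ≤ q) (hm : 1 ≤ m) {θ : ℕ → Ω → Circle}
    (hθ : ∀ j, Measurable (θ j)) {Q : Fin 3 → Ω → Ω} (hQ : ∀ l, Measurable (Q l)) (X : Set Ω)
    {F G H : Fin 3 → Ω → ℂ} (hF : ∀ l, Measurable (F l)) (hG : ∀ l, Measurable (G l))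
    (hH : ∀ l, Measurable (H l)) {C : ℝ} (hFC : ∀ l x, ‖F l x‖ ≤ C) (hGC : ∀ l x, ‖G l x‖ ≤ C)
    (hHC : ∀ l x, ‖H l x‖ ≤ C)
    (hu : ∀ u : Fin 3 → Ω, ∏ j, H j (u j) = ∏ j, F j (u j) - ∏ j, G j (u j)) (N : ℕ) :
    ∫ x in X, cavg3 N (fun y => tr q m K θ Q H y x) ∂μ =
      ∫ x in X, cavg3 N (fun y => tr q m K θ Q F y x) ∂μ -
      ∫ x in X, cavg3 N (fun y => tr q m K θ Q G y x) ∂μ := by
  rw [swap hq hm hθ hQ X hF hFC, swap hq hm hθ hQ X hG hGC, swap hq hm hθ hQ X hH hHC,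
    ← cavg3_sub]
  congr 1
  ext y
  rw [← integral_sub (integrable_tr hq hm hθ hQ X hF hFC y) (integrable_tr hq hm hθ hQ X hG hGC y)]
  refine integral_congr_ae ?_
  filter_upwards with x
  unfold tr
  rw [hu]
  ring

/-- finite sums -/
theorem sm {q m K : ℕ} (hq : 1 ≤ q) (hm : 1 ≤ m) {θ : ℕ → Ω → Circle}
    (hθ : ∀ j, Measurable (θ j)) {Q : Fin 3 → Ω → Ω} (hQ : ∀ l, Measurable (Q l)) (X : Set Ω)
    {ι : Type} (s : Finset ι) {F : Fin 3 → Ω → ℂ} {G : ι → Fin 3 → Ω → ℂ}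
    (hF : ∀ l, Measurable (F l)) (hG : ∀ i l, Measurable (G i l)) {C : ℝ}
    (hFC : ∀ l x, ‖F l x‖ ≤ C) (hGC : ∀ i l x, ‖G i l x‖ ≤ C)
    (hu : ∀ u : Fin 3 → Ω, ∏ j, F j (u j) = ∑ i ∈ s, ∏ j, G i j (u j)) (N : ℕ) :
    ∫ x in X, cavg3 N (fun y => tr q m K θ Q F y x) ∂μ =
      ∑ i ∈ s, ∫ x in X, cavg3 N (fun y => tr q m K θ Q (G i) y x) ∂μ := by
  have h1 : ∀ i, ∫ x in X, cavg3 N (fun y => tr q m K θ Q (G i) y x) ∂μ =
      cavg3 N (fun y => ∫ x in X, tr q m K θ Q (G i) y x ∂μ) :=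
    fun i => swap hq hm hθ hQ X (hG i) (hGC i) N
  simp only [h1]
  rw [swap hq hm hθ hQ X hF hFC, ← cavg3_sum]
  congr 1
  ext y
  rw [← integral_finsetSum _ fun i _ => integrable_tr hq hm hθ hQ X (hG i) (hGC i) y]
  refine integral_congr_ae ?_
  filter_upwards with x
  unfold tr
  rw [hu, mul_sum]

/-- approximation in the mean -/
theorem appr {Q : Ω → Ω} {P : (Ω → ℂ) → (Ω → Circle) → Prop} {f : Ω → ℝ} (hf : Measurable f)
    (hf1 : ∀ x, |f x| ≤ 1) (h : InS μ Q P f) {δ : ℝ} (hδ : 0 < δ) :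
    ∃ (ι : Type) (_ : Fintype ι) (v : ι → Ω → ℂ) (lam : ι → Ω → Circle) (C : ℝ),
      (∀ i, GEig μ Q (v i) (lam i)) ∧ (∀ i x, ‖v i x‖ ≤ C) ∧ (∀ i, P (v i) (lam i)) ∧ 1 ≤ C ∧
      (∀ x, ‖∑ i, v i x‖ ≤ C) ∧ ∫ x, ‖(f x : ℂ) - ∑ i, v i x‖ ∂μ ≤ δ := by
  obtain ⟨ι, hι, v, lam, K, h1, h2, h3, h4⟩ := h (δ ^ 2) (by positivity)
  have hm : Measurable fun x => ∑ i, v i x := Finset.measurable_sum _ fun i _ => (h1 i).1
  have hC : ∀ x, ‖∑ i, v i x‖ ≤ Fintype.card ι * |K| := by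
    intro x
    refine (norm_sum_le _ _).trans ?_
    calc ∑ i, ‖v i x‖ ≤ ∑ _i : ι, |K| := sum_le_sum fun i _ => (h2 i x).trans (le_abs_self K)
      _ = Fintype.card ι * |K| := by simp
  refine ⟨ι, hι, v, lam, 1 + |K| + Fintype.card ι * |K|, h1, fun i x => ?_, h3, ?_,
    fun x => ?_, ?_⟩
  · have h5 := (h2 i x).trans (le_abs_self K)
    have h6 : 0 ≤ (Fintype.card ι : ℝ) * |K| := by positivity
    linarith
  · have h6 : 0 ≤ (Fintype.card ι : ℝ) * |K| := by positivity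
    have h7 := abs_nonneg K
    linarith
  · have h7 := abs_nonneg K
    linarith [hC x]
  · have hb : ∀ x, ‖(f x : ℂ) - ∑ i, v i x‖ ≤ 1 + Fintype.card ι * |K| := by
      intro x
      refine (norm_sub_le _ _).trans ?_
      have h8 : ‖(f x : ℂ)‖ ≤ 1 := by
        rw [Complex.norm_real]
        exact hf1 x
      linarith [hC x]
    have hmm : Measurable fun x => (f x : ℂ) - ∑ i, v i x :=
      (Complex.measurable_ofReal.comp hf).sub hm
    have hi1 : Integrable (fun x => ‖(f x : ℂ) - ∑ i, v i x‖) μ := by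
      refine Integrable.of_bound hmm.norm.aestronglyMeasurable (1 + Fintype.card ι * |K|) ?_
      filter_upwards with x
      rw [norm_norm]
      exact hb x
    have hi2 : Integrable (fun x => ‖(f x : ℂ) - ∑ i, v i x‖ ^ 2) μ := by
      refine Integrable.of_bound (hmm.norm.pow_const 2).aestronglyMeasurable
        ((1 + Fintype.card ι * |K|) ^ 2) ?_
      filter_upwards with x
      rw [Real.norm_of_nonneg (by positivity)]
      exact pow_le_pow_left₀ (norm_nonneg _) (hb x) 2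
    have h9 : ∀ x, ‖(f x : ℂ) - ∑ i, v i x‖ ≤
        δ / 2 + (2 * δ)⁻¹ * ‖(f x : ℂ) - ∑ i, v i x‖ ^ 2 := by
      intro x
      set t := ‖(f x : ℂ) - ∑ i, v i x‖
      have h10 : 0 ≤ (2 * δ)⁻¹ * (t - δ) ^ 2 := by positivity
      have h11 : (2 * δ)⁻¹ * (t - δ) ^ 2 = (2 * δ)⁻¹ * t ^ 2 - t + δ / 2 := by
        field_simp
        ring
      linarith
    calc ∫ x, ‖(f x : ℂ) - ∑ i, v i x‖ ∂μ
        ≤ ∫ x, (δ / 2 + (2 * δ)⁻¹ * ‖(f x : ℂ) - ∑ i, v i x‖ ^ 2) ∂μ :=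
          integral_mono hi1 ((integrable_const _).add (hi2.const_mul _)) h9
      _ = δ / 2 + (2 * δ)⁻¹ * ∫ x, ‖(f x : ℂ) - ∑ i, v i x‖ ^ 2 ∂μ := by
          rw [integral_add (integrable_const _) (hi2.const_mul _), integral_const_mul]
          simp
      _ ≤ δ / 2 + (2 * δ)⁻¹ * δ ^ 2 := by
          have : 0 ≤ (2 * δ)⁻¹ := by positivity
          gcongr
      _ = δ := by
          field_simp
          ring

end

end RTM_

open RTM_ in
/-- Target RTM. -/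
theorem p_RTM (hT : T_TRI.{u}) (hE : T_EWL.{u}) : T_RTM.{u} := by
  intro Ω _ μ _ Q θ X hA q m K hq hm P f hf hf1 hS hR ε hε
  have hθ : ∀ j, Measurable (θ 0 j) := hA.2.1 0
  have hQ : ∀ l, Measurable (Q l) := fun l => (hA.1 l).measurable
  obtain ⟨ι2, i2, v2, lam2, C2, g2, b2, p2, c2, s2, e2⟩ :=
    appr (hf 2) (hf1 2) (hS 2) (show (0 : ℝ) < ε / 8 by positivity)
  have hC2 : 0 < C2 := by linarith
  obtain ⟨ι0, i0, v0, lam0, C0, g0, b0, p0, c0, s0, e0⟩ :=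
    appr (hf 0) (hf1 0) (hS 0) (show (0 : ℝ) < ε / (8 * C2) by positivity)
  have hC0 : 0 < C0 := by linarith
  obtain ⟨ι1, i1, v1, lam1, C1, g1, b1, p1, c1, s1, e1⟩ :=
    appr (hf 1) (hf1 1) (hS 1) (show (0 : ℝ) < ε / (8 * C2 * C0) by positivity)
  have hC1 : 0 < C1 := by linarith
  set V0 : Ω → ℂ := fun x => ∑ i, v0 i x with hV0
  set V1 : Ω → ℂ := fun x => ∑ i, v1 i x with hV1
  set V2 : Ω → ℂ := fun x => ∑ i, v2 i x with hV2
  have mV0 : Measurable V0 := Finset.measurable_sum _ fun i _ => (g0 i).1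
  have mV1 : Measurable V1 := Finset.measurable_sum _ fun i _ => (g1 i).1
  have mV2 : Measurable V2 := Finset.measurable_sum _ fun i _ => (g2 i).1
  set fc : Fin 3 → Ω → ℂ := fun l x => (f l x : ℂ) with hfc
  have mfc : ∀ l, Measurable (fc l) := fun l => Complex.measurable_ofReal.comp (hf l)
  have nfc : ∀ l x, ‖fc l x‖ ≤ 1 := fun l x => by
    rw [hfc]
    simp only [Complex.norm_real]
    exact hf1 l x
  set C : ℝ := 1 + C0 + C1 + C2 with hCdef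
  set Fb : Fin 3 → Ω → ℂ := ![fc 0, fc 1, V2] with hFb
  set Fc : Fin 3 → Ω → ℂ := ![V0, fc 1, V2] with hFc
  set Fd : Fin 3 → Ω → ℂ := ![V0, V1, V2] with hFd
  set Ha : Fin 3 → Ω → ℂ := ![fc 0, fc 1, fun x => fc 2 x - V2 x] with hHa
  set Hb : Fin 3 → Ω → ℂ := ![fun x => fc 0 x - V0 x, fc 1, V2] with hHb
  set Hc : Fin 3 → Ω → ℂ := ![V0, fun x => fc 1 x - V1 x, V2] with hHc
  have n0 : ∀ x, ‖fc 0 x - V0 x‖ ≤ 1 + C0 := fun x =>
    (norm_sub_le _ _).trans (add_le_add (nfc 0 x) (s0 x))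
  have n1 : ∀ x, ‖fc 1 x - V1 x‖ ≤ 1 + C1 := fun x =>
    (norm_sub_le _ _).trans (add_le_add (nfc 1 x) (s1 x))
  have n2 : ∀ x, ‖fc 2 x - V2 x‖ ≤ 1 + C2 := fun x =>
    (norm_sub_le _ _).trans (add_le_add (nfc 2 x) (s2 x))
  have a1 : (1 : ℝ) ≤ C := by rw [hCdef]; linarith
  have a0 : 1 + C0 ≤ C := by rw [hCdef]; linarith
  have a1' : 1 + C1 ≤ C := by rw [hCdef]; linarith
  have a2 : 1 + C2 ≤ C := by rw [hCdef]; linarith
  have kF : ∀ {A B D : Ω → ℂ}, Measurable A → Measurable B → Measurable D →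
      ∀ l : Fin 3, Measurable ((![A, B, D] : Fin 3 → Ω → ℂ) l) := by
    intro A B D h h' h'' l
    fin_cases l
    · exact h
    · exact h'
    · exact h''
  have kB : ∀ {A B D : Ω → ℂ}, (∀ x, ‖A x‖ ≤ C) → (∀ x, ‖B x‖ ≤ C) → (∀ x, ‖D x‖ ≤ C) →
      ∀ (l : Fin 3) (x : Ω), ‖(![A, B, D] : Fin 3 → Ω → ℂ) l x‖ ≤ C := by
    intro A B D h h' h'' l x
    fin_cases l
    · exact h x
    · exact h' x
    · exact h'' x
  have bfc : ∀ l x, ‖fc l x‖ ≤ C := fun l x => (nfc l x).trans a1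
  have bV0 : ∀ x, ‖V0 x‖ ≤ C := fun x => (s0 x).trans (by linarith)
  have bV1 : ∀ x, ‖V1 x‖ ≤ C := fun x => (s1 x).trans (by linarith)
  have bV2 : ∀ x, ‖V2 x‖ ≤ C := fun x => (s2 x).trans (by linarith)
  have m0 : Measurable fun x => fc 0 x - V0 x := (mfc 0).sub mV0
  have m1 : Measurable fun x => fc 1 x - V1 x := (mfc 1).sub mV1
  have m2 : Measurable fun x => fc 2 x - V2 x := (mfc 2).sub mV2
  obtain ⟨Na, hNa⟩ := err hE (K := K) hq hm hA 2 m2 n2 (show (0 : ℝ) < ε / 8 by positivity) e2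
  obtain ⟨Nb, hNb⟩ := err hE (K := K) hq hm hA 0 m0 n0
    (show (0 : ℝ) < ε / (8 * C2) by positivity) e0
  obtain ⟨Nc, hNc⟩ := err hE (K := K) hq hm hA 1 m1 n1
    (show (0 : ℝ) < ε / (8 * C2 * C0) by positivity) e1
  -- the main terms
  set G : ι0 × ι1 × ι2 → Fin 3 → Ω → ℂ := fun p => ![v0 p.1, v1 p.2.1, v2 p.2.2] with hG
  set Lm : ι0 × ι1 × ι2 → Fin 3 → Ω → Circle :=
    fun p => ![lam0 p.1, lam1 p.2.1, lam2 p.2.2] with hLm
  have gG : ∀ p l, GEig μ (Q l) (G p l) (Lm p l) := by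
    intro p l
    fin_cases l
    · exact g0 _
    · exact g1 _
    · exact g2 _
  have pG : ∀ p l, P l (G p l) (Lm p l) := by
    intro p l
    fin_cases l
    · exact p0 _
    · exact p1 _
    · exact p2 _
  have bG : ∀ p l x, ‖G p l x‖ ≤ C := fun p => kB (fun x => (b0 _ x).trans (by linarith))
    (fun x => (b1 _ x).trans (by linarith)) (fun x => (b2 _ x).trans (by linarith))
  set M : ℝ := (Fintype.card (ι0 × ι1 × ι2) : ℝ) + 1 with hM
  have hM0 : 0 < M := by positivity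
  have hTR : ∀ p, ∃ N₀ : ℕ, ∀ N ≥ N₀,
      ‖∫ x in X, cavg3 N (fun y => tr q m K (θ 0) Q (G p) y x) ∂μ‖ ≤ ε / (4 * M) := fun p =>
    hT Ω μ Q θ X hA q m K hq hm (G p) (Lm p) (gG p) ⟨C, bG p⟩ (hR _ _ (gG p) (pG p))
      (ε / (4 * M)) (by positivity)
  choose Np hNp using hTR
  refine ⟨Na + Nb + Nc + univ.sup Np, fun N hN hqN => ?_⟩
  have t1 := hNa N (by omega) hqN Ha 1 C (kF (mfc 0) (mfc 1) m2)
    (kB (bfc 0) (bfc 1) fun x => (n2 x).trans a2) rfl zero_le_one (by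
      intro u
      rw [Fin.prod_univ_three]
      simp only [hHa, Matrix.cons_val_zero, Matrix.cons_val_one, Matrix.cons_val]
      have h1 := nfc 0 (u 0)
      have h2 := nfc 1 (u 1)
      have h3 : ‖fc 0 (u 0)‖ * ‖fc 1 (u 1)‖ ≤ 1 := mul_le_one₀ h1 (norm_nonneg _) h2
      exact mul_le_mul_of_nonneg_right h3 (norm_nonneg _))
  have t2 := hNb N (by omega) hqN Hb C2 C (kF m0 (mfc 1) mV2)
    (kB (fun x => (n0 x).trans a0) (bfc 1) bV2) rfl hC2.le (by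
      intro u
      rw [Fin.prod_univ_three]
      simp only [hHb, Matrix.cons_val_zero, Matrix.cons_val_one, Matrix.cons_val]
      have h2 := nfc 1 (u 1)
      have h3 : ‖fc 1 (u 1)‖ * ‖V2 (u 2)‖ ≤ 1 * C2 :=
        mul_le_mul h2 (s2 _) (norm_nonneg _) zero_le_one
      calc ‖fc 0 (u 0) - V0 (u 0)‖ * ‖fc 1 (u 1)‖ * ‖V2 (u 2)‖
          = (‖fc 1 (u 1)‖ * ‖V2 (u 2)‖) * ‖fc 0 (u 0) - V0 (u 0)‖ := by ring
        _ ≤ (1 * C2) * ‖fc 0 (u 0) - V0 (u 0)‖ :=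
          mul_le_mul_of_nonneg_right h3 (norm_nonneg _)
        _ = C2 * ‖fc 0 (u 0) - V0 (u 0)‖ := by ring)
  have t3 := hNc N (by omega) hqN Hc (C0 * C2) C (kF mV0 m1 mV2)
    (kB bV0 (fun x => (n1 x).trans a1') bV2) rfl (by positivity) (by
      intro u
      rw [Fin.prod_univ_three]
      simp only [hHc, Matrix.cons_val_zero, Matrix.cons_val_one, Matrix.cons_val]
      have h3 : ‖V0 (u 0)‖ * ‖V2 (u 2)‖ ≤ C0 * C2 :=
        mul_le_mul (s0 _) (s2 _) (norm_nonneg _) hC0.le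
      calc ‖V0 (u 0)‖ * ‖fc 1 (u 1) - V1 (u 1)‖ * ‖V2 (u 2)‖
          = (‖V0 (u 0)‖ * ‖V2 (u 2)‖) * ‖fc 1 (u 1) - V1 (u 1)‖ := by ring
        _ ≤ (C0 * C2) * ‖fc 1 (u 1) - V1 (u 1)‖ :=
          mul_le_mul_of_nonneg_right h3 (norm_nonneg _))
  have d1 := sub (μ := μ) (K := K) hq hm hθ hQ X (F := fc) (G := Fb) (H := Ha) mfc
    (kF (mfc 0) (mfc 1) mV2) (kF (mfc 0) (mfc 1) m2) bfc (kB (bfc 0) (bfc 1) bV2)
    (kB (bfc 0) (bfc 1) fun x => (n2 x).trans a2) (by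
      intro u
      rw [Fin.prod_univ_three, Fin.prod_univ_three, Fin.prod_univ_three]
      simp only [hHa, hFb, Matrix.cons_val_zero, Matrix.cons_val_one, Matrix.cons_val]
      ring) N
  have d2 := sub (μ := μ) (K := K) hq hm hθ hQ X (F := Fb) (G := Fc) (H := Hb)
    (kF (mfc 0) (mfc 1) mV2) (kF mV0 (mfc 1) mV2) (kF m0 (mfc 1) mV2)
    (kB (bfc 0) (bfc 1) bV2) (kB bV0 (bfc 1) bV2)
    (kB (fun x => (n0 x).trans a0) (bfc 1) bV2) (by
      intro u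
      rw [Fin.prod_univ_three, Fin.prod_univ_three, Fin.prod_univ_three]
      simp only [hHb, hFb, hFc, Matrix.cons_val_zero, Matrix.cons_val_one, Matrix.cons_val]
      ring) N
  have d3 := sub (μ := μ) (K := K) hq hm hθ hQ X (F := Fc) (G := Fd) (H := Hc)
    (kF mV0 (mfc 1) mV2) (kF mV0 mV1 mV2) (kF mV0 m1 mV2)
    (kB bV0 (bfc 1) bV2) (kB bV0 bV1 bV2)
    (kB bV0 (fun x => (n1 x).trans a1') bV2) (by
      intro u
      rw [Fin.prod_univ_three, Fin.prod_univ_three, Fin.prod_univ_three]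
      simp only [hHc, hFc, hFd, Matrix.cons_val_zero, Matrix.cons_val_one, Matrix.cons_val]
      ring) N
  have d4 := sm (μ := μ) (K := K) hq hm hθ hQ X univ (F := Fd) (G := G) (kF mV0 mV1 mV2)
    (fun p l => (gG p l).1) (kB bV0 bV1 bV2) bG (by
      intro u
      rw [Fin.prod_univ_three, Fintype.sum_prod_type]
      simp only [hFd, hG, Fintype.sum_prod_type, Fin.prod_univ_three, Matrix.cons_val_zero,
        Matrix.cons_val_one, Matrix.cons_val, hV0, hV1, hV2]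
      rw [sum_mul_sum, sum_mul]
      refine sum_congr rfl fun i _ => ?_
      rw [sum_mul]
      refine sum_congr rfl fun j _ => ?_
      rw [mul_sum]) N
  have t4 : ‖∫ x in X, cavg3 N (fun y => tr q m K (θ 0) Q Fd y x) ∂μ‖ ≤ ε / 4 := by
    rw [d4]
    refine (norm_sum_le _ _).trans ?_
    calc ∑ p, ‖∫ x in X, cavg3 N (fun y => tr q m K (θ 0) Q (G p) y x) ∂μ‖
        ≤ ∑ _p : ι0 × ι1 × ι2, ε / (4 * M) := by
          refine sum_le_sum fun p _ => hNp p N ?_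
          have := Finset.le_sup (f := Np) (mem_univ p)
          omega
      _ = (M - 1) * (ε / (4 * M)) := by
          rw [sum_const, card_univ, nsmul_eq_mul, hM]
          ring
      _ ≤ M * (ε / (4 * M)) := by
          apply mul_le_mul_of_nonneg_right _ (by positivity)
          linarith
      _ = ε / 4 := by
          field_simp
  have hTF : ((TF μ X N q m K (θ 0) Q f : ℝ) : ℂ) =
      ∫ x in X, cavg3 N (fun y => tr q m K (θ 0) Q fc y x) ∂μ := by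
    unfold TF
    rw [← integral_complex_ofReal]
    refine integral_congr_ae ?_
    filter_upwards with x
    rw [ofReal_avg3]
    congr 1
    ext y
    unfold tr
    push_cast
    rfl
  have hfin : ‖((TF μ X N q m K (θ 0) Q f : ℝ) : ℂ)‖ ≤ ε := by
    rw [hTF]
    have e1 : (1 : ℝ) * (2 * (ε / 8)) = ε / 4 := by ring
    have e2 : C2 * (2 * (ε / (8 * C2))) = ε / 4 := by
      field_simp
      ring
    have e3 : C0 * C2 * (2 * (ε / (8 * C2 * C0))) = ε / 4 := by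
      field_simp
      ring
    rw [e1, d1] at t1
    rw [e2, d2] at t2
    rw [e3, d3] at t3
    generalize (∫ x in X, cavg3 N (fun y => tr q m K (θ 0) Q fc y x) ∂μ) = A at *
    generalize (∫ x in X, cavg3 N (fun y => tr q m K (θ 0) Q Fb y x) ∂μ) = B at *
    generalize (∫ x in X, cavg3 N (fun y => tr q m K (θ 0) Q Fc y x) ∂μ) = D at *
    generalize (∫ x in X, cavg3 N (fun y => tr q m K (θ 0) Q Fd y x) ∂μ) = E at *
    have h5 : A = (A - B) + (B - D) + (D - E) + E := by ring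
    calc ‖A‖ = ‖(A - B) + (B - D) + (D - E) + E‖ := by rw [← h5]
      _ ≤ ‖A - B‖ + ‖B - D‖ + ‖D - E‖ + ‖E‖ :=
        (norm_add_le _ _).trans (by
          gcongr
          exact (norm_add_le _ _).trans (by gcongr; exact norm_add_le _ _))
      _ ≤ ε := by linarith
  rwa [Complex.norm_real] at hfin

end Pool.Agent.CRk
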