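import Pool.Agent.CRk.Targets

set_option autoImplicit false

/-!
# CRk: the target T_TRI (three eigenfunctions without resonance)
-/

open MeasureTheory Filter Topology Finset

namespace Pool.Agent.CRk

open Pool.Agent.FSP Pool.Agent.Ind3

universe u

namespace TRI_

theorem cmean_congr {N s : ℕ} {f g : ℕ → ℂ} (h : ∀ n, s ≤ n → n < s + N → f n = g n) :
    cmean N s f = cmean N s g := by
  unfold cmean
  congr 1
  exact sum_congr rfl fun n hn => h _ (by omega) (by have := mem_range.1 hn; omega)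

theorem cmean_mul {N s : ℕ} {f : ℕ → ℂ} (c : ℂ) :
    (cmean N s fun n => c * f n) = c * cmean N s f := by
  unfold cmean
  rw [← mul_sum]
  ring

theorem cmean_le {N s : ℕ} {f : ℕ → ℂ} {C : ℝ} (hC : 0 ≤ C) (h : ∀ n, ‖f n‖ ≤ C) :
    ‖cmean N s f‖ ≤ C := by
  unfold cmean
  rcases Nat.eq_zero_or_pos N with h0 | h0
  · subst h0
    simpa using hC
  · rw [norm_mul, norm_inv, Complex.norm_natCast]
    have hN : (0 : ℝ) < N := by exact_mod_cast h0
    calc (N : ℝ)⁻¹ * ‖∑ n ∈ range N, f (s + n)‖ ≤ (N : ℝ)⁻¹ * (N * C) := by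
          refine mul_le_mul_of_nonneg_left ?_ (by positivity)
          refine (norm_sum_le _ _).trans ?_
          calc ∑ n ∈ range N, ‖f (s + n)‖ ≤ ∑ n ∈ range N, C := sum_le_sum fun n _ => h _
            _ = N * C := by rw [sum_const, card_range, nsmul_eq_mul]
      _ = C := by field_simp

theorem cmean_meas {Ω : Type u} [MeasurableSpace Ω] {N s : ℕ} {f : ℕ → Ω → ℂ}
    (h : ∀ n, Measurable (f n)) : Measurable fun x => cmean N s fun n => f n x := by
  unfold cmean
  exact (Finset.measurable_sum _ fun n _ => h _).const_mul _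

/-- The orbit of an eigenfunction. -/
theorem orbit {Ω : Type u} [MeasurableSpace Ω] {μ : Measure Ω} {Q : Ω → Ω}
    (hQ : MeasurePreserving Q μ μ) {v : Ω → ℂ} {lam : Ω → Circle} (h : GEig μ Q v lam) :
    ∀ᵐ x ∂μ, ∀ n : ℕ, v (Q^[n] x) = (lam x : ℂ) ^ n * v x := by
  obtain ⟨-, -, h3, h4⟩ := h
  have h5 : ∀ᵐ x ∂μ, ∀ n : ℕ, v (Q (Q^[n] x)) = (lam (Q^[n] x) : ℂ) * v (Q^[n] x) :=
    ae_all_iff.2 fun n => (hQ.iterate n).quasiMeasurePreserving.ae h4
  filter_upwards [h5] with x hx n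
  have h6 : ∀ n : ℕ, lam (Q^[n] x) = lam x := by
    intro n
    induction n with
    | zero => rfl
    | succ n ih => rw [Function.iterate_succ_apply', h3, ih]
  induction n with
  | zero => simp
  | succ n ih =>
    rw [Function.iterate_succ_apply', hx n, h6 n, ih, pow_succ]
    ring

/-- The product formula. -/
theorem split (N : ℕ) (W : ℕ → ℂ) (P : Fin 3 → ℂ) (V : Fin 3 → ℕ → ℂ) (l : Fin 3 → Circle)
    (hV : ∀ i n, V i n = (l i : ℂ) ^ n * P i) :
    cavg3 N (fun y => W (y 0) * W (y 1) * W (y 2) * ∏ i, V i (tm i y)) =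
      (∏ i, P i) * ((cmean N N fun n => W n * ((l 2 ^ 2 * l 1 : Circle) : ℂ) ^ n) *
        ((cmean N 0 fun n => W n * ((l 2 * (l 0)⁻¹ : Circle) : ℂ) ^ n) *
          cmean N (3 * N) fun n => W n * ((l 1 * l 0 ^ 2 : Circle) : ℂ) ^ n)) := by
  unfold cavg3
  have h1 : ∀ a b c : ℕ, b ≤ 2 * c →
      W a * W b * W c * ∏ i, V i (tm i ![a, b, c]) =
        ((∏ i, P i) * (W a * ((l 2 ^ 2 * l 1 : Circle) : ℂ) ^ a)) *
          ((W b * ((l 2 * (l 0)⁻¹ : Circle) : ℂ) ^ b) *
            (W c * ((l 1 * l 0 ^ 2 : Circle) : ℂ) ^ c)) := by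
    intro a b c hbc
    rw [Fin.prod_univ_three, Fin.prod_univ_three, hV, hV, hV]
    have t0 : tm 0 ![a, b, c] = 2 * c - b := rfl
    have t1 : tm 1 ![a, b, c] = a + c := rfl
    have t2 : tm 2 ![a, b, c] = 2 * a + b := rfl
    rw [t0, t1, t2]
    have hne : ((l 0 : Circle) : ℂ) ≠ 0 := Circle.coe_ne_zero _
    have h2 : ((l 0 : Circle) : ℂ) ^ (2 * c - b) =
        ((l 0 : Circle) : ℂ) ^ (2 * c) * (((l 0 : Circle) : ℂ)⁻¹) ^ b := by
      have h3 : ((l 0 : Circle) : ℂ) ^ (2 * c) =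
          ((l 0 : Circle) : ℂ) ^ (2 * c - b) * ((l 0 : Circle) : ℂ) ^ b := by
        rw [← pow_add]
        congr 1
        omega
      rw [h3, mul_assoc, ← mul_pow, mul_inv_cancel₀ hne, one_pow, mul_one]
    rw [h2]
    push_cast
    rw [pow_mul, pow_add, pow_add, pow_mul, mul_pow, mul_pow, mul_pow]
    ring
  rw [← mul_assoc, ← cmean_mul]
  have h4 : ∀ a : ℕ,
      (cmean N 0 fun b => cmean N (3 * N) fun c =>
        W (![a, b, c] 0) * W (![a, b, c] 1) * W (![a, b, c] 2) *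
          ∏ i, V i (tm i ![a, b, c])) =
      ((∏ i, P i) * (W a * ((l 2 ^ 2 * l 1 : Circle) : ℂ) ^ a)) *
        ((cmean N 0 fun n => W n * ((l 2 * (l 0)⁻¹ : Circle) : ℂ) ^ n) *
          cmean N (3 * N) fun n => W n * ((l 1 * l 0 ^ 2 : Circle) : ℂ) ^ n) := by
    intro a
    rw [mul_comm (cmean N 0 _) (cmean N (3 * N) _), ← mul_assoc, ← cmean_mul]
    refine cmean_congr fun b _ hb => ?_
    have h5 : (cmean N (3 * N) fun c =>
        W (![a, b, c] 0) * W (![a, b, c] 1) * W (![a, b, c] 2) *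
          ∏ i, V i (tm i ![a, b, c])) =
        cmean N (3 * N) fun c => (((∏ i, P i) * (W a * ((l 2 ^ 2 * l 1 : Circle) : ℂ) ^ a)) *
          (W b * ((l 2 * (l 0)⁻¹ : Circle) : ℂ) ^ b)) *
            (W c * ((l 1 * l 0 ^ 2 : Circle) : ℂ) ^ c) := by
      refine cmean_congr fun c hc _ => ?_
      have h6 := h1 a b c (by omega)
      have h7 : W (![a, b, c] 0) * W (![a, b, c] 1) * W (![a, b, c] 2) *
          ∏ i, V i (tm i ![a, b, c]) = W a * W b * W c * ∏ i, V i (tm i ![a, b, c]) := rfl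
      rw [h7, h6]
      ring
    rw [h5, cmean_mul]
    ring
  have h8 : (cmean N N fun a => cmean N 0 fun b => cmean N (3 * N) fun c =>
        W (![a, b, c] 0) * W (![a, b, c] 1) * W (![a, b, c] 2) *
          ∏ i, V i (tm i ![a, b, c])) =
      cmean N N fun a => ((cmean N 0 fun n => W n * ((l 2 * (l 0)⁻¹ : Circle) : ℂ) ^ n) *
          cmean N (3 * N) fun n => W n * ((l 1 * l 0 ^ 2 : Circle) : ℂ) ^ n) *
            ((∏ i, P i) * (W a * ((l 2 ^ 2 * l 1 : Circle) : ℂ) ^ a)) := by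
    refine cmean_congr fun a _ _ => ?_
    rw [h4 a]
    ring
  rw [h8, cmean_mul]
  ring

end TRI_

open TRI_ in
/-- T_TRI. -/
theorem p_TRI (hCHA : T_CHA.{u}) : T_TRI.{u} := by
  intro Ω _ μ _ Q θ X hA q m K hq hm v lam hG hC hR ε hε
  obtain ⟨hQ, hθm, hθi, hX, -⟩ := hA
  obtain ⟨C, hC⟩ := hC
  have hτm : ∀ i : Fin K, Measurable ((fun i : Fin K => θ 0 i) i) := fun i => hθm 0 i
  obtain ⟨hw1, hw2, -⟩ := f_NWA Ω q m K (fun i : Fin K => θ 0 i) hq hm hτm
  set B : ℝ := (q : ℝ) * (m : ℝ) ^ K with hB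
  have hB0 : 0 ≤ B := by positivity
  have hwn : ∀ x n, ‖((wt q m K (θ 0) x n : ℝ) : ℂ)‖ ≤ B := by
    intro x n
    rw [Complex.norm_real, Real.norm_eq_abs]
    have h1 : 0 ≤ wt q m K (θ 0) x n := (hw1 x n).1
    rw [abs_of_nonneg h1]
    exact (hw1 x n).2
  have hwz : ∀ x n (z : Circle), ‖((wt q m K (θ 0) x n : ℝ) : ℂ) * (z : ℂ) ^ n‖ ≤ B := by
    intro x n z
    rw [norm_mul, norm_pow, Circle.norm_coe, one_pow, mul_one]
    exact hwn x n
  set D : ℝ := |C| with hD
  have hvD : ∀ l x, ‖v l x‖ ≤ D := fun l x => (hC l x).trans (le_abs_self C)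
  have hD0 : 0 ≤ D := abs_nonneg C
  -- the integrands
  set h : ℕ → Ω → ℂ := fun N x => cavg3 N (fun y => ((w3 q m K (θ 0) x y : ℝ) : ℂ) *
      ∏ l, v l ((Q l)^[tm l y] x)) with hh
  have hmeas : ∀ N, Measurable (h N) := by
    intro N
    rw [hh]
    unfold cavg3
    refine cmean_meas fun a => cmean_meas fun b => cmean_meas fun c => ?_
    refine Measurable.mul ?_ ?_
    · refine Complex.measurable_ofReal.comp ?_
      unfold w3 wt
      exact ((hw2 _).mul (hw2 _)).mul (hw2 _)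
    · refine Finset.measurable_prod _ fun l _ => ?_
      exact (hG l).1.comp ((hQ l).iterate _).measurable
  have hbd : ∀ N x, ‖h N x‖ ≤ B * B * B * (D * D * D) := by
    intro N x
    have h0 : 0 ≤ B * B * B * (D * D * D) := by positivity
    refine cmean_le h0 fun a => cmean_le h0 fun b => cmean_le h0 fun c => ?_
    rw [norm_mul]
    unfold w3
    push_cast
    rw [norm_mul, norm_mul, norm_prod, Fin.prod_univ_three]
    refine mul_le_mul ?_ ?_ (by positivity) (by positivity)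
    · exact mul_le_mul (mul_le_mul (hwn x _) (hwn x _) (norm_nonneg _) hB0) (hwn x _)
        (norm_nonneg _) (by positivity)
    · exact mul_le_mul (mul_le_mul (hvD _ _) (hvD _ _) (norm_nonneg _) hD0) (hvD _ _)
        (norm_nonneg _) (by positivity)
  have horb : ∀ᵐ x ∂μ, ∀ l, ∀ n : ℕ, v l ((Q l)^[n] x) = (lam l x : ℂ) ^ n * v l x :=
    ae_all_iff.2 fun l => orbit (hQ l) (hG l)
  -- one mean tends to zero
  have hone : ∀ (x : Ω) (φ : Ω → Circle), ¬ RelN (θ 0) φ x → ∀ δ : ℝ, 0 < δ → ∃ N₀ : ℕ,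
      ∀ N ≥ N₀, ∀ s : ℕ,
        ‖cmean N s (fun n => ((wt q m K (θ 0) x n : ℝ) : ℂ) * (φ x : ℂ) ^ n)‖ ≤ δ := by
    intro x φ hφ δ hδ
    refine hCHA Ω q m K (fun i : Fin K => θ 0 i) x (φ x) hq hm ?_ δ hδ
    intro n a hn hna
    exact hφ ⟨n, hn, K, a, hna⟩
  have hlim : ∀ᵐ x ∂(μ.restrict X), Tendsto (fun N => h N x) atTop (𝓝 0) := by
    rw [ae_restrict_iff' hX]
    filter_upwards [horb, hR] with x hx hRx hxX
    have hsp : ∀ N, h N x = (∏ i, v i x) *
        ((cmean N N fun n => ((wt q m K (θ 0) x n : ℝ) : ℂ) *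
            ((lam 2 x ^ 2 * lam 1 x : Circle) : ℂ) ^ n) *
          ((cmean N 0 fun n => ((wt q m K (θ 0) x n : ℝ) : ℂ) *
            ((lam 2 x * (lam 0 x)⁻¹ : Circle) : ℂ) ^ n) *
            cmean N (3 * N) fun n => ((wt q m K (θ 0) x n : ℝ) : ℂ) *
              ((lam 1 x * lam 0 x ^ 2 : Circle) : ℂ) ^ n)) := by
      intro N
      rw [← split N (fun n => ((wt q m K (θ 0) x n : ℝ) : ℂ)) (fun i => v i x)
        (fun i n => v i ((Q i)^[n] x)) (fun i => lam i x) (fun i n => hx i n)]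
      rw [hh]
      dsimp only
      congr 1
      funext y
      unfold w3
      push_cast
      rfl
    by_cases hz : ∀ l, v l x ≠ 0
    · have hres := hRx hxX hz
      unfold Res at hres
      rw [Metric.tendsto_atTop]
      intro δ hδ
      -- a small factor
      have hfin : ∃ N₀ : ℕ, ∀ N ≥ N₀,
          ‖(cmean N N fun n => ((wt q m K (θ 0) x n : ℝ) : ℂ) *
              ((lam 2 x ^ 2 * lam 1 x : Circle) : ℂ) ^ n) *
            ((cmean N 0 fun n => ((wt q m K (θ 0) x n : ℝ) : ℂ) *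
              ((lam 2 x * (lam 0 x)⁻¹ : Circle) : ℂ) ^ n) *
              cmean N (3 * N) fun n => ((wt q m K (θ 0) x n : ℝ) : ℂ) *
                ((lam 1 x * lam 0 x ^ 2 : Circle) : ℂ) ^ n)‖ ≤
            B * (B * (δ / (2 * (B * B + 1) * (D * D * D + 1)))) := by
        set δ' := δ / (2 * (B * B + 1) * (D * D * D + 1)) with hδ'
        have hδ'0 : 0 < δ' := by positivity
        by_cases h1 : RelN (θ 0) (fun x => lam 2 x ^ 2 * lam 1 x) x
        · by_cases h2 : RelN (θ 0) (fun x => lam 2 x * (lam 0 x)⁻¹) x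
          · have h3 : ¬ RelN (θ 0) (fun x => lam 1 x * lam 0 x ^ 2) x :=
              fun h3 => hres ⟨h1, h2, h3⟩
            obtain ⟨N₀, hN₀⟩ := hone x _ h3 δ' hδ'0
            refine ⟨N₀, fun N hN => ?_⟩
            rw [norm_mul, norm_mul]
            exact mul_le_mul (cmean_le hB0 fun n => hwz x n _)
              (mul_le_mul (cmean_le hB0 fun n => hwz x n _) (hN₀ N hN _) (norm_nonneg _) hB0)
              (by positivity) hB0
          · obtain ⟨N₀, hN₀⟩ := hone x _ h2 δ' hδ'0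
            refine ⟨N₀, fun N hN => ?_⟩
            rw [norm_mul, norm_mul]
            refine mul_le_mul (cmean_le hB0 fun n => hwz x n _) ?_ (by positivity) hB0
            rw [mul_comm B δ']
            exact mul_le_mul (hN₀ N hN _) (cmean_le hB0 fun n => hwz x n _) (norm_nonneg _)
              hδ'0.le
        · obtain ⟨N₀, hN₀⟩ := hone x _ h1 δ' hδ'0
          refine ⟨N₀, fun N hN => ?_⟩
          rw [norm_mul, norm_mul]
          have h5 : B * (B * δ') = δ' * (B * B) := by ring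
          rw [h5]
          exact mul_le_mul (hN₀ N hN _) (mul_le_mul (cmean_le hB0 fun n => hwz x n _)
            (cmean_le hB0 fun n => hwz x n _) (norm_nonneg _) hB0) (by positivity) hδ'0.le
      obtain ⟨N₀, hN₀⟩ := hfin
      refine ⟨N₀, fun N hN => ?_⟩
      rw [dist_zero_right, hsp N, norm_mul, norm_prod, Fin.prod_univ_three]
      have h6 : ‖v 0 x‖ * ‖v 1 x‖ * ‖v 2 x‖ ≤ D * D * D :=
        mul_le_mul (mul_le_mul (hvD _ _) (hvD _ _) (norm_nonneg _) hD0) (hvD _ _)
          (norm_nonneg _) (by positivity)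
      refine lt_of_le_of_lt (mul_le_mul h6 (hN₀ N hN) (norm_nonneg _) (by positivity)) ?_
      have h7 : D * D * D * (B * (B * (δ / (2 * (B * B + 1) * (D * D * D + 1))))) =
          (δ / 2) * ((B * B / (B * B + 1)) * (D * D * D / (D * D * D + 1))) := by
        field_simp
      rw [h7]
      have h8 : B * B / (B * B + 1) ≤ 1 := by
        rw [div_le_one (by positivity)]
        linarith
      have h9 : D * D * D / (D * D * D + 1) ≤ 1 := by
        rw [div_le_one (by positivity)]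
        linarith
      have h10 : (B * B / (B * B + 1)) * (D * D * D / (D * D * D + 1)) ≤ 1 :=
        mul_le_one₀ h8 (by positivity) h9
      have h11 := mul_le_mul_of_nonneg_left h10 (by positivity : (0 : ℝ) ≤ δ / 2)
      linarith
    · push Not at hz
      obtain ⟨l, hl⟩ := hz
      have h0 : ∀ N, h N x = 0 := by
        intro N
        rw [hsp N, Finset.prod_eq_zero (Finset.mem_univ l) hl, zero_mul]
      simp only [h0]
      exact tendsto_const_nhds
  have hdom := tendsto_integral_of_dominated_convergence (μ := μ.restrict X)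
    (F := h) (f := fun _ => (0 : ℂ)) (fun _ => B * B * B * (D * D * D))
    (fun N => (hmeas N).aestronglyMeasurable) (integrable_const _)
    (fun N => Filter.Eventually.of_forall fun x => hbd N x) hlim
  rw [integral_zero, Metric.tendsto_atTop] at hdom
  obtain ⟨N₀, hN₀⟩ := hdom ε hε
  refine ⟨N₀, fun N hN => ?_⟩
  have h12 := hN₀ N hN
  rw [dist_zero_right] at h12
  exact h12.le

end Pool.Agent.CRk
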