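import Pool.Agent.CRk.Targets

/-!
# CRk: TRU, truncation of a generalised eigenfunction
-/

set_option autoImplicit false

open MeasureTheory Filter Topology Finset

namespace Pool.Agent.CRk

open Pool.Agent.FSP Pool.Agent.Ind3

universe u

namespace TRU_

variable {Ω : Type u}

/-- the truncation at level `K` -/
noncomputable def tr (v : Ω → ℂ) (K : ℕ) : Ω → ℂ := Set.indicator {x | ‖v x‖ ≤ (K : ℝ)} v

theorem tr_of_le {v : Ω → ℂ} {K : ℕ} {x : Ω} (h : ‖v x‖ ≤ (K : ℝ)) : tr v K x = v x :=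
  Set.indicator_of_mem (show x ∈ {x | ‖v x‖ ≤ (K : ℝ)} from h) v

theorem tr_of_lt {v : Ω → ℂ} {K : ℕ} {x : Ω} (h : ¬ ‖v x‖ ≤ (K : ℝ)) : tr v K x = 0 :=
  Set.indicator_of_notMem (show x ∉ {x | ‖v x‖ ≤ (K : ℝ)} from h) v

theorem meas [MeasurableSpace Ω] {v : Ω → ℂ} (hv : Measurable v) (K : ℕ) : Measurable (tr v K) :=
  hv.indicator (measurableSet_le hv.norm measurable_const)

theorem norm_sub_le (v : Ω → ℂ) (K : ℕ) (x : Ω) : ‖v x - tr v K x‖ ^ 2 ≤ ‖v x‖ ^ 2 := by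
  by_cases h : ‖v x‖ ≤ (K : ℝ)
  · rw [tr_of_le h, sub_self, norm_zero, zero_pow two_ne_zero]
    positivity
  · rw [tr_of_lt h, sub_zero]

theorem tendsto_zero [MeasurableSpace Ω] {μ : Measure Ω} {v : Ω → ℂ} (hv : Measurable v)
    (hi : Integrable (fun x => ‖v x‖ ^ 2) μ) :
    Tendsto (fun K : ℕ => ∫ x, ‖v x - tr v K x‖ ^ 2 ∂μ) atTop (𝓝 0) := by
  have h1 : Tendsto (fun K : ℕ => ∫ x, ‖v x - tr v K x‖ ^ 2 ∂μ) atTop
      (𝓝 (∫ _, (0 : ℝ) ∂μ)) := by
    refine tendsto_integral_of_dominated_convergence (fun x => ‖v x‖ ^ 2) ?_ hi ?_ ?_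
    · intro K
      exact ((hv.sub (meas hv K)).norm.pow_const 2).aestronglyMeasurable
    · intro K
      refine Eventually.of_forall fun x => ?_
      rw [Real.norm_of_nonneg (by positivity)]
      exact norm_sub_le v K x
    · refine Eventually.of_forall fun x => ?_
      obtain ⟨N, hN⟩ := exists_nat_ge ‖v x‖
      refine tendsto_const_nhds.congr' ?_
      filter_upwards [eventually_ge_atTop N] with K hK
      have h2 : ‖v x‖ ≤ (K : ℝ) := hN.trans (by exact_mod_cast hK)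
      rw [tr_of_le h2, sub_self, norm_zero]
      norm_num
  simpa using h1

end TRU_

/-- TRU. -/
theorem p_TRU : T_TRU.{u} := by
  intro Ω _ μ _ Q hQ v lam hv hi ε hε
  obtain ⟨hvm, hlm, hli, hve⟩ := hv
  have ht := TRU_.tendsto_zero (μ := μ) hvm hi
  obtain ⟨K, hK⟩ := ((ht.eventually (gt_mem_nhds hε))).exists
  refine ⟨K, TRU_.tr v K, ⟨TRU_.meas hvm K, hlm, hli, ?_⟩, ?_, ?_, hK.le⟩
  · filter_upwards [hve] with x hx
    have hn : ‖v (Q x)‖ = ‖v x‖ := by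
      rw [hx, norm_mul, Circle.norm_coe, one_mul]
    by_cases h : ‖v x‖ ≤ (K : ℝ)
    · rw [TRU_.tr_of_le h, TRU_.tr_of_le (by rw [hn]; exact h), hx]
    · rw [TRU_.tr_of_lt h, TRU_.tr_of_lt (by rw [hn]; exact h), mul_zero]
  · intro x
    by_cases h : ‖v x‖ ≤ (K : ℝ)
    · rw [TRU_.tr_of_le h]
      exact h
    · rw [TRU_.tr_of_lt h, norm_zero]
      exact Nat.cast_nonneg K
  · intro x hx hv0
    apply hx
    by_cases h : ‖v x‖ ≤ (K : ℝ)
    · rw [TRU_.tr_of_le h, hv0]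
    · exact TRU_.tr_of_lt h

end Pool.Agent.CRk
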