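import Pool.Agent.CRk.Targets
import Pool.Agent.Ind3.P_ERA

/-!
Common parameters for three pointwise almost periodic functions.
-/

namespace Pool.Agent.CRk

open MeasureTheory Pool.Agent.Ind3

universe u

theorem UNI_cases (l : Fin 3) : l = 0 ∨ l = 1 ∨ l = 2 := by
  revert l
  decide

theorem UNI_dvd (q : Fin 3 → ℕ) (l : Fin 3) : ∃ k : ℕ, q 0 * q 1 * q 2 = q l * k := by
  rcases UNI_cases l with rfl | rfl | rfl
  · exact ⟨q 1 * q 2, by ring⟩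
  · exact ⟨q 0 * q 2, by ring⟩
  · exact ⟨q 0 * q 1, by ring⟩

theorem p_UNI : T_UNI.{u} := by
  intro Ω _ μ Q θ p ε hA
  choose q K ρ hq hρ hx using hA
  have hQ1 : 1 ≤ q 0 * q 1 * q 2 :=
    Nat.mul_pos (Nat.mul_pos (hq 0) (hq 1)) (hq 2)
  have hQr : (0 : ℝ) < ((q 0 * q 1 * q 2 : ℕ) : ℝ) := by exact_mod_cast hQ1
  set R : ℝ := min (ρ 0) (min (ρ 1) (ρ 2)) with hR
  have hR0 : 0 < R := lt_min (hρ 0) (lt_min (hρ 1) (hρ 2))
  have hRl : ∀ l : Fin 3, R ≤ ρ l := by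
    intro l
    rcases UNI_cases l with rfl | rfl | rfl
    · exact min_le_left _ _
    · exact le_trans (min_le_right _ _) (min_le_left _ _)
    · exact le_trans (min_le_right _ _) (min_le_right _ _)
  have hKl : ∀ l : Fin 3, K l ≤ max (K 0) (max (K 1) (K 2)) := by
    intro l
    rcases UNI_cases l with rfl | rfl | rfl
    · exact le_max_left _ _
    · exact le_trans (le_max_left _ _) (le_max_right _ _)
    · exact le_trans (le_max_right _ _) (le_max_right _ _)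
  refine ⟨q 0 * q 1 * q 2, max (K 0) (max (K 1) (K 2)), R / ((q 0 * q 1 * q 2 : ℕ) : ℝ), hQ1,
    div_pos hR0 hQr, ?_⟩
  intro l
  filter_upwards [hx l] with x hxl t h hval
  obtain ⟨k, hk⟩ := UNI_dvd q l
  have hk1 : k ≤ q 0 * q 1 * q 2 := by
    rw [hk]
    exact Nat.le_mul_of_pos_left _ (hq l)
  have h3 : t + q 0 * q 1 * q 2 * h = t + q l * (k * h) := by
    rw [hk]; ring
  rw [h3]
  refine hxl _ _ fun j hj => ?_
  refine le_trans (ERA_pow_norm _ _ _) ?_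
  have h4 := hval j (lt_of_lt_of_le hj (hKl l))
  rw [le_div_iff₀ hQr] at h4
  have h5 : (k : ℝ) ≤ ((q 0 * q 1 * q 2 : ℕ) : ℝ) := by exact_mod_cast hk1
  have h6 : 0 ≤ ‖(θ l j x : ℂ) ^ h - 1‖ := norm_nonneg _
  calc (k : ℝ) * ‖(θ l j x : ℂ) ^ h - 1‖
      ≤ ((q 0 * q 1 * q 2 : ℕ) : ℝ) * ‖(θ l j x : ℂ) ^ h - 1‖ :=
        mul_le_mul_of_nonneg_right h5 h6
    _ = ‖(θ l j x : ℂ) ^ h - 1‖ * ((q 0 * q 1 * q 2 : ℕ) : ℝ) := mul_comm _ _
    _ ≤ R := h4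
    _ ≤ ρ l := hRl l

end Pool.Agent.CRk
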