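import Pool.Agent.CRk.Targets

/-!
# CRk: the target T_WAV (the mean of the weights)
-/

set_option autoImplicit false

open MeasureTheory Filter Topology Finset

namespace Pool.Agent.CRk

open Pool.Agent.FSP Pool.Agent.Ind3

universe u

namespace WAV_

lemma mean_left (N s : ℕ) (c : ℝ) (f : ℕ → ℝ) :
    mean N s (fun n => c * f n) = c * mean N s f := by
  unfold mean
  rw [← Finset.mul_sum]
  ring

lemma mean_right (N s : ℕ) (c : ℝ) (f : ℕ → ℝ) :
    mean N s (fun n => f n * c) = mean N s f * c := by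
  unfold mean
  rw [← Finset.sum_mul]
  ring

variable {Ω : Type u}

/-- the triple mean of the weights is a product of three means -/
lemma avg3_w3 (q m K : ℕ) (θ : ℕ → Ω → Circle) (N : ℕ) (x : Ω) :
    avg3 N (w3 q m K θ x) =
      wm (nw q m (fun i : Fin K => θ i)) N N x * wm (nw q m (fun i : Fin K => θ i)) N 0 x *
        wm (nw q m (fun i : Fin K => θ i)) N (3 * N) x := by
  have h : avg3 N (w3 q m K θ x) = mean N N fun a => mean N 0 fun b => mean N (3 * N) fun c =>
      (wt q m K θ x a * wt q m K θ x b) * wt q m K θ x c := rfl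
  rw [h]
  simp only [mean_left, mean_right]
  rfl

/-- bounds for the means of the weights -/
lemma wm_bound {w : Ω → ℕ → ℝ} {W : ℝ} (hW : 0 ≤ W) (h : ∀ x n, 0 ≤ w x n ∧ w x n ≤ W)
    (N s : ℕ) (x : Ω) : 0 ≤ wm w N s x ∧ wm w N s x ≤ W := by
  unfold wm
  refine ⟨mul_nonneg (by positivity) (Finset.sum_nonneg fun n _ => (h x _).1), ?_⟩
  rcases Nat.eq_zero_or_pos N with h0 | h0
  · subst h0
    simpa using hW
  · have hN : (0 : ℝ) < N := by exact_mod_cast h0
    have h1 : ∑ n ∈ range N, w x (s + n) ≤ ∑ _n ∈ range N, W :=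
      Finset.sum_le_sum fun n _ => (h x _).2
    rw [Finset.sum_const, Finset.card_range, nsmul_eq_mul] at h1
    rw [inv_mul_le_iff₀ hN]
    exact h1

end WAV_

open WAV_ in
/-- the target WAV -/
theorem p_WAV : T_WAV.{u} := by
  intro Ω _ μ _ Q θ X hA q m K hq hm ε hε
  have hθ : ∀ i : Fin K, Measurable ((fun i : Fin K => θ 0 i) i) := fun i => hA.2.1 0 i
  obtain ⟨hb, hmeas, -⟩ := f_NWA Ω q m K (fun i : Fin K => θ 0 i) hq hm hθ
  obtain ⟨W, hW⟩ : ∃ W : ℝ, W = q * (m : ℝ) ^ K := ⟨_, rfl⟩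
  have hW0 : 0 ≤ W := by
    rw [hW]
    positivity
  rw [← hW] at hb
  have hD : 0 < W * W + W + 1 := by positivity
  obtain ⟨N₀, hN₀⟩ := f_NWB Ω μ q m K (fun i : Fin K => θ 0 i) hq hm hθ
    (ε / (W * W + W + 1)) (by positivity)
  refine ⟨N₀, fun N hN hqN => ?_⟩
  have hM : ∀ s : ℕ, Measurable (fun x => wm (nw q m (fun i : Fin K => θ 0 i)) N s x) := by
    intro s
    unfold wm
    exact (Finset.measurable_sum _ fun n _ => hmeas (s + n)).const_mul _
  obtain ⟨a, ha⟩ : ∃ a : ℕ → Ω → ℝ, a = fun s x =>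
    wm (nw q m (fun i : Fin K => θ 0 i)) N s x := ⟨_, rfl⟩
  have haM : ∀ s, Measurable (a s) := by
    intro s
    rw [ha]
    exact hM s
  have hab : ∀ s x, 0 ≤ a s x ∧ a s x ≤ W := by
    intro s x
    rw [ha]
    exact wm_bound hW0 hb N s x
  have haI : ∀ s, ∫ x, |a s x - 1| ∂μ ≤ ε / (W * W + W + 1) := by
    intro s
    rw [ha]
    exact hN₀ N hN hqN s
  have hint : ∀ {f : Ω → ℝ} (C : ℝ), Measurable f → (∀ x, |f x| ≤ C) → Integrable f μ := by
    intro f C hf hC
    exact Integrable.of_bound hf.aestronglyMeasurable C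
      (Filter.Eventually.of_forall fun x => by simpa using hC x)
  have h1 : ∀ s, Integrable (fun x => |a s x - 1|) μ := by
    intro s
    refine hint (W + 1) ((haM s).sub_const 1).abs fun x => ?_
    rw [abs_abs]
    have := hab s x
    exact abs_le.mpr ⟨by linarith, by linarith⟩
  have hP : ∀ x, avg3 N (w3 q m K (θ 0) x) = a N x * a 0 x * a (3 * N) x := by
    intro x
    rw [ha]
    exact avg3_w3 q m K (θ 0) N x
  have hbd : ∀ x, |a N x * a 0 x * a (3 * N) x - 1| ≤
      W * W * |a N x - 1| + W * |a 0 x - 1| + |a (3 * N) x - 1| := by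
    intro x
    have e1 : a N x * a 0 x * a (3 * N) x - 1 = (a N x - 1) * (a 0 x * a (3 * N) x) +
        (a 0 x - 1) * a (3 * N) x + (a (3 * N) x - 1) := by ring
    rw [e1]
    have h2 := hab 0 x
    have h3 := hab (3 * N) x
    have h4 : |(a N x - 1) * (a 0 x * a (3 * N) x)| ≤ W * W * |a N x - 1| := by
      rw [abs_mul, abs_of_nonneg (mul_nonneg h2.1 h3.1), mul_comm]
      exact mul_le_mul_of_nonneg_right (mul_le_mul h2.2 h3.2 h3.1 hW0) (abs_nonneg _)
    have h5 : |(a 0 x - 1) * a (3 * N) x| ≤ W * |a 0 x - 1| := by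
      rw [abs_mul, abs_of_nonneg h3.1, mul_comm]
      exact mul_le_mul_of_nonneg_right h3.2 (abs_nonneg _)
    exact (abs_add_le _ _).trans (add_le_add ((abs_add_le _ _).trans (add_le_add h4 h5)) le_rfl)
  have hI : Integrable (fun x => a N x * a 0 x * a (3 * N) x) μ := by
    refine hint (W * W * W) (((haM N).mul (haM 0)).mul (haM (3 * N))) fun x => ?_
    have h2 := hab N x
    have h3 := hab 0 x
    have h4 := hab (3 * N) x
    rw [abs_of_nonneg (mul_nonneg (mul_nonneg h2.1 h3.1) h4.1)]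
    exact mul_le_mul (mul_le_mul h2.2 h3.2 h3.1 hW0) h4.2 h4.1 (by positivity)
  have hc : ∫ _x in X, (1 : ℝ) ∂μ = μ.real X := by simp
  have e2 : ∫ x in X, avg3 N (w3 q m K (θ 0) x) ∂μ - μ.real X =
      ∫ x in X, (a N x * a 0 x * a (3 * N) x - 1) ∂μ := by
    rw [integral_sub hI.integrableOn (integrable_const _), hc]
    simp only [hP]
  rw [e2]
  have i1 : Integrable (fun x => W * W * |a N x - 1|) μ := (h1 N).const_mul _
  have i2 : Integrable (fun x => W * |a 0 x - 1|) μ := (h1 0).const_mul _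
  have i3 : Integrable (fun x => W * W * |a N x - 1| + W * |a 0 x - 1|) μ := i1.add i2
  have hR : Integrable (fun x => W * W * |a N x - 1| + W * |a 0 x - 1| + |a (3 * N) x - 1|) μ :=
    i3.add (h1 (3 * N))
  calc |∫ x in X, (a N x * a 0 x * a (3 * N) x - 1) ∂μ|
      ≤ ∫ x in X, |a N x * a 0 x * a (3 * N) x - 1| ∂μ := abs_integral_le_integral_abs
    _ ≤ ∫ x, |a N x * a 0 x * a (3 * N) x - 1| ∂μ :=
        setIntegral_le_integral (hI.sub (integrable_const _)).abs
          (Filter.Eventually.of_forall fun x => abs_nonneg _)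
    _ ≤ ∫ x, (W * W * |a N x - 1| + W * |a 0 x - 1| + |a (3 * N) x - 1|) ∂μ :=
        integral_mono (hI.sub (integrable_const _)).abs hR hbd
    _ = W * W * ∫ x, |a N x - 1| ∂μ + W * ∫ x, |a 0 x - 1| ∂μ + ∫ x, |a (3 * N) x - 1| ∂μ := by
        rw [integral_add i3 (h1 (3 * N)), integral_add i1 i2, integral_const_mul,
          integral_const_mul]
    _ ≤ W * W * (ε / (W * W + W + 1)) + W * (ε / (W * W + W + 1)) + ε / (W * W + W + 1) := by
        have := haI N
        have := haI 0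
        have := haI (3 * N)
        gcongr
    _ = ε := by
        field_simp

end Pool.Agent.CRk
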