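import Pool.Agent.CRk.P_CHA
import Pool.Agent.CRk.P_CON
import Pool.Agent.CRk.P_CRG
import Pool.Agent.CRk.P_CTM
import Pool.Agent.CRk.P_CTX
import Pool.Agent.CRk.P_DC2
import Pool.Agent.CRk.P_DCL
import Pool.Agent.CRk.P_EWL
import Pool.Agent.CRk.P_EXT
import Pool.Agent.CRk.P_FIN
import Pool.Agent.CRk.P_GTF
import Pool.Agent.CRk.P_GTM
import Pool.Agent.CRk.P_KAP
import Pool.Agent.CRk.P_KER
import Pool.Agent.CRk.P_LIM
import Pool.Agent.CRk.P_MA3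
import Pool.Agent.CRk.P_MXR
import Pool.Agent.CRk.P_NCO
import Pool.Agent.CRk.P_NRS
import Pool.Agent.CRk.P_OAG
import Pool.Agent.CRk.P_PRD
import Pool.Agent.CRk.P_REL
import Pool.Agent.CRk.P_ROO
import Pool.Agent.CRk.P_RTM
import Pool.Agent.CRk.P_TRI
import Pool.Agent.CRk.P_TRU
import Pool.Agent.CRk.P_UNI
import Pool.Agent.CRk.P_WAV

set_option autoImplicit false

/-! The blocks of the project CRk put together. -/

namespace Pool.Agent.CRk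

universe u

theorem f_OAG : T_OAG.{u} := p_OAG
theorem f_DC2 : T_DC2.{u} := p_DC2 f_OAG
theorem f_KAP : T_KAP.{u} := p_KAP p_TRU p_KER p_LIM p_ROO
theorem f_NRS : T_NRS.{u} := p_NRS p_NCO
theorem f_DCL : T_DCL.{u} := p_DCL f_DC2 f_KAP f_NRS
theorem f_TRI : T_TRI.{u} := p_TRI p_CHA
theorem f_EWL : T_EWL.{u} := p_EWL
theorem f_RTM : T_RTM.{u} := p_RTM f_TRI f_EWL
theorem f_GTM : T_GTM.{u} := p_GTM
theorem f_GTF : T_GTF.{u} := p_GTF f_GTM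
theorem f_CTM : T_CTM.{u} := p_CTM
theorem f_CTX : T_CTX.{u} := p_CTX f_CTM
theorem f_UNI : T_UNI.{u} := p_UNI
theorem f_WAV : T_WAV.{u} := p_WAV
theorem f_MA3 : T_MA3.{u} := p_MA3
theorem f_CRG : T_CRG.{u} := p_CRG f_DCL f_UNI f_CTX f_WAV f_GTF f_RTM f_MA3
theorem f_MXR : T_MXR.{u} := p_MXR
theorem f_CON : T_CON.{u} := p_CON
theorem f_EXT : T_EXT.{u} := p_EXT p_PRD p_REL
theorem f_FIN : T_FIN.{u} := p_FIN f_MXR f_CON f_EXT f_CRG

end Pool.Agent.CRk
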