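import Pool.Agent.CRk.Targets

set_option autoImplicit false

open MeasureTheory Filter Topology Finset

namespace Pool.Agent.CRk

open Pool.Agent.FSP Pool.Agent.Ind3

universe u

theorem CHA_kw {Ω : Type u} (m d : ℕ) (τ : Fin d → Ω → Circle) (x : Ω) (n : ℕ) :
    ((kw m τ x n : ℝ) : ℂ) = ((m : ℂ)⁻¹) ^ d *
      ∑ p : Fin d → Fin m × Fin m, ((chr τ p x : Circle) : ℂ) ^ n := by
  unfold kw
  push_cast
  simp only [EXP_kk]
  rw [Finset.prod_mul_distrib, Finset.prod_const, Finset.card_univ, Fintype.card_fin,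
    Finset.prod_univ_sum, Fintype.piFinset_univ]
  congr 1
  refine Finset.sum_congr rfl fun p _ => ?_
  unfold chr
  rw [← Circle.coe_pow, ← Finset.prod_pow]
  have h2 : ∀ (f : Fin d → Circle), ∏ l, ((f l : Circle) : ℂ) = ((∏ l, f l : Circle) : ℂ) :=
    fun f => (map_prod Circle.coeHom f univ).symm
  rw [h2]
  congr 1
  refine Finset.prod_congr rfl fun l _ => ?_
  rw [mul_pow, inv_pow, ← pow_mul, ← pow_mul, ← pow_mul, ← pow_mul, mul_comm n, mul_comm n]

/-- A `q`-th root of a point of the circle. -/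
theorem CHA_root (q : ℕ) (hq : 1 ≤ q) (w : Circle) : ∃ κ : Circle, κ ^ q = w := by
  refine ⟨Circle.exp (Complex.arg w / q), ?_⟩
  have hq0 : (q : ℝ) ≠ 0 := by positivity
  rw [← Circle.exp_nsmul]
  have h : (q : ℕ) • (Complex.arg w / (q : ℝ)) = Complex.arg w := by
    rw [nsmul_eq_mul]
    field_simp
  rw [h, Circle.exp_arg]

/-- The indicator of the multiples of `q`. -/
theorem CHA_ind (q : ℕ) (hq : 1 ≤ q) : ∃ ζ : Circle, ζ ^ q = 1 ∧ ∀ n : ℕ,
    (q : ℂ)⁻¹ * ∑ t ∈ range q, ((ζ ^ t : Circle) : ℂ) ^ n = if q ∣ n then 1 else 0 := by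
  have hq0 : q ≠ 0 := by omega
  have hp := Complex.isPrimitiveRoot_exp q hq0
  have hqC : (q : ℂ) ≠ 0 := by exact_mod_cast hq0
  have hz : ((Circle.exp (2 * Real.pi / q) : Circle) : ℂ) =
      Complex.exp (2 * Real.pi * Complex.I / q) := by
    rw [Circle.coe_exp]
    congr 1
    push_cast
    ring
  refine ⟨Circle.exp (2 * Real.pi / q), ?_, ?_⟩
  · apply Circle.ext
    rw [Circle.coe_pow, hz, hp.pow_eq_one, Circle.coe_one]
  · intro n
    simp only [Circle.coe_pow, hz]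
    set e := Complex.exp (2 * Real.pi * Complex.I / q) with he
    by_cases hn : q ∣ n
    · rw [if_pos hn]
      obtain ⟨k, rfl⟩ := hn
      have : ∀ t ∈ range q, (e ^ t) ^ (q * k) = 1 := by
        intro t _
        rw [← pow_mul, mul_comm, pow_mul, pow_mul, hp.pow_eq_one, one_pow, one_pow]
      rw [Finset.sum_congr rfl this, Finset.sum_const, Finset.card_range, nsmul_eq_mul, mul_one,
        inv_mul_cancel₀ hqC]
    · rw [if_neg hn]
      have h1 : e ^ n ≠ 1 := fun h => hn ((hp.pow_eq_one_iff_dvd n).mp h)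
      have h2 : ∀ t ∈ range q, (e ^ t) ^ n = (e ^ n) ^ t := by
        intro t _
        rw [← pow_mul, ← pow_mul, mul_comm]
      rw [Finset.sum_congr rfl h2, geom_sum_eq h1, ← pow_mul, mul_comm n q, pow_mul,
        hp.pow_eq_one, one_pow, sub_self, zero_div, mul_zero]

theorem CHA_char (v : Circle) (hv : v ≠ 1) (N s : ℕ) :
    ‖cmean N s (fun n => ((v : Circle) : ℂ) ^ n)‖ ≤ 2 / ‖(v : ℂ) - 1‖ / N := by
  have hv1 : (v : ℂ) ≠ 1 := by
    intro h
    exact hv (Circle.ext (by rw [h, Circle.coe_one]))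
  have hpos : 0 < ‖(v : ℂ) - 1‖ := norm_pos_iff.mpr (sub_ne_zero.mpr hv1)
  unfold cmean
  simp only [pow_add]
  rw [← Finset.mul_sum, geom_sum_eq hv1, norm_mul, norm_mul, norm_pow, Circle.norm_coe, one_pow,
    one_mul, norm_div, norm_inv, Complex.norm_natCast]
  have h2 : ‖(v : ℂ) ^ N - 1‖ ≤ 2 := by
    refine (norm_sub_le _ _).trans ?_
    rw [norm_pow, Circle.norm_coe, one_pow, norm_one]
    norm_num
  rw [inv_mul_eq_div]
  gcongr

theorem p_CHA : T_CHA.{u} := by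
  intro Ω q m d τ x z hq hm hz ε hε
  have hq0 : q ≠ 0 := by omega
  have hqC : (q : ℂ) ≠ 0 := by exact_mod_cast hq0
  obtain ⟨ζ, hζ, hind⟩ := CHA_ind q hq
  choose κ hκ using fun p : Fin d → Fin m × Fin m => CHA_root q hq (chr τ p x)
  set c : ℂ := ((ku m τ x : ℝ) : ℂ)⁻¹ * ((m : ℂ)⁻¹) ^ d with hc
  set v : (Fin d → Fin m × Fin m) → ℕ → Circle := fun p t => ζ ^ t * κ p * z with hv
  have hv1 : ∀ p t, v p t ≠ 1 := by
    intro p t h
    have h1 : (v p t) ^ q = 1 := by rw [h, one_pow]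
    have h2 : chr τ p x * z ^ q = 1 := by
      rw [← h1, hv]
      simp only []
      rw [mul_pow, mul_pow, hκ, ← pow_mul, mul_comm t q, pow_mul, hζ, one_pow, one_mul]
    have h3 : z ^ q = (chr τ p x)⁻¹ := (inv_eq_of_mul_eq_one_right h2).symm
    refine hz q (fun l => ((p l).2 : ℤ) - ((p l).1 : ℤ)) hq ?_
    rw [h3]
    unfold chr
    rw [← Finset.prod_inv_distrib]
    refine Finset.prod_congr rfl fun l _ => ?_
    rw [zpow_sub, zpow_natCast, zpow_natCast, mul_inv, inv_inv, mul_comm]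
  have hexp : ∀ n : ℕ, ((nw q m τ x n : ℝ) : ℂ) * (z : ℂ) ^ n =
      ∑ p : Fin d → Fin m × Fin m, ∑ t ∈ range q, c * ((v p t : Circle) : ℂ) ^ n := by
    intro n
    have h1 : ∀ p : Fin d → Fin m × Fin m, ∑ t ∈ range q, c * ((v p t : Circle) : ℂ) ^ n =
        c * ((κ p : Circle) : ℂ) ^ n * (z : ℂ) ^ n * (q * if q ∣ n then 1 else 0) := by
      intro p
      rw [← hind n, ← mul_assoc (q : ℂ), mul_inv_cancel₀ hqC, one_mul, Finset.mul_sum]
      refine Finset.sum_congr rfl fun t _ => ?_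
      rw [hv]
      simp only [Circle.coe_mul, Circle.coe_pow, mul_pow]
      ring
    rw [Finset.sum_congr rfl fun p _ => h1 p]
    unfold nw
    by_cases hn : q ∣ n
    · simp only [if_pos hn]
      obtain ⟨k, rfl⟩ := hn
      rw [Nat.mul_div_cancel_left k (by omega)]
      have h2 : ∀ p : Fin d → Fin m × Fin m, ((κ p : Circle) : ℂ) ^ (q * k) =
          ((chr τ p x : Circle) : ℂ) ^ k := by
        intro p
        rw [pow_mul, ← Circle.coe_pow, hκ]
      simp only [h2]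
      push_cast
      rw [CHA_kw, hc, mul_one, ← Finset.sum_mul, ← Finset.sum_mul, ← Finset.mul_sum]
      ring
    · simp only [if_neg hn]
      simp
  set B : ℝ := ∑ p : Fin d → Fin m × Fin m, ∑ t ∈ range q, ‖c‖ * (2 / ‖(v p t : ℂ) - 1‖) with hB
  have hB0 : 0 ≤ B := by
    refine Finset.sum_nonneg fun p _ => Finset.sum_nonneg fun t _ => ?_
    positivity
  refine ⟨⌈B / ε⌉₊ + 1, fun N hN s => ?_⟩
  have hN0 : 0 < N := by omega
  have hNR : (0 : ℝ) < N := by exact_mod_cast hN0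
  have hlin : cmean N s (fun n => ((nw q m τ x n : ℝ) : ℂ) * (z : ℂ) ^ n) =
      ∑ p : Fin d → Fin m × Fin m, ∑ t ∈ range q,
        c * cmean N s (fun n => ((v p t : Circle) : ℂ) ^ n) := by
    unfold cmean
    simp only [hexp]
    rw [Finset.sum_comm, Finset.mul_sum]
    refine Finset.sum_congr rfl fun p _ => ?_
    rw [Finset.sum_comm, Finset.mul_sum]
    refine Finset.sum_congr rfl fun t _ => ?_
    rw [← Finset.mul_sum]
    ring
  rw [hlin]
  have hbd : ‖∑ p : Fin d → Fin m × Fin m, ∑ t ∈ range q,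
      c * cmean N s (fun n => ((v p t : Circle) : ℂ) ^ n)‖ ≤ B / N := by
    rw [hB, Finset.sum_div]
    refine (norm_sum_le _ _).trans (Finset.sum_le_sum fun p _ => ?_)
    rw [Finset.sum_div]
    refine (norm_sum_le _ _).trans (Finset.sum_le_sum fun t _ => ?_)
    rw [norm_mul, mul_div_assoc]
    exact mul_le_mul_of_nonneg_left (CHA_char _ (hv1 p t) N s) (norm_nonneg _)
  refine hbd.trans ?_
  rw [div_le_iff₀ hNR]
  have h5 : B / ε ≤ N := by
    have h6 : B / ε ≤ (⌈B / ε⌉₊ : ℝ) := Nat.le_ceil _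
    have h7 : ((⌈B / ε⌉₊ : ℕ) : ℝ) ≤ N := by
      exact_mod_cast (by omega : ⌈B / ε⌉₊ ≤ N)
    linarith
  rw [div_le_iff₀ hε] at h5
  linarith

end Pool.Agent.CRk
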