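import Pool.Agent.CRk.Targets

set_option autoImplicit false

/-!
# CRk, MA3: the main lower bound
-/

open MeasureTheory Filter Topology Finset

namespace Pool.Agent.CRk

open Pool.Agent.FSP Pool.Agent.Ind3

universe u

namespace MA3_

theorem pt (γ B0 B1 B2 b0 b1 b2 : ℝ) (hγ : 0 < γ) (hB0 : 0 ≤ B0) (hB0' : B0 ≤ 1)
    (hB1 : 0 ≤ B1) (hB1' : B1 ≤ 1) (h1' : b1 ≤ 1) (h2' : b2 ≤ 1)
    (k0 : γ ≤ b0) (k1 : γ ≤ b1) (k2 : γ ≤ b2) :
    γ ^ 3 ≤ B0 * B1 * B2 + (|B0 - b0| + |B1 - b1| + |B2 - b2|) := by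
  have h1 : 0 ≤ b1 := hγ.le.trans k1
  have h2 : 0 ≤ b2 := hγ.le.trans k2
  have h0 : 0 ≤ b0 := hγ.le.trans k0
  have e1 : γ ^ 3 ≤ b0 * b1 * b2 := by
    have a1 : γ * γ ≤ b0 * b1 := mul_le_mul k0 k1 hγ.le h0
    have a2 : γ * γ * γ ≤ b0 * b1 * b2 := mul_le_mul a1 k2 hγ.le (mul_nonneg h0 h1)
    have a3 : γ ^ 3 = γ * γ * γ := by ring
    rw [a3]
    exact a2
  have e2 : b0 * b1 * b2 - B0 * B1 * B2 =
      (b0 - B0) * (b1 * b2) + (b1 - B1) * (B0 * b2) + (b2 - B2) * (B0 * B1) := by ring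
  have key : ∀ d w : ℝ, 0 ≤ w → w ≤ 1 → d * w ≤ |d| := by
    intro d w hw hw1
    calc d * w ≤ |d| * w := mul_le_mul_of_nonneg_right (le_abs_self d) hw
      _ ≤ |d| * 1 := mul_le_mul_of_nonneg_left hw1 (abs_nonneg d)
      _ = |d| := mul_one _
  have f0 := key (b0 - B0) (b1 * b2) (mul_nonneg h1 h2) (mul_le_one₀ h1' h2 h2')
  have f1 := key (b1 - B1) (B0 * b2) (mul_nonneg hB0 h2) (mul_le_one₀ hB0' h2 h2')
  have f2 := key (b2 - B2) (B0 * B1) (mul_nonneg hB0 hB1) (mul_le_one₀ hB0' hB1 hB1')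
  rw [abs_sub_comm] at f0 f1 f2
  linarith

theorem lin {Ω : Type u} [MeasurableSpace Ω] {ν : Measure Ω}
    {t1 t2 t3 t4 t5 t6 w e0 e1 e2 : Ω → ℝ} (h1 : Integrable t1 ν) (h2 : Integrable t2 ν)
    (h3 : Integrable t3 ν) (h4 : Integrable t4 ν) (h5 : Integrable t5 ν)
    (h6 : Integrable t6 ν) (hw : Integrable w ν) (k0 : Integrable e0 ν) (k1 : Integrable e1 ν)
    (k2 : Integrable e2 ν) (k r : ℝ) :
    ∫ x, (t1 x + t2 x + t3 x + t4 x + t5 x + t6 x + (k * w x + r * (e0 x + e1 x + e2 x))) ∂ν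
      = ∫ x, t1 x ∂ν + ∫ x, t2 x ∂ν + ∫ x, t3 x ∂ν + ∫ x, t4 x ∂ν + ∫ x, t5 x ∂ν
        + ∫ x, t6 x ∂ν + (k * ∫ x, w x ∂ν + r * (∫ x, e0 x ∂ν + ∫ x, e1 x ∂ν + ∫ x, e2 x ∂ν)) := by
  have a2 : Integrable (fun x => t1 x + t2 x) ν := h1.add h2
  have a3 : Integrable (fun x => t1 x + t2 x + t3 x) ν := a2.add h3
  have a4 : Integrable (fun x => t1 x + t2 x + t3 x + t4 x) ν := a3.add h4
  have a5 : Integrable (fun x => t1 x + t2 x + t3 x + t4 x + t5 x) ν := a4.add h5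
  have a6 : Integrable (fun x => t1 x + t2 x + t3 x + t4 x + t5 x + t6 x) ν := a5.add h6
  have b1 : Integrable (fun x => e0 x + e1 x) ν := k0.add k1
  have b2 : Integrable (fun x => e0 x + e1 x + e2 x) ν := b1.add k2
  have b3 : Integrable (fun x => r * (e0 x + e1 x + e2 x)) ν := b2.const_mul r
  have b4 : Integrable (fun x => k * w x) ν := hw.const_mul k
  have b5 : Integrable (fun x => k * w x + r * (e0 x + e1 x + e2 x)) ν := b4.add b3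
  rw [integral_add a6 b5, integral_add a5 h6, integral_add a4 h5, integral_add a3 h4,
    integral_add a2 h3, integral_add h1 h2, integral_add b4 b3, integral_const_mul,
    integral_const_mul, integral_add b1 k2, integral_add k0 k1]

theorem alg (w γ3 a0 a1 a2 B0 B1 B2 R0 R1 R2 G0 G1 G2 S : ℝ) (hw : 0 ≤ w)
    (h0 : a0 = B0 + R0 + G0) (h1 : a1 = B1 + R1 + G1) (h2 : a2 = B2 + R2 + G2)
    (hz : a0 * a1 * a2 = 0) (hp : γ3 ≤ B0 * B1 * B2 + S) :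
    w * (a0 * a1 * G2) + w * (G0 * a1 * (B2 + R2)) + w * ((B0 + R0) * G1 * (B2 + R2)) +
      w * ((B0 + R0) * (B1 + R1) * R2) + w * (R0 * (B1 + R1) * B2) + w * (B0 * R1 * B2) +
      (γ3 * w + (-1) * (w * S)) ≤ 0 := by
  have e : w * (a0 * a1 * G2) + w * (G0 * a1 * (B2 + R2)) + w * ((B0 + R0) * G1 * (B2 + R2)) +
      w * ((B0 + R0) * (B1 + R1) * R2) + w * (R0 * (B1 + R1) * B2) + w * (B0 * R1 * B2) +
      (γ3 * w + (-1) * (w * S)) = w * (a0 * a1 * a2) - w * (B0 * B1 * B2 + S - γ3) := by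
    rw [h2, h1, h0]
    ring
  rw [e, hz, mul_zero, zero_sub, neg_nonpos]
  exact mul_nonneg hw (sub_nonneg.2 hp)

end MA3_

open MA3_ in
theorem p_MA3 : T_MA3.{u} := by
  intro Ω _ μ _ Q θ X hAdm A hA hXA b r g hb hr hg hb01 hc01 hr1 hg1 hsum γ hγ hγb q m K ε hq hm
    hε hE hW hG hR hbig
  obtain ⟨hQ, hθ, hθQ, hX, hθX⟩ := hAdm
  by_contra hcon
  push Not at hcon
  obtain ⟨hw0, hwm, -⟩ := f_NWA Ω q m K (fun i : Fin K => θ 0 i) hq hm (fun i => hθ 0 i)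
  set WB : ℝ := (q : ℝ) * (m : ℝ) ^ K with hWB
  have hWB0 : 0 ≤ WB := by positivity
  have hW0 : ∀ x y, 0 ≤ w3 q m K (θ 0) x y := fun x y =>
    mul_nonneg (mul_nonneg (hw0 x _).1 (hw0 x _).1) (hw0 x _).1
  have hW1 : ∀ x y, w3 q m K (θ 0) x y ≤ WB * WB * WB := fun x y =>
    mul_le_mul (mul_le_mul (hw0 x _).2 (hw0 x _).2 (hw0 x _).1 hWB0) (hw0 x _).2 (hw0 x _).1
      (mul_nonneg hWB0 hWB0)
  have hWm : ∀ y, Measurable fun x => w3 q m K (θ 0) x y := fun y =>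
    ((hwm _).mul (hwm _)).mul (hwm _)
  have hBB : 0 ≤ WB * WB * WB := by positivity
  have hWabs : ∀ x y, |w3 q m K (θ 0) x y| ≤ WB * WB * WB := by
    intro x y
    rw [abs_of_nonneg (hW0 _ _)]
    exact hW1 _ _
  have hone0 : ∀ x, 0 ≤ one A x := fun x => Set.indicator_nonneg (fun _ _ => zero_le_one) x
  have hone1 : ∀ x, one A x ≤ 1 := fun x => Set.indicator_le_self' (fun _ _ => zero_le_one) x
  have honem : Measurable (one A) := measurable_const.indicator hA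
  have hoa : ∀ x, |one A x| ≤ 1 := fun x => abs_le.2 ⟨by linarith [hone0 x], hone1 x⟩
  have hQi : ∀ l k, Measurable ((Q l)^[k]) := fun l k => (hQ l).measurable.iterate k
  have hba : ∀ l x, |b l x| ≤ 1 := fun l x =>
    abs_le.2 ⟨by linarith [(hb01 l x).1], (hb01 l x).2⟩
  set c : Fin 3 → Ω → ℝ := fun l x => b l x + r l x with hc
  have hcm : ∀ l, Measurable (c l) := fun l => (hb l).add (hr l)
  have hca : ∀ l x, |c l x| ≤ 1 := fun l x =>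
    abs_le.2 ⟨by linarith [(hc01 l x).1], (hc01 l x).2⟩
  -- the six families
  have mk : ∀ f : Fin 3 → Ω → ℝ, (Measurable (f 0) ∧ Measurable (f 1) ∧ Measurable (f 2)) →
      ∀ l, Measurable (f l) := by
    intro f h l
    fin_cases l
    · exact h.1
    · exact h.2.1
    · exact h.2.2
  have mb : ∀ f : Fin 3 → Ω → ℝ, ((∀ x, |f 0 x| ≤ 1) ∧ (∀ x, |f 1 x| ≤ 1) ∧ ∀ x, |f 2 x| ≤ 1) →
      ∀ l x, |f l x| ≤ 1 := by
    intro f h l x
    fin_cases l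
    · exact h.1 x
    · exact h.2.1 x
    · exact h.2.2 x
  have mc : ∀ P : Fin 3 → Prop, P 0 ∧ P 1 ∧ P 2 → ∀ l, P l := by
    intro P h l
    fin_cases l
    · exact h.1
    · exact h.2.1
    · exact h.2.2
  set F2 : Fin 3 → Ω → ℝ := ![one A, one A, g 2] with hF2
  set F0 : Fin 3 → Ω → ℝ := ![g 0, one A, c 2] with hF0
  set F1 : Fin 3 → Ω → ℝ := ![c 0, g 1, c 2] with hF1
  set E2 : Fin 3 → Ω → ℝ := ![c 0, c 1, r 2] with hE2
  set E0 : Fin 3 → Ω → ℝ := ![r 0, c 1, b 2] with hE0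
  set E1 : Fin 3 → Ω → ℝ := ![b 0, r 1, b 2] with hE1
  have mF2 := mk F2 ⟨honem, honem, hg 2⟩
  have mF0 := mk F0 ⟨hg 0, honem, hcm 2⟩
  have mF1 := mk F1 ⟨hcm 0, hg 1, hcm 2⟩
  have mE2 := mk E2 ⟨hcm 0, hcm 1, hr 2⟩
  have mE0 := mk E0 ⟨hr 0, hcm 1, hb 2⟩
  have mE1 := mk E1 ⟨hb 0, hr 1, hb 2⟩
  have bF2 := mb F2 ⟨hoa, hoa, hg1 2⟩
  have bF0 := mb F0 ⟨hg1 0, hoa, hca 2⟩
  have bF1 := mb F1 ⟨hca 0, hg1 1, hca 2⟩
  have bE2 := mb E2 ⟨hca 0, hca 1, hr1 2⟩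
  have bE0 := mb E0 ⟨hr1 0, hca 1, hba 2⟩
  have bE1 := mb E1 ⟨hba 0, hr1 1, hba 2⟩
  obtain ⟨H2, hH2, L2, hL2⟩ := hG F2 mF2 bF2 2 rfl
  obtain ⟨H0, hH0, L0, hL0⟩ := hG F0 mF0 bF0 0 rfl
  obtain ⟨H1, hH1, L1, hL1⟩ := hG F1 mF1 bF1 1 rfl
  obtain ⟨M2, hM2⟩ := hR E2 (mc _ ⟨Or.inr (Or.inr rfl), Or.inr (Or.inr rfl),
    Or.inr (Or.inl rfl)⟩) 2 rfl
  obtain ⟨M0, hM0⟩ := hR E0 (mc _ ⟨Or.inr (Or.inl rfl), Or.inr (Or.inr rfl), Or.inl rfl⟩) 0 rfl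
  obtain ⟨M1, hM1⟩ := hR E1 (mc _ ⟨Or.inl rfl, Or.inr (Or.inl rfl), Or.inl rfl⟩) 1 rfl
  obtain ⟨NW, hNW⟩ := hW
  obtain ⟨N0, hN0⟩ := hE 0
  obtain ⟨N1, hN1⟩ := hE 1
  obtain ⟨N2, hN2⟩ := hE 2
  obtain ⟨L, hL⟩ : ∃ L, L = NW + N0 + N1 + N2 + L2 + L0 + L1 + M2 + M0 + M1 + 1 := ⟨_, rfl⟩
  obtain ⟨N, hN⟩ : ∃ N, N = H2 * (H0 * H1 * q * L) := ⟨_, rfl⟩
  have e1 : L ≤ H0 * H1 * q * L :=
    Nat.le_mul_of_pos_left _ (Nat.mul_pos (Nat.mul_pos hH0 hH1) hq)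
  have e2 : L ≤ H2 * H1 * q * L :=
    Nat.le_mul_of_pos_left _ (Nat.mul_pos (Nat.mul_pos hH2 hH1) hq)
  have e3 : L ≤ H2 * H0 * q * L :=
    Nat.le_mul_of_pos_left _ (Nat.mul_pos (Nat.mul_pos hH2 hH0) hq)
  have hLN : L ≤ N := by
    rw [hN]
    exact e1.trans (Nat.le_mul_of_pos_left _ hH2)
  have hN' : N = H0 * (H2 * H1 * q * L) := by rw [hN]; ring
  have hN'' : N = H1 * (H2 * H0 * q * L) := by rw [hN]; ring
  have hqN : q ∣ N := ⟨H2 * H0 * H1 * L, by rw [hN]; ring⟩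
  have hNpos : 0 < N := by omega
  have T2 := hL2 (H0 * H1 * q * L) (by omega)
  have T0 := hL0 (H2 * H1 * q * L) (by omega)
  have T1 := hL1 (H2 * H0 * q * L) (by omega)
  rw [← hN] at T2
  rw [← hN'] at T0
  rw [← hN''] at T1
  have S2 := hM2 N (by omega) hqN
  have S0 := hM0 N (by omega) hqN
  have S1 := hM1 N (by omega) hqN
  have lW := hNW N (by omega) hqN
  have u0 := hN0 N (by omega) hqN
  have u1 := hN1 N (by omega) hqN
  have u2 := hN2 N (by omega) hqN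
  -- integrability
  have hWp : ∀ x y (t : ℝ), |t| ≤ 1 → |w3 q m K (θ 0) x y * t| ≤ WB * WB * WB := by
    intro x y t ht
    rw [abs_mul]
    calc |w3 q m K (θ 0) x y| * |t| ≤ WB * WB * WB * 1 :=
          mul_le_mul (hWabs x y) ht (abs_nonneg _) hBB
      _ = _ := mul_one _
  have iF : ∀ f : Fin 3 → Ω → ℝ, (∀ l, Measurable (f l)) → (∀ l x, |f l x| ≤ 1) →
      Integrable (fun x => avg3 N (fun y => w3 q m K (θ 0) x y *
        ∏ l, f l ((Q l)^[tm l y] x))) μ := by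
    intro f hf hf1
    refine MAI_int μ N (fun y x => w3 q m K (θ 0) x y * ∏ l, f l ((Q l)^[tm l y] x))
      (fun y => (hWm y).mul (Finset.measurable_fun_prod _ fun l _ => (hf l).comp (hQi l _))) _ hBB
      (fun y x => hWp x y _ ?_)
    rw [Finset.abs_prod]
    exact Finset.prod_le_one (fun l _ => abs_nonneg _) (fun l _ => hf1 l _)
  have iW : Integrable (fun x => avg3 N (w3 q m K (θ 0) x)) μ :=
    MAI_int μ N (fun y x => w3 q m K (θ 0) x y) hWm _ hBB (fun y x => hWabs x y)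
  have iE : ∀ l, Integrable (fun x => avg3 N fun y => w3 q m K (θ 0) x y *
      |b l ((Q l)^[tm l y] x) - b l x|) μ := by
    intro l
    refine MAI_int μ N (fun y x => w3 q m K (θ 0) x y *
      |b l ((Q l)^[tm l y] x) - b l x|) (fun y => (hWm y).mul ?_) _ hBB
      (fun y x => hWp x y _ ?_)
    · exact (((hb l).comp (hQi l _)).sub (hb l)).abs
    · rw [abs_abs]
      refine abs_le.2 ⟨?_, ?_⟩
      · linarith [(hb01 l ((Q l)^[tm l y] x)).1, (hb01 l x).2]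
      · linarith [(hb01 l ((Q l)^[tm l y] x)).2, (hb01 l x).1]
  -- almost everywhere
  have hae : ∀ᵐ x ∂μ, ∀ y : Fin 3 → ℕ, MAI_W N y →
      ¬ (x ∈ A ∧ ∀ l, (Q l)^[tm l y] x ∈ A) := by
    rw [ae_all_iff]
    intro y
    by_cases hy : MAI_W N y
    · obtain ⟨⟨hy0, hy0'⟩, hy1, hy2, hy2'⟩ := hy
      have h1 := hcon N hNpos (y 0 - N) (by omega) (y 1) hy1 (y 2 - 3 * N) (by omega)
      have h3 : (![N + (y 0 - N), y 1, 3 * N + (y 2 - 3 * N)] : Fin 3 → ℕ) = y := by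
        funext l
        fin_cases l
        · show N + (y 0 - N) = y 0
          omega
        · rfl
        · show 3 * N + (y 2 - 3 * N) = y 2
          omega
      rw [h3] at h1
      have h2 := measure_eq_zero_iff_ae_notMem.1 h1
      filter_upwards [h2] with x hx _ hx2
      exact hx hx2
    · exact ae_of_all _ fun x h => absurd h hy
  have hpw : ∀ᵐ x ∂(μ.restrict X),
      (avg3 N fun y => w3 q m K (θ 0) x y * ∏ l, F2 l ((Q l)^[tm l y] x)) +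
      (avg3 N fun y => w3 q m K (θ 0) x y * ∏ l, F0 l ((Q l)^[tm l y] x)) +
      (avg3 N fun y => w3 q m K (θ 0) x y * ∏ l, F1 l ((Q l)^[tm l y] x)) +
      (avg3 N fun y => w3 q m K (θ 0) x y * ∏ l, E2 l ((Q l)^[tm l y] x)) +
      (avg3 N fun y => w3 q m K (θ 0) x y * ∏ l, E0 l ((Q l)^[tm l y] x)) +
      (avg3 N fun y => w3 q m K (θ 0) x y * ∏ l, E1 l ((Q l)^[tm l y] x)) +
      (γ ^ 3 * (avg3 N (w3 q m K (θ 0) x)) + (-1) *
        ((avg3 N fun y => w3 q m K (θ 0) x y * |b 0 ((Q 0)^[tm 0 y] x) - b 0 x|) +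
        (avg3 N fun y => w3 q m K (θ 0) x y * |b 1 ((Q 1)^[tm 1 y] x) - b 1 x|) +
        (avg3 N fun y => w3 q m K (θ 0) x y * |b 2 ((Q 2)^[tm 2 y] x) - b 2 x|))) ≤ 0 := by
    filter_upwards [ae_restrict_of_ae hae, ae_restrict_mem hX] with x hx hxX
    rw [← MAI_add, ← MAI_add, ← MAI_add, ← MAI_add, ← MAI_add, ← MAI_add, ← MAI_add, ← MAI_mul,
      ← MAI_mul, ← MAI_add, ← MAI_add]
    have hz : avg3 N (fun _ => (0 : ℝ)) = 0 := by
      rw [MAI_avg]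
      simp
    rw [← hz]
    refine MAI_mono N fun y hy => ?_
    have hxy := hx y hy
    have hzero : one A ((Q 0)^[tm 0 y] x) * one A ((Q 1)^[tm 1 y] x) *
        one A ((Q 2)^[tm 2 y] x) = 0 := by
      by_contra hne
      apply hxy
      refine ⟨hXA hxX, ?_⟩
      have g2 : one A ((Q 2)^[tm 2 y] x) ≠ 0 := right_ne_zero_of_mul hne
      have g3 := left_ne_zero_of_mul hne
      have g1 : one A ((Q 1)^[tm 1 y] x) ≠ 0 := right_ne_zero_of_mul g3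
      have g0 : one A ((Q 0)^[tm 0 y] x) ≠ 0 := left_ne_zero_of_mul g3
      have hmem : ∀ z, one A z ≠ 0 → z ∈ A := by
        intro z hz'
        by_contra hz2
        exact hz' (Set.indicator_of_notMem hz2 _)
      exact mc _ ⟨hmem _ g0, hmem _ g1, hmem _ g2⟩
    have hpt := pt γ (b 0 ((Q 0)^[tm 0 y] x)) (b 1 ((Q 1)^[tm 1 y] x))
      (b 2 ((Q 2)^[tm 2 y] x)) (b 0 x) (b 1 x) (b 2 x) hγ (hb01 _ _).1 (hb01 _ _).2 (hb01 _ _).1
      (hb01 _ _).2 (hb01 _ _).2 (hb01 _ _).2 (hγb x hxX 0) (hγb x hxX 1) (hγb x hxX 2)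
    have hal := alg (w3 q m K (θ 0) x y) (γ ^ 3) _ _ _ _ _ _ _ _ _ _ _ _ _ (hW0 x y)
      (hsum 0 ((Q 0)^[tm 0 y] x)) (hsum 1 ((Q 1)^[tm 1 y] x)) (hsum 2 ((Q 2)^[tm 2 y] x))
      hzero hpt
    refine le_trans (le_of_eq ?_) hal
    simp only [Fin.prod_univ_three]
    simp only [hF2, hF0, hF1, hE2, hE0, hE1, hc, Matrix.cons_val_zero, Matrix.cons_val_one,
      Matrix.cons_val]
    ring
  have hfin := integral_nonpos_of_ae hpw
  rw [lin (iF F2 mF2 bF2).restrict (iF F0 mF0 bF0).restrict (iF F1 mF1 bF1).restrict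
    (iF E2 mE2 bE2).restrict (iF E0 mE0 bE0).restrict (iF E1 mE1 bE1).restrict iW.restrict
    (iE 0).restrict (iE 1).restrict (iE 2).restrict] at hfin
  have n2 := (abs_le.1 T2).1
  have n0 := (abs_le.1 T0).1
  have n1 := (abs_le.1 T1).1
  have m2 := (abs_le.1 S2).1
  have m0 := (abs_le.1 S0).1
  have m1 := (abs_le.1 S1).1
  have lW' := (abs_le.1 lW).1
  simp only [TF] at n2 n0 n1 m2 m0 m1
  have hXne : X.Nonempty := by
    by_contra hne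
    rw [Set.not_nonempty_iff_eq_empty] at hne
    rw [hne] at hbig
    simp at hbig
    linarith
  obtain ⟨x0, hx0⟩ := hXne
  have hγ1 : γ ≤ 1 := (hγb x0 hx0 0).trans (hb01 0 x0).2
  have hγ3 : γ ^ 3 ≤ 1 := pow_le_one₀ hγ.le hγ1
  have hγ30 : 0 < γ ^ 3 := by positivity
  have v1 : γ ^ 3 * (μ.real X - ε) ≤ γ ^ 3 * ∫ x in X, avg3 N (w3 q m K (θ 0) x) ∂μ :=
    mul_le_mul_of_nonneg_left (by linarith) hγ30.le
  have v2 : γ ^ 3 * ε ≤ ε := by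
    calc γ ^ 3 * ε ≤ 1 * ε := mul_le_mul_of_nonneg_right hγ3 hε.le
      _ = ε := one_mul ε
  have v3 : γ ^ 3 * (μ.real X - ε) = γ ^ 3 * μ.real X - γ ^ 3 * ε := by ring
  linarith

end Pool.Agent.CRk
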