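import Pool.Agent.CRk.Defs

set_option autoImplicit false

/-!
# CRk targets (MP_cfac66_an, common finite rank). Every target has its proof in the docstring.
The facts of the projects FSP and Ind3 are available: `Pool.Agent.FSP.f_RWM`, `f_NWA`, `f_NWB`,
`f_NWC`, `p_EXP`, `p_KUB`, `p_KKB`, `p_VOP`, `p_CTH`, `Pool.Agent.Ind3.f_DCP`, `f_ORN`, `f_APX`,
`f_GVQ`, `f_ORD`, `f_LSU`, and `Pool.Agent.MRec.*` (`tendsto_avg`, `proj`, `proj_fixed`,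
`integral_comp_mp`, `iterate_two`). In the windows of `avg3`: `y 0 ∈ [N,2N)`, `y 1 ∈ [0,N)`,
`y 2 ∈ [3N,4N)`.
-/

open MeasureTheory Filter Topology Finset

namespace Pool.Agent.CRk

open Pool.Agent.FSP Pool.Agent.Ind3

universe u

/-! ## A. Spectral part (one map) -/

/-- TRU. Truncation. PROOF. `v' = v` where `‖v x‖ ≤ K`, `0` elsewhere. `‖v (Q x)‖ = ‖v x‖` a.e., so
`v' (Q x) = lam x * v' x` a.e.; `∫ ‖v - v'‖² = ∫ 1_{‖v‖ > K} ‖v‖² → 0` as `K → ∞` (dominated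
convergence, `K : ℕ`). -/
def T_TRU : Prop := ∀ (Ω : Type u) [MeasurableSpace Ω] (μ : Measure Ω) [IsProbabilityMeasure μ]
  (Q : Ω → Ω), MeasurePreserving Q μ μ → ∀ (v : Ω → ℂ) (lam : Ω → Circle), GEig μ Q v lam →
  Integrable (fun x => ‖v x‖ ^ 2) μ → ∀ ε : ℝ, 0 < ε → ∃ (K : ℝ) (v' : Ω → ℂ),
    GEig μ Q v' lam ∧ (∀ x, ‖v' x‖ ≤ K) ∧ (∀ x, v' x ≠ 0 → v x ≠ 0) ∧
    ∫ x, ‖v x - v' x‖ ^ 2 ∂μ ≤ ε

/-- OAG. A function orthogonal to all bounded almost periodic functions (all invariant frequencies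
allowed) is relatively weakly mixing. PROOF. FSP.f_RWM: let `v`, `lam` be a generalised
eigenfunction, `‖v‖²` integrable. For `K : ℕ` let `p` be the real (or imaginary) part of
`v 1_{‖v‖ ≤ K}`. A.e. `v (Q^n x) = lam x ^ n * v x` for all `n`, so
`|p (Q^n x) - p x| ≤ K ‖lam x ^ n - 1‖`, hence `AP μ T (FA T) ε p` for every `ε > 0` (`q = 1`,
`d = 1`, `τ = lam`, `ρ = ε / (K + 1)`), so `∫ g p = 0`; let `K → ∞` (dominated convergence,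
`‖v‖ ≤ 1 + ‖v‖²`). -/
def T_OAG : Prop := ∀ (Ω : Type u) [MeasurableSpace Ω] (μ : Measure Ω) [IsProbabilityMeasure μ]
  (T : Ω → Ω), MeasurePreserving T μ μ → ∀ g : Ω → ℝ, Measurable g → (∀ x, |g x| ≤ 1) →
  OrtAP μ T (FA T) Set.univ g → RWM μ T g

/-- DC2. Two nested decompositions. PROOF. Ind3.f_DCP for `F = FA Q`: `one A = c + g`; and for
`F = FF θ ⊆ FA Q`: `one A = b + g'`. Put `r = c - b = g' - g`. `|r| ≤ 1` as `b, c ∈ [0,1]`.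
`OrtAP μ Q (FF θ) univ r`: a bounded `v`, almost periodic with frequencies in `FF θ`, is also almost
periodic with frequencies in `FA Q` (`AP` is monotone in the set of frequencies), so
`∫ g' v = ∫ g v = 0`. `RWM μ Q g` by OAG. -/
def T_DC2 : Prop := ∀ (Ω : Type u) [MeasurableSpace Ω] (μ : Measure Ω) [IsProbabilityMeasure μ]
  (Q : Ω → Ω), MeasurePreserving Q μ μ → ∀ (θ : ℕ → Ω → Circle), (∀ j, Measurable (θ j)) →
  (∀ j x, θ j (Q x) = θ j x) → ∀ A : Set Ω, MeasurableSet A →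
  ∃ b r g : Ω → ℝ, Measurable b ∧ Measurable r ∧ Measurable g ∧ (∀ x, 0 ≤ b x ∧ b x ≤ 1) ∧
    (∀ x, 0 ≤ b x + r x ∧ b x + r x ≤ 1) ∧ (∀ x, |r x| ≤ 1) ∧ (∀ x, |g x| ≤ 1) ∧
    (∀ x, one A x = b x + r x + g x) ∧ APF μ Q (FF θ) b ∧
    APF μ Q (FA Q) (fun x => b x + r x) ∧ OrtAP μ Q (FF θ) Set.univ r ∧ RWM μ Q g ∧
    ∀ᵐ x ∂μ, x ∈ A → 0 < b x

/-- KER. Kernel averages of an almost periodic function approximate it. PROOF. `w = nw 1 m τ`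
(`n / 1 = n`), `m` with `d * (4 / (m ρ²)) ≤ ε`. `D = wav - p` satisfies
`|D| ≤ N⁻¹ ∑ w_n |p (S^n x) - p x| + |wm w N 0 x - 1|` and
`w_n |p (S^n x) - p x| ≤ ε w_n + w_n 1{x ∉ bohr τ ρ n}` for a.e. `x` (`p ∈ [0,1]`), so by FSP.f_NWB
and FSP.f_NWC `∫ |D| ≤ ε (1 + ε) + (ε + ε) + ε ≤ 5 ε` for large `N`. Also
`|D| ≤ wm w N 0 x + 1 ≤ 2 + |wm - 1|` and `|D| ≤ m^d + 1` (FSP.f_NWA with `q = 1`), so
`∫ D² ≤ 2 ∫ |D| + (m^d + 1) ∫ |wm - 1| ≤ 10 ε + ε`. -/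
def T_KER : Prop := ∀ (Ω : Type u) [MeasurableSpace Ω] (μ : Measure Ω) [IsProbabilityMeasure μ]
  (S : Ω → Ω), MeasurePreserving S μ μ → ∀ (d : ℕ) (τ : Fin d → Ω → Circle),
  (∀ l, Measurable (τ l)) → ∀ p : Ω → ℝ, Measurable p → (∀ x, 0 ≤ p x) → (∀ x, p x ≤ 1) →
  ∀ ε ρ : ℝ, 0 < ε → ε ≤ 1 → 0 < ρ →
  (∀ n : ℕ, ∀ᵐ x ∂μ, x ∈ bohr τ ρ n → |p (S^[n] x) - p x| ≤ ε) →
  ∃ m : ℕ, 1 ≤ m ∧ ∃ N₀ : ℕ, ∀ N ≥ N₀, ∫ x, (wav S (nw 1 m τ) p N 0 x - p x) ^ 2 ∂μ ≤ 12 * ε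

/-- LIM. The kernel averages converge in `L²` to a finite sum of generalised eigenfunctions.
PROOF. `nw 1 m τ x n = kw m τ x n / ku m τ x` and FSP.p_EXP:
`kw m τ x n = ∑_p kc m d p * Re ((chr τ p x)^n)`, so
`wav S (nw 1 m τ) f N 0 x = ∑_p (kc m d p / ku m τ x) Re (cav S (chr τ p) f N 0 x)`. For every `p`
FSP.p_VOP (with `b = chr τ p`, invariant) gives an isometry `V` of `Lp ℂ 2 μ` and `F = p` with
`cav S b f N 0 = N⁻¹ ∑ V^n F` a.e., which converges in `L²` to `H_p = MRec.proj V F`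
(MRec.tendsto_avg), and `V H_p = H_p` (MRec.proj_fixed), i.e. `H_p (S x) = (chr τ p x)⁻¹ H_p x` a.e.
Index set `ι = (Fin d → Fin m × Fin m) × Bool`: `G (p, true) = (kc / (2 ku)) H_p`, eigenvalue
` (chr τ p)⁻¹`; `G (p, false) = (kc / (2 ku)) conj H_p`, eigenvalue `chr τ p` (measurable
representatives; `ku ≥ 1` by FSP.p_KUB depends only on the values `τ l x`, hence is `S`-invariant
and measurable, FSP.f_NWA). -/
def T_LIM : Prop := ∀ (Ω : Type u) [MeasurableSpace Ω] (μ : Measure Ω) [IsProbabilityMeasure μ]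
  (S : Ω → Ω), MeasurePreserving S μ μ → ∀ (m d : ℕ) (τ : Fin d → Ω → Circle), 1 ≤ m →
  (∀ l, Measurable (τ l)) → (∀ l x, τ l (S x) = τ l x) → ∀ p : Ω → ℝ, Measurable p →
  (∀ x, |p x| ≤ 1) → ∃ (ι : Type) (_ : Fintype ι) (G : ι → Ω → ℂ) (χ : ι → Ω → Circle),
    (∀ i, GEig μ S (G i) (χ i)) ∧ (∀ i, Integrable (fun x => ‖G i x‖ ^ 2) μ) ∧
    (∀ (i : ι) (Q : Ω → Ω), (∀ l x, τ l (Q x) = τ l x) → ∀ x, χ i (Q x) = χ i x) ∧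
    ∀ ε : ℝ, 0 < ε → ∃ N₀ : ℕ, ∀ N ≥ N₀,
      ∫ x, ‖((wav S (nw 1 m τ) p N 0 x : ℝ) : ℂ) - ∑ i, G i x‖ ^ 2 ∂μ ≤ ε

/-- ROO. A generalised eigenfunction of `Q^q` whose eigenvalue is `Q`-invariant is a sum of
generalised eigenfunctions of `Q`. PROOF. `κ x = Circle.exp (Complex.arg (χ x) / q)` is measurable,
`Q`-invariant and `κ^q = χ`; `ζ = Circle.exp (2 π / q)`. For `t : Fin q` put `lam t = κ * ζ^t` and
`v t x = q⁻¹ ∑_{s<q} (lam t x)⁻¹ ^ s * G (Q^s x)`. Then `v t (Q x) = lam t x * v t x` a.e. (shift of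
the sum; the term `s = q` is ` (lam t x)⁻¹ ^ q G (Q^q x) = χ⁻¹ χ G = G x`, `ζ^(t q) = 1`), and
`∑_t v t x = G x` since `∑_t ζ^(-t s) = 0` for `0 < s < q`. Square integrable: each `G ∘ Q^s` is. -/
def T_ROO : Prop := ∀ (Ω : Type u) [MeasurableSpace Ω] (μ : Measure Ω) [IsProbabilityMeasure μ]
  (Q : Ω → Ω), MeasurePreserving Q μ μ → ∀ (q : ℕ), 1 ≤ q → ∀ (G : Ω → ℂ) (χ : Ω → Circle),
  GEig μ Q^[q] G χ → (∀ x, χ (Q x) = χ x) → Integrable (fun x => ‖G x‖ ^ 2) μ →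
  ∃ (v : Fin q → Ω → ℂ) (lam : Fin q → Ω → Circle), (∀ t, GEig μ Q (v t) (lam t)) ∧
    (∀ t, Integrable (fun x => ‖v t x‖ ^ 2) μ) ∧ ∀ᵐ x ∂μ, G x = ∑ t, v t x

/-- KAP. Almost periodic functions are limits of sums of generalised eigenfunctions. PROOF. For
`δ > 0` small take `p` from `APF` (`∫ |c - p|² ≤ ∫ |c - p| ≤ δ`), then `AP μ Q F δ p` gives `q, ρ,
d, τ` (`Q^[q * n] = (Q^[q])^[n]`); KER for `S = Q^[q]` gives `m` and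
`∫ (wav - p)² ≤ 12 δ`; LIM: `∫ ‖wav - ∑ G i‖² ≤ δ`; ROO: `G i = ∑_t v_{i,t}` a.e. (`χ i` is
`Q`-invariant); TRU: bounded `v'_{i,t}` with `∫ ‖v_{i,t} - v'_{i,t}‖²` so small that the finite sum
of the differences has `L²` norm squared `≤ δ`. Finally `‖a + b + c + d‖² ≤ 4 (‖a‖² + ..)`. -/
def T_KAP : Prop := ∀ (Ω : Type u) [MeasurableSpace Ω] (μ : Measure Ω) [IsProbabilityMeasure μ]
  (Q : Ω → Ω), MeasurePreserving Q μ μ → ∀ F : Set (Ω → Circle), F ⊆ FA Q → ∀ c : Ω → ℝ,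
  Measurable c → (∀ x, 0 ≤ c x) → (∀ x, c x ≤ 1) → APF μ Q F c → InS μ Q Any c

/-- NCO. Generalised eigenfunctions with different eigenvalues are orthogonal. PROOF. Let
`h = v * conj v'` (integrable), `κ = lam * lam'⁻¹` (invariant), `h (Q x) = κ x * h x` a.e., and
`h x = 0` a.e. where `κ x = 1`. For `δ > 0` let `φ x = (κ x - 1)⁻¹` if `δ < ‖κ x - 1‖`, else `0`:
bounded, measurable, invariant. `∫ φ h = ∫ (φ h) ∘ Q = ∫ φ κ h`, so `∫ φ (κ - 1) h = 0`, i.e.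
`∫ 1_{δ < ‖κ - 1‖} h = 0`; `δ → 0` (dominated convergence) gives `∫ h = 0`. -/
def T_NCO : Prop := ∀ (Ω : Type u) [MeasurableSpace Ω] (μ : Measure Ω) [IsProbabilityMeasure μ]
  (Q : Ω → Ω), MeasurePreserving Q μ μ → ∀ (v v' : Ω → ℂ) (lam lam' : Ω → Circle),
  GEig μ Q v lam → GEig μ Q v' lam' → (∃ K : ℝ, ∀ x, ‖v x‖ ≤ K ∧ ‖v' x‖ ≤ K) →
  (∀ᵐ x ∂μ, v x ≠ 0 → v' x ≠ 0 → lam x ≠ lam' x) →
  ∫ x, v x * (starRingEnd ℂ) (v' x) ∂μ = 0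

/-- NRS. A function orthogonal to the almost periodic functions with frequencies `θ` is a limit of
sums of eigenfunctions whose eigenvalues are not commensurable with `θ`. PROOF. Let
`V = ∑ v i` be an approximant of `f`, `Y_i = {x | RelN θ (lam i) x}`: measurable (countable union
over `n`, `k`, `a`) and `Q`-invariant. `v i = v' i + v'' i`, `v'' i = v i 1_{Y_i}`. `v'' i` is a
generalised eigenfunction with `RelN` a.e. where it does not vanish, so `∫ f v'' i = 0`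
(Ind3.f_ORN; also its conjugate, as `f` is real), and `∫ v' i conj (v'' j) = 0` (NCO: if
`lam i x = lam j x` and `RelN θ (lam j) x` then `RelN θ (lam i) x`). So
`∫ ‖f - V‖² = ∫ ‖f - ∑ v' i‖² + ∫ ‖∑ v'' i‖² - 2 Re ∫ (f - ∑ v' i) conj (∑ v'' j)` and the last
integral is `0`: `∫ ‖f - ∑ v' i‖² ≤ ∫ ‖f - V‖² ≤ ε`. -/
def T_NRS : Prop := ∀ (Ω : Type u) [MeasurableSpace Ω] (μ : Measure Ω) [IsProbabilityMeasure μ]
  (Q : Ω → Ω), MeasurePreserving Q μ μ → ∀ (θ : ℕ → Ω → Circle), (∀ j, Measurable (θ j)) →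
  (∀ j x, θ j (Q x) = θ j x) → ∀ f : Ω → ℝ, Measurable f → (∀ x, |f x| ≤ 1) →
  OrtAP μ Q (FF θ) Set.univ f → InS μ Q Any f → InS μ Q (NR μ θ) f

/-- DCL. The decomposition for one map. PROOF. DC2. `InS μ Q Any b` and `InS μ Q Any (b + r)` by KAP
(`FF θ ⊆ FA Q`). Then `r = (b + r) - b`: the approximants of `b + r` and those of `b` with the
opposite sign together (index set `ι ⊕ ι'`, `ε / 4` each) show `InS μ Q Any r`, and NRS gives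
`InS μ Q (NR μ θ) r`. -/
def T_DCL : Prop := ∀ (Ω : Type u) [MeasurableSpace Ω] (μ : Measure Ω) [IsProbabilityMeasure μ]
  (Q : Ω → Ω), MeasurePreserving Q μ μ → ∀ (θ : ℕ → Ω → Circle), (∀ j, Measurable (θ j)) →
  (∀ j x, θ j (Q x) = θ j x) → ∀ A : Set Ω, MeasurableSet A →
  ∃ b r g : Ω → ℝ, Measurable b ∧ Measurable r ∧ Measurable g ∧ (∀ x, 0 ≤ b x ∧ b x ≤ 1) ∧
    (∀ x, 0 ≤ b x + r x ∧ b x + r x ≤ 1) ∧ (∀ x, |r x| ≤ 1) ∧ (∀ x, |g x| ≤ 1) ∧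
    (∀ x, one A x = b x + r x + g x) ∧ APL μ Q θ b ∧ InS μ Q Any b ∧
    InS μ Q Any (fun x => b x + r x) ∧ InS μ Q (NR μ θ) r ∧ RWM μ Q g ∧
    ∀ᵐ x ∂μ, x ∈ A → 0 < b x

/-! ## B. Averages -/

/-- CHA. The weights do not correlate with a character outside their group. PROOF.
`nw q m τ x n = 1{q ∣ n} * q * kw m τ x (n / q) / ku m τ x`, `kw m τ x k = ∑_p kc * Re (χ_p^k)`,
`χ_p = chr τ p x` (FSP.p_EXP). Choose `κ_p` with `κ_p^q = χ_p`, `ζ = Circle.exp (2 π / q)`; for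
`q ∣ n`: `χ_p^(n/q) = κ_p^n`, and `1{q ∣ n} = q⁻¹ ∑_{t<q} ζ^(t n)`. So `nw * z^n` is a finite linear
combination (coefficients independent of `n`) of the powers `u^n` with `u = ζ^t κ_p^{±1} z`,
`u^q = χ_p^{±1} z^q ≠ 1` by hypothesis (`χ_p^{±1}` is a monomial in the `τ l x`), so `u ≠ 1` and
`|N⁻¹ ∑_{n<N} u^(s+n)| ≤ 2 / (N |u - 1|)`. -/
def T_CHA : Prop := ∀ (Ω : Type u) (q m d : ℕ) (τ : Fin d → Ω → Circle) (x : Ω) (z : Circle),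
  1 ≤ q → 1 ≤ m → (∀ (n : ℕ) (a : Fin d → ℤ), 1 ≤ n → z ^ n ≠ ∏ l, τ l x ^ a l) →
  ∀ ε : ℝ, 0 < ε → ∃ N₀ : ℕ, ∀ N ≥ N₀, ∀ s : ℕ,
    ‖cmean N s (fun n => ((nw q m τ x n : ℝ) : ℂ) * (z : ℂ) ^ n)‖ ≤ ε

/-- TRI. Three eigenfunctions without resonance. PROOF. A.e. `v l ((Q l)^n x) = lam l x ^ n * v l x`
for all `n`. In the windows `y 1 ≤ 2 y 2`, so the integrand is
` (∏ l, v l x) * (w (y 0) (lam 2² lam 1)^(y 0)) * (w (y 1) (lam 2 lam 0⁻¹)^(y 1)) *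
(w (y 2) (lam 1 lam 0²)^(y 2))`, `w n = wt q m K (θ 0) x n`, and `cavg3` is ` (∏ v)` times the
product of three `cmean`s, each bounded by `q m^K` (FSP.f_NWA). For a.e. `x ∈ X` either some
`v l x = 0`, or one of the three `RelN` of `Res` fails and that mean tends to `0` by CHA
(`d = K`, `τ i = θ 0 i`). Dominated convergence. -/
def T_TRI : Prop := ∀ (Ω : Type u) [MeasurableSpace Ω] (μ : Measure Ω) [IsProbabilityMeasure μ]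
  (Q : Fin 3 → Ω → Ω) (θ : Fin 3 → ℕ → Ω → Circle) (X : Set Ω), Adm μ Q θ X →
  ∀ q m K : ℕ, 1 ≤ q → 1 ≤ m → ∀ (v : Fin 3 → Ω → ℂ) (lam : Fin 3 → Ω → Circle),
  (∀ l, GEig μ (Q l) (v l) (lam l)) → (∃ C : ℝ, ∀ l x, ‖v l x‖ ≤ C) →
  (∀ᵐ x ∂μ, x ∈ X → (∀ l, v l x ≠ 0) → ¬ Res (θ 0) lam x) →
  ∀ ε : ℝ, 0 < ε → ∃ N₀ : ℕ, ∀ N ≥ N₀,
    ‖∫ x in X, cavg3 N (fun y => ((w3 q m K (θ 0) x y : ℝ) : ℂ) *
      ∏ l, v l ((Q l)^[tm l y] x)) ∂μ‖ ≤ ε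

/-- EWL. The weighted mean of `h` at the moved point. PROOF. On `X` the lists agree, so
`w3 .. (θ 0) x = w3 .. (θ l) x`; all is `≥ 0` (FSP.f_NWA), so the integral is at most
`∫ avg3 (w3 (θ l) x y * h ((Q l)^t x))`, `t = tm l y`. `w3 (θ l) x y = w3 (θ l) ((Q l)^t x) y`, and
`(Q l)^t` is measure preserving: this is `∫ (avg3 w3 (θ l) x) h x = ∫ a₀ a₁ a₂ h` with
`a_i = wm (wt q m K (θ l)) N (off i * N) x`, `0 ≤ a_i ≤ W = q m^K`, `a_i → 1` in `L¹`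
(FSP.f_NWB, `q ∣ N`); `|a₀ a₁ a₂ - 1| ≤ W² |a₀ - 1| + W |a₁ - 1| + |a₂ - 1|` (`W ≥ 1`), `h ≤ C`. -/
def T_EWL : Prop := ∀ (Ω : Type u) [MeasurableSpace Ω] (μ : Measure Ω) [IsProbabilityMeasure μ]
  (Q : Fin 3 → Ω → Ω) (θ : Fin 3 → ℕ → Ω → Circle) (X : Set Ω), Adm μ Q θ X →
  ∀ q m K : ℕ, 1 ≤ q → 1 ≤ m → ∀ (l : Fin 3) (h : Ω → ℝ) (C : ℝ), Measurable h →
  (∀ x, 0 ≤ h x) → (∀ x, h x ≤ C) → ∀ ε : ℝ, 0 < ε → ∃ N₀ : ℕ, ∀ N ≥ N₀, q ∣ N →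
    ∫ x in X, avg3 N (fun y => w3 q m K (θ 0) x y * h ((Q l)^[tm l y] x)) ∂μ
      ≤ ∫ x, h x ∂μ + ε

/-- WAV. PROOF. `avg3 N (w3 .. x) = a₀ a₁ a₂` (product of three `wm`), see EWL; `a_i → 1` in `L¹`,
bounded. -/
def T_WAV : Prop := ∀ (Ω : Type u) [MeasurableSpace Ω] (μ : Measure Ω) [IsProbabilityMeasure μ]
  (Q : Fin 3 → Ω → Ω) (θ : Fin 3 → ℕ → Ω → Circle) (X : Set Ω), Adm μ Q θ X →
  ∀ q m K : ℕ, 1 ≤ q → 1 ≤ m → ∀ ε : ℝ, 0 < ε → ∃ N₀ : ℕ, ∀ N ≥ N₀, q ∣ N →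
    |∫ x in X, avg3 N (w3 q m K (θ 0) x) ∂μ - μ.real X| ≤ ε

/-- RTM. Almost periodic functions without resonance. PROOF. Choose the approximants one after the
other: `V 2 = ∑ v` for `f 2`, bounded by `C₂ ≥ 1`; `V 0` for `f 0` with error small against `C₂`,
bounded by `C₀ ≥ 1`; `V 1` for `f 1` with error small against `C₀ C₂`
(`∫ ‖f l - V l‖ ≤ (∫ ‖f l - V l‖²)^(1/2)`). As complex numbers
`f 2 f 0 f 1 - V 2 V 0 V 1 = (f 2 - V 2) f 0 f 1 + V 2 (f 0 - V 0) f 1 + V 2 V 0 (f 1 - V 1)`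
(arguments moved); EWL for `h = ‖f l - V l‖` bounds the three error terms. `V 2 V 0 V 1` is a finite
sum of products of eigenfunctions of type `P l`: TRI for each of them (`∏ l` over `Fin 3`,
`Fin.prod_univ_three`; the cast of `avg3` is `cavg3`; the indices of an approximant are in a
`Fintype`). -/
def T_RTM : Prop := ∀ (Ω : Type u) [MeasurableSpace Ω] (μ : Measure Ω) [IsProbabilityMeasure μ]
  (Q : Fin 3 → Ω → Ω) (θ : Fin 3 → ℕ → Ω → Circle) (X : Set Ω), Adm μ Q θ X →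
  ∀ q m K : ℕ, 1 ≤ q → 1 ≤ m → ∀ (P : Fin 3 → (Ω → ℂ) → (Ω → Circle) → Prop)
  (f : Fin 3 → Ω → ℝ), (∀ l, Measurable (f l)) → (∀ l x, |f l x| ≤ 1) →
  (∀ l, InS μ (Q l) (P l) (f l)) →
  (∀ (v : Fin 3 → Ω → ℂ) (lam : Fin 3 → Ω → Circle), (∀ l, GEig μ (Q l) (v l) (lam l)) →
    (∀ l, P l (v l) (lam l)) → ∀ᵐ x ∂μ, x ∈ X → (∀ l, v l x ≠ 0) → ¬ Res (θ 0) lam x) →
  ∀ ε : ℝ, 0 < ε → ∃ N₀ : ℕ, ∀ N ≥ N₀, q ∣ N → |TF μ X N q m K (θ 0) Q f| ≤ ε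

/-- GTM. Van der Corput for the triples (as Ind3.p_GTW, but simpler: copy it). PROOF. ORD with the
order ` (l, j, i)`. For fixed `y l` the inner double mean over `y j`, `y i` is the double mean of
`GV` (with `q = 1`) for the arrays `u (y l) (y i) x`, `v (y l) (y j) x` (indexed by the actual
times), `W` may be replaced by `|W|`; average over `y l`; `|mean| ≤ mean |.|`. In the windows
`y 1 ≤ 2 * y 2` (needed for the identity). -/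
def T_GTM : Prop := ∀ (Ω : Type u) [MeasurableSpace Ω] (μ : Measure Ω) [IsProbabilityMeasure μ]
  (Q B P : Ω → Ω), Measurable Q → Measurable B → Measurable P → ∀ (l i j : Fin 3),
  l ≠ i → l ≠ j → i ≠ j → ∀ g : Ω → ℝ, Measurable g → (∀ x, |g x| ≤ 1) →
  (∀ y : Fin 3 → ℕ, y 1 ≤ 2 * y 2 → ∀ x, Q^[tm l y] x = B^[y i] (P^[y j] x)) →
  GV μ B P g → GW μ Q l i j g

/-- GTF. A relatively weakly mixing function does not contribute. PROOF. Role `2`: `i = 0`, `j = 1`,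
`B = Q ∘ Q`, `P = Q` (`2 y 0 + y 1`); role `0`: `i = 2`, `j = 1`, `B = Q ∘ Q`, `P = Q'`
(`2 y 2 - y 1`); role `1`: `i = 0`, `j = 2`, `B = P = Q`. Ind3.f_GVQ gives `GV`, GTM gives `GW`. The
function of role `i` is at a time which depends on ` (y l, y j)` only, the one of role `j` at a time
which depends on ` (y l, y i)` only. Put (`w n = wt q m K (θ 0) x n`)
`u a b x = w a * w b * f j (Q j ^[..] x)` and `v a c x = w c * f i (Q i ^[..] x)`, bounded by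
`W² + W`, `W = q m^K`, with `w` measurable (FSP.f_NWA). `|∫_X ..| ≤ ∫ |..|`. -/
def T_GTF : Prop := ∀ (Ω : Type u) [MeasurableSpace Ω] (μ : Measure Ω) [IsProbabilityMeasure μ]
  (Q Q' : Fin 3 → Ω → Ω) (θ : Fin 3 → ℕ → Ω → Circle) (X : Set Ω), Adm μ Q θ X →
  (∀ l, MeasurePreserving (Q' l) μ μ) → (∀ l x, Q' l (Q l x) = x) →
  (∀ l x, Q l (Q' l x) = x) → ∀ q m K : ℕ, 1 ≤ q → 1 ≤ m → ∀ (f : Fin 3 → Ω → ℝ),
  (∀ l, Measurable (f l)) → (∀ l x, |f l x| ≤ 1) → ∀ l : Fin 3, RWM μ (Q l) (f l) →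
  ∀ ε : ℝ, 0 < ε → ∃ H : ℕ, 0 < H ∧ ∃ L₀ : ℕ, ∀ L ≥ L₀,
    |TF μ X (H * L) q m K (θ 0) Q f| ≤ ε

/-- CTM. The variation of `c` for one pair of variables. PROOF. FSP.p_CTH with `w = wt q m K θ`,
`W = q m^K`, `E n = {x | q ∣ n ∧ x ∈ bohr (fun i : Fin K => θ i) ρ (n / q)}`: FSP.f_NWA (bounds,
measurability, invariance of the weights), FSP.f_NWB, FSP.f_NWC (off `E n` the weight is
`0` if `q ∤ n`). For a.e. `x ∈ E n`, `n = q h`: `|p (Q^(t + n) x) - p (Q^t x)| ≤ ε` for all `t`; so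
`|p (B^n x) - p x| ≤ 2 ε` for `B = Q` and for `B = Q ∘ Q` (`t = 0` and `t = n`,
MRec.iterate_two), and for `P = Q'` use the point `Q'^n x` (a.e. statement transported by the
measure preserving `Q'^n`; the `θ j` are invariant under `Q'` as well). `∫ |c - p| ≤ ε`. -/
def T_CTM : Prop := ∀ (Ω : Type u) [MeasurableSpace Ω] (μ : Measure Ω) [IsProbabilityMeasure μ]
  (Q Q' B P : Ω → Ω), MeasurePreserving Q μ μ → MeasurePreserving Q' μ μ → (∀ x, Q' (Q x) = x) →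
  (∀ x, Q (Q' x) = x) → ((B = Q ∧ P = Q) ∨ (B = Q ∘ Q ∧ P = Q') ∨ (B = Q ∘ Q ∧ P = Q)) →
  ∀ (θ : ℕ → Ω → Circle), (∀ j, Measurable (θ j)) → (∀ j x, θ j (Q x) = θ j x) →
  ∀ (q m K : ℕ) (ρ ε : ℝ), 1 ≤ q → 1 ≤ m → 0 < ρ → 0 < ε → (K : ℝ) * (4 / (m * ρ ^ 2)) ≤ ε →
  ∀ c p : Ω → ℝ, Measurable c → (∀ x, 0 ≤ c x) → (∀ x, c x ≤ 1) → Measurable p →
  (∀ x, 0 ≤ p x) → (∀ x, p x ≤ 1) → ∫ x, |c x - p x| ∂μ ≤ ε →
  (∀ᵐ x ∂μ, ∀ t h : ℕ, (∀ j < K, ‖(θ j x : ℂ) ^ h - 1‖ ≤ ρ) →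
    |p (Q^[t + q * h] x) - p (Q^[t] x)| ≤ ε) →
  ∃ N₀ : ℕ, ∀ N ≥ N₀, q ∣ N → ∀ s s' : ℕ,
    ∫ x, mean N s' (fun j => mean N s fun i => (wt q m K θ x i * wt q m K θ x j) *
      |c (B^[i] (P^[j] x)) - c x|) ∂μ ≤ 11 * ε

/-- CTX. The variation of `c` for the triples. PROOF. On `X`, `w3 (θ 0) = w3 (θ l)`; everything is
`≥ 0`, so pass to the integral over `Ω` with the weights of `θ l`. ORD with the last two variables
`j`, `i` (those of GTF: role `2`: `i = 0`, `j = 1`; role `0`: `i = 2`, `j = 1`; role `1`: `i = 0`,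
`j = 2`): the triple mean is `a x * D x` with `a = mean N (off l * N) (wt .. x)` and `D` the double
mean of CTM (`(Q l)^[tm l y] x = B^[y i] (P^[y j] x)` in the windows). `0 ≤ D ≤ W²`, so
`∫ a D ≤ ∫ D + W² ∫ |a - 1| ≤ 11 ε + ε` for large `N` (CTM, FSP.f_NWB). -/
def T_CTX : Prop := ∀ (Ω : Type u) [MeasurableSpace Ω] (μ : Measure Ω) [IsProbabilityMeasure μ]
  (Q Q' : Fin 3 → Ω → Ω) (θ : Fin 3 → ℕ → Ω → Circle) (X : Set Ω), Adm μ Q θ X →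
  (∀ l, MeasurePreserving (Q' l) μ μ) → (∀ l x, Q' l (Q l x) = x) →
  (∀ l x, Q l (Q' l x) = x) → ∀ (l : Fin 3) (q m K : ℕ) (ρ ε : ℝ), 1 ≤ q → 1 ≤ m → 0 < ρ →
  0 < ε → (K : ℝ) * (4 / (m * ρ ^ 2)) ≤ ε →
  ∀ c p : Ω → ℝ, Measurable c → (∀ x, 0 ≤ c x) → (∀ x, c x ≤ 1) → Measurable p →
  (∀ x, 0 ≤ p x) → (∀ x, p x ≤ 1) → ∫ x, |c x - p x| ∂μ ≤ ε →
  (∀ᵐ x ∂μ, ∀ t h : ℕ, (∀ j < K, ‖(θ l j x : ℂ) ^ h - 1‖ ≤ ρ) →
    |p ((Q l)^[t + q * h] x) - p ((Q l)^[t] x)| ≤ ε) →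
  ∃ N₀ : ℕ, ∀ N ≥ N₀, q ∣ N →
    ∫ x in X, avg3 N (fun y => w3 q m K (θ 0) x y * |c ((Q l)^[tm l y] x) - c x|) ∂μ ≤ 12 * ε

/-- UNI. Common parameters for three functions. PROOF. `q = q₀ q₁ q₂`, `K` the maximum,
`ρ = min_l (ρ_l / (q / q_l))`, using `‖z^(k h) - 1‖ ≤ k ‖z^h - 1‖` (Ind3.ERA_pow_norm) and
`q h = q_l ((q / q_l) h)`. -/
def T_UNI : Prop := ∀ (Ω : Type u) [MeasurableSpace Ω] (μ : Measure Ω)
  (Q : Fin 3 → Ω → Ω) (θ : Fin 3 → ℕ → Ω → Circle) (p : Fin 3 → Ω → ℝ) (ε : ℝ),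
  (∀ l, APP μ (Q l) (θ l) ε (p l)) → ∃ (q K : ℕ) (ρ : ℝ), 1 ≤ q ∧ 0 < ρ ∧
    ∀ l, ∀ᵐ x ∂μ, ∀ t h : ℕ, (∀ j < K, ‖(θ l j x : ℂ) ^ h - 1‖ ≤ ρ) →
      |p l ((Q l)^[t + q * h] x) - p l ((Q l)^[t] x)| ≤ ε

/-- MA3. The main lower bound. PROOF. Suppose the conclusion fails, `f l y x = one A ((Q l)^[tm l y]
x)`. For all `y` in the windows `one A x * f 0 * f 1 * f 2 = 0` for a.e. `x`; `X ⊆ A`, so
`0 = ∫_X avg3 w3 f 2 f 0 f 1` for every `N > 0`. With `c l = b l + r l`, arguments moved: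
`f2 f0 f1 = g2 f0 f1 + c2 g0 f1 + c2 c0 g1 + r2 c0 c1 + b2 r0 c1 + b2 b0 r1 + b2 b0 b1`. Let `N =
q * H * L` with `H` the product of the three `H`s of the `g`-terms, `L` large: each of the six terms is
at most `ε` in absolute value (each is a `TF` with a suitable `Fin 3`-family, `![..]`). On `X`,
`b2 b0 b1 (moved) ≥ b2 b0 b1 (x) - ∑_l |b l (moved) - b l x| ≥ γ³ - ∑_l |..|`, so
`∫_X avg3 w3 b2 b0 b1 ≥ γ³ ∫_X avg3 w3 - 36 ε ≥ γ³ (μ X - ε) - 36 ε` (`γ ≤ 1` as `X` is not empty,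
otherwise `μ X = 0` and the hypothesis is absurd). So `0 ≥ γ³ μ X - 43 ε`, contradiction. -/
def T_MA3 : Prop := ∀ (Ω : Type u) [MeasurableSpace Ω] (μ : Measure Ω) [IsProbabilityMeasure μ]
  (Q : Fin 3 → Ω → Ω) (θ : Fin 3 → ℕ → Ω → Circle) (X : Set Ω), Adm μ Q θ X →
  ∀ A : Set Ω, MeasurableSet A → X ⊆ A → ∀ (b r g : Fin 3 → Ω → ℝ), (∀ l, Measurable (b l)) →
  (∀ l, Measurable (r l)) → (∀ l, Measurable (g l)) → (∀ l x, 0 ≤ b l x ∧ b l x ≤ 1) →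
  (∀ l x, 0 ≤ b l x + r l x ∧ b l x + r l x ≤ 1) → (∀ l x, |r l x| ≤ 1) →
  (∀ l x, |g l x| ≤ 1) → (∀ l x, one A x = b l x + r l x + g l x) →
  ∀ γ : ℝ, 0 < γ → (∀ x ∈ X, ∀ l, γ ≤ b l x) → ∀ (q m K : ℕ) (ε : ℝ), 1 ≤ q → 1 ≤ m → 0 < ε →
  (∀ l, ∃ N₀ : ℕ, ∀ N ≥ N₀, q ∣ N →
    ∫ x in X, avg3 N (fun y => w3 q m K (θ 0) x y * |b l ((Q l)^[tm l y] x) - b l x|) ∂μ
      ≤ 12 * ε) →
  (∃ N₀ : ℕ, ∀ N ≥ N₀, q ∣ N → |∫ x in X, avg3 N (w3 q m K (θ 0) x) ∂μ - μ.real X| ≤ ε) →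
  (∀ (f : Fin 3 → Ω → ℝ), (∀ l, Measurable (f l)) → (∀ l x, |f l x| ≤ 1) → ∀ l, f l = g l →
    ∃ H : ℕ, 0 < H ∧ ∃ L₀ : ℕ, ∀ L ≥ L₀, |TF μ X (H * L) q m K (θ 0) Q f| ≤ ε) →
  (∀ (f : Fin 3 → Ω → ℝ),
    (∀ l, f l = b l ∨ f l = r l ∨ f l = fun x => b l x + r l x) → ∀ l, f l = r l →
    ∃ N₀ : ℕ, ∀ N ≥ N₀, q ∣ N → |TF μ X N q m K (θ 0) Q f| ≤ ε) →
  44 * ε < γ ^ 3 * μ.real X →
  ∃ N : ℕ, 0 < N ∧ ∃ a < N, ∃ b' < N, ∃ c < N,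
    μ {x | x ∈ A ∧ ∀ l, (Q l)^[tm l ![N + a, b', 3 * N + c]] x ∈ A} ≠ 0

/-- CRG. The theorem for a list. PROOF. DCL for each role: `b l, r l, g l`. `b l > 0` a.e. on `A`;
for some `γ > 0` the set `X' = {x ∈ X | γ ≤ b l x for all l}` is not null; `Adm` and `MaxR` pass to
`X' ⊆ X`. Fix `ε > 0` with `44 ε < γ³ μ X'`. `APL` gives `p l`, `∫ |b l - p l| ≤ ε`, with `APP ..
ε` by Ind3.f_APX; UNI gives `q, K, ρ`; `m ≥ 1` with `K * (4 / (m ρ²)) ≤ ε`. MA3: first hypothesis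
CTX, second WAV, third GTF (`RWM μ (Q l) (g l)`), fourth RTM with `P l = NR μ (θ l)` at the role
`l` with `f l = r l`, `P = Any` at the others (`NR μ (θ l) v lam` excludes resonance on `X'`: by
`MaxR`, resonance gives `RelN (θ 0) (lam l) x`, and `θ l j x = θ 0 j x` on `X'`; `InS` with property
`NR` or `Any` from DCL; at the other roles `f = r` has `InS .. (NR ..)`, so `InS .. Any`).
`T = Q 2` at time `2 (N + a) + b' = m`, `Q 1` at `N + a + 3 N + c = m + n`,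
`Q 0` at `2 (3 N + c) - b' = m + 2 n`, `n = 2 N + c - a - b' ≥ 1`. -/
def T_CRG : Prop := ∀ (Ω : Type u) [MeasurableSpace Ω] (μ : Measure Ω) [IsProbabilityMeasure μ]
  (Q Q' : Fin 3 → Ω → Ω) (θ : Fin 3 → ℕ → Ω → Circle) (X : Set Ω), Adm μ Q θ X →
  (∀ l, MeasurePreserving (Q' l) μ μ) → (∀ l x, Q' l (Q l x) = x) →
  (∀ l x, Q l (Q' l x) = x) → MaxR μ Q (θ 0) X → μ X ≠ 0 → ∀ A : Set Ω, MeasurableSet A →
  X ⊆ A → ∃ m n : ℕ, 1 ≤ m ∧ 1 ≤ n ∧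
    μ {x | x ∈ A ∧ (Q 2)^[m] x ∈ A ∧ (Q 1)^[m + n] x ∈ A ∧ (Q 0)^[m + 2 * n] x ∈ A} ≠ 0

/-! ## C. The maximal independent family of common eigenvalues -/

/-- PRD. Monomials of generalised eigenvalues are generalised eigenvalues. PROOF. `v x` is the
product over `i` of `V i x ^ (a i)` if `0 ≤ a i` and of ` (conj (V i x)) ^ (- a i)` otherwise
(natural powers, `Int.toNat`); `conj (V i)` has the eigenvalue `conj (L i) = (L i)⁻¹`. -/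
def T_PRD : Prop := ∀ (Ω : Type u) [MeasurableSpace Ω] (μ : Measure Ω) (Q : Ω → Ω) (ι : Type)
  [Fintype ι] (V : ι → Ω → ℂ) (L : ι → Ω → Circle), (∀ i, GEig μ Q (V i) (L i)) →
  ∀ a : ι → ℤ, ∃ v : Ω → ℂ, GEig μ Q v (fun x => ∏ i, L i x ^ a i) ∧
    ∀ x, (∀ i, V i x ≠ 0) → v x ≠ 0

/-- REL. PROOF. `RelN` for `lst r ω e`: the monomials in the first `k` members are `ζ ∏ ω_i^(a_i)`
with `ζ` a product of powers of the `e j ∈ Λ`; conversely `φ^n = ζ ∏ ω_i^(-a_i)` with `ζ = e j`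
uses the first `r + j + 1` members. -/
def T_REL : Prop := ∀ (Ω : Type u) (r : ℕ) (ω : Fin r → Ω → Circle) (Λ : Set Circle)
  (e : ℕ → Circle), CGrp Λ → (∀ n, e n ∈ Λ) → (∀ ζ ∈ Λ, ∃ n, e n = ζ) → ∀ (φ : Ω → Circle)
  (x : Ω), RelN (lst r ω e) φ x ↔
    ∃ n : ℕ, 1 ≤ n ∧ ∃ a : Fin r → ℤ, φ x ^ n * ∏ i, ω i x ^ a i ∈ Λ

/-- MXR. A maximal independent family. PROOF. `r = 0` with `X = Z`: `IFam` for `Fin 0` (`GEig`
vacuous, `a = 0` as `Fin 0` is empty). If `IFam μ Q Λ Y (k + 1) V L` with `Y ⊆ Z` then `Rk` says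
that a.e. `x ∈ Y` has a relation with `a ≠ 0`, so `μ Y = 0`. Let `r ≤ k` be the largest number such that
there are a non-null measurable `X ⊆ Z` and a family of size `r` independent on `X`
(`Nat.findGreatest` or induction: suppose that every such `X`, `r` can be extended; then sizes
`0, 1, .., k + 1` all occur, contradiction). -/
def T_MXR : Prop := ∀ (Ω : Type u) [MeasurableSpace Ω] (μ : Measure Ω) (Q : Fin 3 → Ω → Ω)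
  (Λ : Set Circle) (Z : Set Ω) (k : ℕ), CGrp Λ → MeasurableSet Z → μ Z ≠ 0 → Rk μ Q Λ Z k →
  ∃ (r : ℕ) (X : Set Ω) (V : Fin 3 → Fin r → Ω → ℂ) (L : Fin 3 → Fin r → Ω → Circle), X ⊆ Z ∧
    MeasurableSet X ∧ μ X ≠ 0 ∧ IFam μ Q Λ X r V L ∧
    ∀ (Y : Set Ω) (V' : Fin 3 → Fin (r + 1) → Ω → ℂ) (L' : Fin 3 → Fin (r + 1) → Ω → Circle),
      Y ⊆ X → MeasurableSet Y → IFam μ Q Λ Y (r + 1) V' L' → μ Y = 0

/-- CON. Constant quotients. PROOF. `X` is the countable union over `z : Fin 3 → Fin r → Λ`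
(a countable type: `Λ` is countable, finite index) of the measurable sets
`{x ∈ X | L 2 i x * (L l i x)⁻¹ = z l i for all l, i}`; one of them is not null. -/
def T_CON : Prop := ∀ (Ω : Type u) [MeasurableSpace Ω] (μ : Measure Ω) (Q : Fin 3 → Ω → Ω)
  (Λ : Set Circle) (X : Set Ω) (r : ℕ) (V : Fin 3 → Fin r → Ω → ℂ)
  (L : Fin 3 → Fin r → Ω → Circle), CGrp Λ → MeasurableSet X → μ X ≠ 0 →
  IFam μ Q Λ X r V L → ∃ (X' : Set Ω) (z : Fin 3 → Fin r → Circle), X' ⊆ X ∧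
    MeasurableSet X' ∧ μ X' ≠ 0 ∧ (∀ l i, z l i ∈ Λ) ∧
    ∀ x ∈ X', ∀ l i, z l i * L l i x = L 2 i x

/-- EXT. Maximality gives `MaxR`. PROOF. Let `v`, `lam` be as in `MaxR`. By REL, `Res` at `x ∈ X`
gives (for a common `n ≥ 1`) `α, β : Fin r → ℤ` with ` (lam 2² lam 1)^n ∏ (L 2 i)^(α i) ∈ Λ` and
` (lam 2 lam 0⁻¹)^n ∏ (L 2 i)^(β i) ∈ Λ` (`z 0 i * L 0 i x = L 2 i x` on `X`). Fix ` (n, α, β)`
(countably many). By PRD there are generalised eigenfunctions `V' l`, not zero where `v l` and all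
`V l i` are not zero, with eigenvalues `L' 2 = lam 2^(2n) ∏ (L 2 i)^(α i)`, `L' 1 = lam 1^(-n)`,
`L' 0 = lam 0^(2n) ∏ (L 0 i)^(α i - 2 β i)`. At such an `x`: `L' 2 / L' 1 ∈ Λ`, and
`L' 2 / L' 0 = ((lam 2/lam 0)^n ∏ (L 2 i)^(β i))² ∏ (L 2 i / L 0 i)^(α i - 2 β i) ∈ Λ`. Let `Y` be
the (measurable) set of the `x ∈ X` with `v l x ≠ 0` for all `l`, the two relations for
` (n, α, β)`, and `(L' 2 x)^b ∏ (L 2 i x)^(a i) ∉ Λ` for all `a` and all `b ≠ 0`. The family `V, L`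
extended by `V', L'` (`Fin.snoc`) is `IFam` of size `r + 1` on `Y`, so `μ Y = 0`. So for a.e.
`x ∈ X` as above there are `a` and `b ≠ 0` with `(L' 2)^b ∏ (L 2 i)^(a i) ∈ Λ` (`b > 0` w.l.o.g., `Λ` is a
group), hence `RelN` for `lam 2`; then from the two relations also for `lam 1` and `lam 0` (take
powers and divide; REL). -/
def T_EXT : Prop := ∀ (Ω : Type u) [MeasurableSpace Ω] (μ : Measure Ω) (Q : Fin 3 → Ω → Ω)
  (Λ : Set Circle) (X : Set Ω) (r : ℕ) (V : Fin 3 → Fin r → Ω → ℂ)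
  (L : Fin 3 → Fin r → Ω → Circle) (z : Fin 3 → Fin r → Circle) (e : ℕ → Circle), CGrp Λ →
  (∀ n, e n ∈ Λ) → (∀ ζ ∈ Λ, ∃ n, e n = ζ) → MeasurableSet X → IFam μ Q Λ X r V L →
  (∀ l i, z l i ∈ Λ) → (∀ x ∈ X, ∀ l i, z l i * L l i x = L 2 i x) →
  (∀ (Y : Set Ω) (V' : Fin 3 → Fin (r + 1) → Ω → ℂ) (L' : Fin 3 → Fin (r + 1) → Ω → Circle),
    Y ⊆ X → MeasurableSet Y → IFam μ Q Λ Y (r + 1) V' L' → μ Y = 0) →
  MaxR μ Q (lst r (fun i x => z 0 i * L 0 i x) e) X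

/-- FIN. Assembly. PROOF. MXR for the measurable set `Z ∩ A`, `μ (Z ∩ A) ≠ 0` (`Rk` passes to
subsets); CON; an enumeration `e` of `Λ` (`Set.Countable.exists_eq_range`);
`θ l = lst r (fun i x => z l i * L l i x) e`: measurable, `Q l`-invariant, equal on `X'`. EXT for
`X'` (`IFam` and the maximality pass to `X' ⊆ X`); CRG. -/
def T_FIN : Prop := ∀ (Ω : Type u) [MeasurableSpace Ω] (μ : Measure Ω) [IsProbabilityMeasure μ]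
  (Q Q' : Fin 3 → Ω → Ω), (∀ l, MeasurePreserving (Q l) μ μ) →
  (∀ l, MeasurePreserving (Q' l) μ μ) → (∀ l x, Q' l (Q l x) = x) →
  (∀ l x, Q l (Q' l x) = x) → ∀ (Λ : Set Circle) (Z : Set Ω) (k : ℕ), CGrp Λ →
  MeasurableSet Z → Rk μ Q Λ Z k → ∀ A : Set Ω, MeasurableSet A → μ (A ∩ Z) ≠ 0 →
  ∃ m n : ℕ, 1 ≤ m ∧ 1 ≤ n ∧
    μ {x | x ∈ A ∧ (Q 2)^[m] x ∈ A ∧ (Q 1)^[m + n] x ∈ A ∧ (Q 0)^[m + 2 * n] x ∈ A} ≠ 0

end Pool.Agent.CRk
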